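import Mathlib
import Pool.Agent.Run7.h58.MV.Est
set_option autoImplicit false

/-! The sphere of `ℝ^(2+m)` in coordinates: a circle times a half sphere of `ℝ^(1+m)`. -/

namespace Pool.Agent.Run7.h58.LR

open MeasureTheory Set Complex
open scoped ENNReal NNReal RealInnerProductSpace
open Pool.Agent.H789R2.FR (E sg T sg_finite sg_ae sg_inv polar)
open Pool.Agent.H438R2.BR (Q J J_mp J_inner bipolar)
open Pool.Agent.H438R2.BR.T10 (e0 e0_norm sg_one)
open Pool.Agent.H438R2.PD (P1 P2 P1_J P2_J P1_meas P2_meas T_meas')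

variable {m : ℕ}

/-- height of a point of `ℝ^(1+m)` -/
noncomputable def hh (η : E (1 + m)) : ℝ := (P1 1 m η) 0

/-- the other coordinates -/
noncomputable def yy (η : E (1 + m)) : E m := P2 1 m η

theorem hh_meas : Measurable (hh (m := m)) := by
  unfold hh
  exact (by fun_prop : Measurable fun x : E 1 => x 0).comp (P1_meas 1 m)

theorem yy_meas : Measurable (yy (m := m)) := P2_meas 1 m

theorem one_eq (x : E 1) : x = (x 0) • e0 := by
  ext i
  fin_cases i
  simp [e0]

theorem J_P {k d : ℕ} (z : E (k + d)) : J (P1 k d z) (P2 k d z) = z := by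
  unfold J P1 P2
  ext i
  refine Fin.addCases (fun j => ?_) (fun j => ?_) i
  · simp [Fin.append_left]
  · simp [Fin.append_right]

theorem J_hh (η : E (1 + m)) : J (hh η • e0) (yy η) = η := by
  unfold hh yy
  rw [← one_eq, J_P]

theorem hh_J (x : E 1) (y : E m) : hh (J x y) = x 0 := by
  unfold hh
  rw [P1_J]

theorem yy_J (x : E 1) (y : E m) : yy (J x y) = y := by
  unfold yy
  rw [P2_J]

theorem J_meas {k d : ℕ} : Measurable fun p : E k × E d => J p.1 p.2 := (J_mp k d).measurable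

theorem Psi_meas : Measurable fun p : E (1 + m) × E 2 => J (hh p.1 • p.2) (yy p.1) :=
  J_meas.comp (((hh_meas.comp measurable_fst).smul measurable_snd).prodMk
    (yy_meas.comp measurable_fst))

theorem sph (hm : 1 ≤ m) (f : E (2 + m) → ℝ≥0∞) (hf : Measurable f) :
    ∫⁻ z, f z ∂(sg (2 + m)) = ∫⁻ η : E (1 + m), ENNReal.ofReal (hh η) *
      ∫⁻ u, f (J (hh η • u) (yy η)) ∂(sg 2) ∂(sg (1 + m)) := by
  have hfin := sg_finite 2
  have hfinm := sg_finite m
  have mi : Measurable fun η : E (1 + m) => ∫⁻ u, f (J (hh η • u) (yy η)) ∂(sg 2) :=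
    Measurable.lintegral_prod_right' (f := fun q : E (1 + m) × E 2 => f (J (hh q.1 • q.2) (yy q.1)))
      (hf.comp Psi_meas)
  have mh : Measurable fun η : E (1 + m) => ENNReal.ofReal (hh η) *
      ∫⁻ u, f (J (hh η • u) (yy η)) ∂(sg 2) := hh_meas.ennreal_ofReal.mul mi
  rw [bipolar 2 m (by norm_num) hm f hf, bipolar 1 m le_rfl hm _ mh]
  refine setLIntegral_congr_fun measurableSet_Ioo fun θ hθ => ?_
  have hc : 0 < Real.cos θ := Pool.Agent.H438R2.BR.T7.cos_pos_Q hθ
  have hs : 0 < Real.sin θ := Real.sin_pos_of_pos_of_lt_pi hθ.1 (by linarith [hθ.2, Real.pi_pos])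
  have e1 : ∀ (c : ℝ) (v : E m), hh (J (c • e0) (Real.sin θ • v)) = c := by
    intro c v
    rw [hh_J]
    simp [e0]
  rw [sg_one]
  have z1 : ∫⁻ v, ENNReal.ofReal (hh (J (Real.cos θ • -e0) (Real.sin θ • v))) *
      ∫⁻ u, f (J (hh (J (Real.cos θ • -e0) (Real.sin θ • v)) • u)
        (yy (J (Real.cos θ • -e0) (Real.sin θ • v)))) ∂(sg 2) ∂(sg m) = 0 := by
    rw [show (0 : ℝ≥0∞) = ∫⁻ _v : E m, (0 : ℝ≥0∞) ∂(sg m) by simp]
    refine lintegral_congr fun v => ?_
    rw [show Real.cos θ • -e0 = (-Real.cos θ) • e0 by simp, e1,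
      ENNReal.ofReal_of_nonpos (by linarith), zero_mul]
  rw [z1, add_zero]
  have mf : Measurable fun p : E m × E 2 => f (J (Real.cos θ • p.2) (Real.sin θ • p.1)) :=
    hf.comp (J_meas.comp ((measurable_snd.const_smul (Real.cos θ)).prodMk
      (measurable_fst.const_smul (Real.sin θ))))
  have z2 : ∫⁻ v, ENNReal.ofReal (hh (J (Real.cos θ • e0) (Real.sin θ • v))) *
      ∫⁻ u, f (J (hh (J (Real.cos θ • e0) (Real.sin θ • v)) • u)
        (yy (J (Real.cos θ • e0) (Real.sin θ • v)))) ∂(sg 2) ∂(sg m) =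
      ENNReal.ofReal (Real.cos θ) * ∫⁻ v, ∫⁻ u, f (J (Real.cos θ • u) (Real.sin θ • v))
        ∂(sg 2) ∂(sg m) := by
    rw [← lintegral_const_mul _ mf.lintegral_prod_right']
    refine lintegral_congr fun v => ?_
    rw [e1, yy_J]
  rw [z2, ← mul_assoc, ← ENNReal.ofReal_mul (by positivity),
    lintegral_lintegral_swap (f := fun (u : E 2) (v : E m) =>
      f (J (Real.cos θ • u) (Real.sin θ • v)))]
  · congr 2
    simp only [show 2 - 1 = 1 from rfl, pow_one, Nat.sub_self, pow_zero, one_mul]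
    ring
  · exact (hf.comp (J_meas.comp ((measurable_fst.const_smul (Real.cos θ)).prodMk
      (measurable_snd.const_smul (Real.sin θ))))).aemeasurable

/-- radius of the circle above `y` -/
noncomputable def rr (y : E m) : ℝ := Real.sqrt (1 - ‖y‖ ^ 2)

theorem rr_meas : Measurable (rr (m := m)) := by
  unfold rr
  fun_prop

theorem sphB (hm : 1 ≤ m) (f : E (2 + m) → ℝ≥0∞) (hf : Measurable f) :
    ∫⁻ z, f z ∂(sg (2 + m)) = ∫⁻ y in Metric.ball (0 : E m) 1,
      ∫⁻ u, f (J (rr y • u) y) ∂(sg 2) := by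
  have hfin := sg_finite 2
  have hfinm := sg_finite m
  have mΨ : Measurable fun p : E m × E 2 => J (rr p.1 • p.2) p.1 :=
    J_meas.comp (((rr_meas.comp measurable_fst).smul measurable_snd).prodMk measurable_fst)
  have mi : Measurable fun y : E m => ∫⁻ u, f (J (rr y • u) y) ∂(sg 2) :=
    (hf.comp mΨ).lintegral_prod_right'
  rw [← lintegral_indicator measurableSet_ball, polar (by omega) _
    (mi.indicator measurableSet_ball), bipolar 2 m (by norm_num) hm f hf]
  set Φ : E m → ℝ → ℝ≥0∞ := fun w r => ∫⁻ u, f (J (Real.sqrt (1 - r ^ 2) • u) (r • w)) ∂(sg 2)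
    with hΦ
  have s1 : ∀ᵐ w ∂(sg m), ∫⁻ r in Ioi (0 : ℝ), ENNReal.ofReal (r ^ (m - 1)) *
      (Metric.ball (0 : E m) 1).indicator (fun y => ∫⁻ u, f (J (rr y • u) y) ∂(sg 2)) (r • w) =
      ∫⁻ θ in Q, ENNReal.ofReal (Real.cos θ ^ (2 - 1) * Real.sin θ ^ (m - 1)) *
        ∫⁻ u, f (J (Real.cos θ • u) (Real.sin θ • w)) ∂(sg 2) := by
    filter_upwards [sg_ae m] with w hw
    have himg : Real.sin '' Q = Ioo (0 : ℝ) 1 := by
      ext y
      constructor
      · rintro ⟨τ, hτ, rfl⟩
        refine ⟨Real.sin_pos_of_pos_of_lt_pi hτ.1 (by linarith [hτ.2, Real.pi_pos]), ?_⟩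
        exact (Real.mapsTo_sin_Ioo ⟨by linarith [hτ.1, Real.pi_pos], hτ.2⟩).2
      · intro hy
        refine ⟨Real.arcsin y, ⟨Real.arcsin_pos.2 hy.1, Real.arcsin_lt_pi_div_two.2 hy.2⟩,
          Real.sin_arcsin (by linarith [hy.1]) hy.2.le⟩
    have hsub := lintegral_image_eq_lintegral_abs_deriv_mul
      (s := Q) (f := Real.sin) (f' := Real.cos) measurableSet_Ioo
      (fun τ _ => (Real.hasDerivAt_sin τ).hasDerivWithinAt)
      (Real.injOn_sin.mono (fun τ (hτ : τ ∈ Ioo 0 (Real.pi / 2)) =>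
        (show τ ∈ Icc (-(Real.pi / 2)) (Real.pi / 2) from
          ⟨by linarith [hτ.1, Real.pi_pos], hτ.2.le⟩)))
      (fun r => ENNReal.ofReal (r ^ (m - 1)) * Φ w r)
    rw [himg] at hsub
    have h1 : ∫⁻ r in Ioi (0 : ℝ), ENNReal.ofReal (r ^ (m - 1)) *
        (Metric.ball (0 : E m) 1).indicator (fun y => ∫⁻ u, f (J (rr y • u) y) ∂(sg 2)) (r • w) =
        ∫⁻ r in Ioo (0 : ℝ) 1, ENNReal.ofReal (r ^ (m - 1)) * Φ w r := by
      rw [← lintegral_indicator measurableSet_Ioi, ← lintegral_indicator measurableSet_Ioo]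
      refine lintegral_congr fun r => ?_
      by_cases h0 : 0 < r
      · have m0 : r ∈ Ioi (0 : ℝ) := h0
        rw [indicator_of_mem m0]
        have hn : ‖r • w‖ = r := by rw [norm_smul, hw, mul_one, Real.norm_of_nonneg h0.le]
        by_cases h2 : r < 1
        · have m1 : r ∈ Ioo (0 : ℝ) 1 := ⟨h0, h2⟩
          have m2 : r • w ∈ Metric.ball (0 : E m) 1 := by rw [mem_ball_zero_iff, hn]; exact h2
          rw [indicator_of_mem m1, indicator_of_mem m2, hΦ]
          simp only [rr, hn]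
        · have m1 : r ∉ Ioo (0 : ℝ) 1 := fun h => h2 h.2
          have m2 : r • w ∉ Metric.ball (0 : E m) 1 := by rw [mem_ball_zero_iff, hn]; exact h2
          rw [indicator_of_notMem m1, indicator_of_notMem m2, mul_zero]
      · have m0 : r ∉ Ioi (0 : ℝ) := h0
        have m1 : r ∉ Ioo (0 : ℝ) 1 := fun h => h0 h.1
        rw [indicator_of_notMem m0, indicator_of_notMem m1]
    rw [h1, hsub]
    refine setLIntegral_congr_fun measurableSet_Ioo fun θ hθ => ?_
    have hc : 0 < Real.cos θ := Pool.Agent.H438R2.BR.T7.cos_pos_Q hθ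
    have hs : 0 < Real.sin θ := Real.sin_pos_of_pos_of_lt_pi hθ.1 (by linarith [hθ.2, Real.pi_pos])
    simp only [hΦ]
    rw [abs_of_pos hc, ← mul_assoc, ← ENNReal.ofReal_mul hc.le, ← Real.cos_sq', Real.sqrt_sq hc.le,
      show 2 - 1 = 1 from rfl, pow_one]
  rw [lintegral_congr_ae s1]
  have mf : Measurable fun p : (ℝ × E m) × E 2 =>
      f (J (Real.cos p.1.1 • p.2) (Real.sin p.1.1 • p.1.2)) :=
    hf.comp (J_meas.comp ((((Real.measurable_cos.comp (measurable_fst.comp measurable_fst)).smul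
      measurable_snd)).prodMk ((Real.measurable_sin.comp (measurable_fst.comp measurable_fst)).smul
      (measurable_snd.comp measurable_fst))))
  have mg : Measurable fun p : ℝ × E m => ENNReal.ofReal (Real.cos p.1 ^ (2 - 1) *
      Real.sin p.1 ^ (m - 1)) * ∫⁻ u, f (J (Real.cos p.1 • u) (Real.sin p.1 • p.2)) ∂(sg 2) :=
    (by fun_prop : Measurable fun p : ℝ × E m => ENNReal.ofReal (Real.cos p.1 ^ (2 - 1) *
      Real.sin p.1 ^ (m - 1))).mul mf.lintegral_prod_right'
  rw [← lintegral_lintegral_swap (f := fun (θ : ℝ) (w : E m) =>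
    ENNReal.ofReal (Real.cos θ ^ (2 - 1) * Real.sin θ ^ (m - 1)) *
        ∫⁻ u, f (J (Real.cos θ • u) (Real.sin θ • w)) ∂(sg 2)) mg.aemeasurable]
  refine setLIntegral_congr_fun measurableSet_Ioo fun θ hθ => ?_
  have m5 : Measurable fun p : E m × E 2 => f (J (Real.cos θ • p.2) (Real.sin θ • p.1)) :=
    hf.comp (J_meas.comp ((measurable_snd.const_smul (Real.cos θ)).prodMk
      (measurable_fst.const_smul (Real.sin θ))))
  rw [lintegral_const_mul _ m5.lintegral_prod_right']
  congr 1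
  exact lintegral_lintegral_swap (f := fun (u : E 2) (v : E m) =>
    f (J (Real.cos θ • u) (Real.sin θ • v)))
    ((hf.comp (J_meas.comp ((measurable_fst.const_smul (Real.cos θ)).prodMk
      (measurable_snd.const_smul (Real.sin θ))))).aemeasurable)

/-! ### Bochner integrals -/

/-- the measure on the half sphere -/
noncomputable def nu (m : ℕ) : Measure (E (1 + m)) :=
  (sg (1 + m)).withDensity fun η => ENNReal.ofReal (hh η)

theorem hh_le (η : E (1 + m)) : |hh η| ≤ ‖η‖ := by
  unfold hh P1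
  simpa using PiLp.norm_apply_le η (Fin.castAdd m 0)

theorem nu_finite : IsFiniteMeasure (nu m) := by
  have hfin := sg_finite (1 + m)
  refine isFiniteMeasure_withDensity ?_
  apply ne_of_lt
  calc ∫⁻ η : E (1 + m), ENNReal.ofReal (hh η) ∂(sg (1 + m))
      ≤ ∫⁻ _η : E (1 + m), 1 ∂(sg (1 + m)) := by
        refine lintegral_mono_ae ?_
        filter_upwards [sg_ae (1 + m)] with η hη
        rw [ENNReal.ofReal_le_one]
        have := hh_le η
        rw [hη] at this
        exact (le_abs_self _).trans this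
    _ < ⊤ := by
        rw [lintegral_one]
        exact measure_lt_top _ _

theorem sg_map (hm : 1 ≤ m) : sg (2 + m) = Measure.map
    (fun p : E (1 + m) × E 2 => J (hh p.1 • p.2) (yy p.1)) ((nu m).prod (sg 2)) := by
  have hfin := sg_finite 2
  refine Measure.ext_of_lintegral _ fun f hf => ?_
  rw [lintegral_map hf Psi_meas, lintegral_prod (fun p : E (1 + m) × E 2 =>
    f (J (hh p.1 • p.2) (yy p.1))) (hf.comp Psi_meas).aemeasurable, sph hm f hf]
  have mi : Measurable fun η : E (1 + m) => ∫⁻ u, f (J (hh η • u) (yy η)) ∂(sg 2) :=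
    (hf.comp Psi_meas).lintegral_prod_right'
  unfold nu
  rw [lintegral_withDensity_eq_lintegral_mul _ hh_meas.ennreal_ofReal mi]
  rfl

theorem sg_mapB (hm : 1 ≤ m) : sg (2 + m) = Measure.map
    (fun p : E m × E 2 => J (rr p.1 • p.2) p.1)
    (((volume : Measure (E m)).restrict (Metric.ball 0 1)).prod (sg 2)) := by
  have hfin := sg_finite 2
  have mΨ : Measurable fun p : E m × E 2 => J (rr p.1 • p.2) p.1 :=
    J_meas.comp (((rr_meas.comp measurable_fst).smul measurable_snd).prodMk measurable_fst)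
  refine Measure.ext_of_lintegral _ fun f hf => ?_
  rw [lintegral_map hf mΨ, lintegral_prod (fun p : E m × E 2 => f (J (rr p.1 • p.2) p.1))
    (hf.comp mΨ).aemeasurable, sphB hm f hf]

/-- the phase -/
noncomputable def ph {n : ℕ} (ξ z : E n) : ℂ := Complex.exp (-((⟪ξ, z⟫ : ℝ) : ℂ) * I)

theorem ph_norm {n : ℕ} (ξ z : E n) : ‖ph ξ z‖ = 1 := by
  unfold ph
  exact Pool.Agent.Run7.h58.MV.norm_ee _

theorem ph_meas {n : ℕ} : Measurable fun p : E n × E n => ph p.1 p.2 := by
  have h2 : Measurable fun p : E n × E n => (⟪p.1, p.2⟫ : ℝ) :=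
    (continuous_inner (𝕜 := ℝ)).measurable
  exact Complex.measurable_exp.comp ((Complex.measurable_ofReal.comp h2).neg.mul_const I)

/-- densities on the sphere of `ℝ^(1+m)` -/
noncomputable def kk (G : E (2 + m) → ℂ) (u : E 2) (η : E (1 + m)) : ℂ :=
  ((max (hh η) 0 : ℝ) : ℂ) * G (J (hh η • u) (yy η))

theorem kk_meas (G : E (2 + m) → ℂ) (hG : Measurable G) :
    Measurable fun p : E 2 × E (1 + m) => kk G p.1 p.2 := by
  have h1 : Measurable fun p : E 2 × E (1 + m) => G (J (hh p.2 • p.1) (yy p.2)) :=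
    hG.comp (Psi_meas.comp (measurable_snd.prodMk measurable_fst))
  have h2 : Measurable fun p : E 2 × E (1 + m) => ((max (hh p.2) 0 : ℝ) : ℂ) :=
    Complex.measurable_ofReal.comp ((hh_meas.comp measurable_snd).max measurable_const)
  exact h2.mul h1

theorem T_split (hm : 1 ≤ m) (G : E (2 + m) → ℂ) (hG : Measurable G) (M : ℝ)
    (hM : ∀ z, ‖G z‖ ≤ M) (x : E 2) (t : E m) :
    T G (J x t) = ∫ u, T (kk G u) (J ((⟪x, u⟫ : ℝ) • e0) t) ∂(sg 2) := by
  have hfin := sg_finite 2
  have hfin1 := sg_finite (1 + m)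
  have hnu := nu_finite (m := m)
  have m1 : Measurable fun z : E (2 + m) => ph (J x t) z * G z :=
    (ph_meas.comp (measurable_const.prodMk measurable_id)).mul hG
  have e0' : T G (J x t) = ∫ z, ph (J x t) z * G z ∂(sg (2 + m)) := rfl
  rw [e0', sg_map hm, integral_map Psi_meas.aemeasurable m1.aestronglyMeasurable,
    integral_prod_symm]
  · refine integral_congr_ae (Filter.Eventually.of_forall fun u => ?_)
    change (∫ η, ph (J x t) (J (hh η • u) (yy η)) * G (J (hh η • u) (yy η)) ∂(nu m)) =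
      T (kk G u) (J ((⟪x, u⟫ : ℝ) • e0) t)
    have e1 : T (kk G u) (J ((⟪x, u⟫ : ℝ) • e0) t) =
        ∫ η, ph (J ((⟪x, u⟫ : ℝ) • e0) t) η * kk G u η ∂(sg (1 + m)) := rfl
    rw [e1]
    unfold nu
    rw [integral_withDensity_eq_integral_toReal_smul hh_meas.ennreal_ofReal
      (Filter.Eventually.of_forall fun _ => ENNReal.ofReal_lt_top)]
    refine integral_congr_ae (Filter.Eventually.of_forall fun η => ?_)
    simp only [ENNReal.toReal_ofReal']
    rw [Complex.real_smul]
    have e2 : ph (J ((⟪x, u⟫ : ℝ) • e0) t) η = ph (J x t) (J (hh η • u) (yy η)) := by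
      unfold ph
      congr 3
      have h1 : (⟪J ((⟪x, u⟫ : ℝ) • e0) t, η⟫ : ℝ) =
          ⟪J ((⟪x, u⟫ : ℝ) • e0) t, J (hh η • e0) (yy η)⟫ := by rw [J_hh]
      rw [h1, J_inner, J_inner, real_inner_smul_left, real_inner_smul_right,
        real_inner_smul_right, real_inner_self_eq_norm_sq, e0_norm]
      push_cast
      ring
    rw [e2]
    unfold kk
    ring
  · refine Integrable.of_bound (m1.comp Psi_meas).aestronglyMeasurable M
      (Filter.Eventually.of_forall fun p => ?_)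
    rw [norm_mul, ph_norm, one_mul]
    exact hM _

end Pool.Agent.Run7.h58.LR
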