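import Mathlib
import Pool.Agent.Run7.h58.LR.Sph
set_option autoImplicit false

/-! Rotations of the plane, adapted coordinates, weights. -/

namespace Pool.Agent.Run7.h58.LR

open MeasureTheory Set Complex
open scoped ENNReal NNReal RealInnerProductSpace
open Pool.Agent.H789R2.FR (E sg T sg_finite sg_ae sg_inv)
open Pool.Agent.H438R2.BR (Q)
open Pool.Agent.TH554.J1595 (pt pt_zero pt_one pt_meas sg_two_lint)
open Pool.Agent.Run7.h58.MV (inner_two norm_two)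

/-- quarter turn -/
noncomputable def pp (x : E 2) : E 2 := !₂[-x 1, x 0]

theorem pp_zero (x : E 2) : pp x 0 = -x 1 := rfl
theorem pp_one (x : E 2) : pp x 1 = x 0 := rfl

theorem pp_norm (x : E 2) : ‖pp x‖ = ‖x‖ := by
  have h1 := norm_two (pp x)
  have h2 := norm_two x
  rw [pp_zero, pp_one] at h1
  have h3 : ‖pp x‖ ^ 2 = ‖x‖ ^ 2 := by rw [h1, h2]; ring
  exact (pow_left_inj₀ (norm_nonneg _) (norm_nonneg _) (by norm_num)).1 h3

theorem pp_smul (c : ℝ) (x : E 2) : pp (c • x) = c • pp x := by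
  ext i
  fin_cases i <;> simp [pp]

theorem pp_meas : Measurable pp := by
  unfold pp
  fun_prop

/-- rotation of the plane -/
noncomputable def rv (θ : ℝ) (x : E 2) : E 2 :=
  !₂[Real.cos θ * x 0 - Real.sin θ * x 1, Real.sin θ * x 0 + Real.cos θ * x 1]

theorem rv_zero (θ : ℝ) (x : E 2) : rv θ x 0 = Real.cos θ * x 0 - Real.sin θ * x 1 := rfl
theorem rv_one (θ : ℝ) (x : E 2) : rv θ x 1 = Real.sin θ * x 0 + Real.cos θ * x 1 := rfl

theorem rv_meas : Measurable fun p : ℝ × E 2 => rv p.1 p.2 := by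
  unfold rv
  have h : Continuous fun p : ℝ × E 2 => (!₂[Real.cos p.1 * p.2 0 - Real.sin p.1 * p.2 1,
    Real.sin p.1 * p.2 0 + Real.cos p.1 * p.2 1] : E 2) := by fun_prop
  exact h.measurable

noncomputable def rl (θ : ℝ) : E 2 →ₗ[ℝ] E 2 where
  toFun := rv θ
  map_add' x y := by
    ext i
    fin_cases i
    · change rv θ (x + y) 0 = rv θ x 0 + rv θ y 0
      simp only [rv_zero, PiLp.add_apply]
      ring
    · change rv θ (x + y) 1 = rv θ x 1 + rv θ y 1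
      simp only [rv_one, PiLp.add_apply]
      ring
  map_smul' c x := by
    ext i
    fin_cases i
    · change rv θ (c • x) 0 = c * rv θ x 0
      simp only [rv_zero, PiLp.smul_apply, smul_eq_mul]
      ring
    · change rv θ (c • x) 1 = c * rv θ x 1
      simp only [rv_one, PiLp.smul_apply, smul_eq_mul]
      ring

theorem rv_rv (θ : ℝ) (x : E 2) : rv θ (rv (-θ) x) = x := by
  have h := Real.cos_sq_add_sin_sq θ
  ext i
  fin_cases i
  · change rv θ (rv (-θ) x) 0 = x 0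
    rw [rv_zero, rv_zero, rv_one, Real.cos_neg, Real.sin_neg]
    linear_combination (x 0) * h
  · change rv θ (rv (-θ) x) 1 = x 1
    rw [rv_one, rv_zero, rv_one, Real.cos_neg, Real.sin_neg]
    linear_combination (x 1) * h

theorem rv_norm (θ : ℝ) (x : E 2) : ‖rv θ x‖ = ‖x‖ := by
  have h := Real.cos_sq_add_sin_sq θ
  have h1 := norm_two (rv θ x)
  have h2 := norm_two x
  rw [rv_zero, rv_one] at h1
  have h3 : ‖rv θ x‖ ^ 2 = ‖x‖ ^ 2 := by
    rw [h1, h2]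
    linear_combination (x 0 ^ 2 + x 1 ^ 2) * h
  exact (pow_left_inj₀ (norm_nonneg _) (norm_nonneg _) (by norm_num)).1 h3

/-- rotation of the plane, as an isometry -/
noncomputable def rot (θ : ℝ) : E 2 ≃ₗᵢ[ℝ] E 2 where
  toLinearEquiv := LinearEquiv.ofLinearMap (rl θ) (rl (-θ))
    (LinearMap.ext fun x => rv_rv θ x)
    (LinearMap.ext fun x => by
      have := rv_rv (-θ) x
      rw [neg_neg] at this
      exact this)
  norm_map' x := rv_norm θ x

theorem rot_apply (θ : ℝ) (x : E 2) : rot θ x = rv θ x := rfl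

theorem rot_zero (θ : ℝ) (x : E 2) : rot θ x 0 = Real.cos θ * x 0 - Real.sin θ * x 1 := rfl
theorem rot_one (θ : ℝ) (x : E 2) : rot θ x 1 = Real.sin θ * x 0 + Real.cos θ * x 1 := rfl

theorem rot_meas : Measurable fun p : ℝ × E 2 => rot p.1 p.2 := rv_meas

theorem rot_inner (θ : ℝ) (x u : E 2) : (⟪rot θ x, u⟫ : ℝ) =
    Real.cos θ * ⟪x, u⟫ + Real.sin θ * ⟪pp x, u⟫ := by
  rw [inner_two, inner_two, inner_two, rot_zero, rot_one, pp_zero, pp_one]
  ring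

theorem rot_inner' (θ : ℝ) (x u : E 2) : (⟪pp (rot θ x), u⟫ : ℝ) =
    Real.cos θ * ⟪pp x, u⟫ - Real.sin θ * ⟪x, u⟫ := by
  rw [inner_two, inner_two, inner_two, pp_zero, pp_one, rot_zero, rot_one, pp_zero, pp_one]
  ring

theorem inner_sq (x u : E 2) (hu : ‖u‖ = 1) :
    (⟪x, u⟫ : ℝ) ^ 2 + (⟪pp x, u⟫ : ℝ) ^ 2 = ‖x‖ ^ 2 := by
  have h := norm_two u
  rw [hu] at h
  rw [inner_two, inner_two, pp_zero, pp_one, norm_two]
  linear_combination (-(x 0 ^ 2 + x 1 ^ 2)) * h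

/-! ### adapted coordinates -/

/-- coordinates adapted to `u` -/
noncomputable def rf (u x : E 2) : E 2 := !₂[(⟪x, u⟫ : ℝ), (⟪pp x, u⟫ : ℝ)]

theorem rf_zero (u x : E 2) : rf u x 0 = ⟪x, u⟫ := rfl
theorem rf_one (u x : E 2) : rf u x 1 = ⟪pp x, u⟫ := rfl

noncomputable def rfl' (u : E 2) : E 2 →ₗ[ℝ] E 2 where
  toFun := rf u
  map_add' x y := by
    ext i
    fin_cases i
    · change rf u (x + y) 0 = rf u x 0 + rf u y 0
      simp only [rf_zero, inner_two, PiLp.add_apply]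
      ring
    · change rf u (x + y) 1 = rf u x 1 + rf u y 1
      simp only [rf_one, inner_two, pp_zero, pp_one, PiLp.add_apply]
      ring
  map_smul' c x := by
    ext i
    fin_cases i
    · change rf u (c • x) 0 = c * rf u x 0
      simp only [rf_zero, inner_two, PiLp.smul_apply, smul_eq_mul]
      ring
    · change rf u (c • x) 1 = c * rf u x 1
      simp only [rf_one, inner_two, pp_zero, pp_one, PiLp.smul_apply, smul_eq_mul]
      ring

theorem rf_rf (u : E 2) (hu : ‖u‖ = 1) (x : E 2) : rf u (rf u x) = x := by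
  have h := norm_two u
  rw [hu] at h
  ext i
  fin_cases i
  · change rf u (rf u x) 0 = x 0
    rw [rf_zero, inner_two, rf_zero, rf_one, inner_two, inner_two, pp_zero, pp_one]
    linear_combination (-(x 0)) * h
  · change rf u (rf u x) 1 = x 1
    rw [rf_one, inner_two, pp_zero, pp_one, rf_zero, rf_one, inner_two, inner_two, pp_zero, pp_one]
    linear_combination (-(x 1)) * h

/-- coordinates adapted to `u`, as an isometry -/
noncomputable def rfe (u : E 2) (hu : ‖u‖ = 1) : E 2 ≃ₗᵢ[ℝ] E 2 where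
  toLinearEquiv := LinearEquiv.ofLinearMap (rfl' u) (rfl' u)
    (LinearMap.ext fun x => rf_rf u hu x) (LinearMap.ext fun x => rf_rf u hu x)
  norm_map' x := by
    change ‖rf u x‖ = ‖x‖
    have h1 := norm_two (rf u x)
    rw [rf_zero, rf_one, inner_sq x u hu] at h1
    exact (pow_left_inj₀ (norm_nonneg _) (norm_nonneg _) (by norm_num)).1 h1

theorem plane_lint (f : ℝ → ℝ → ℝ≥0∞) (hf : Measurable (Function.uncurry f)) :
    ∫⁻ x : E 2, f (x 0) (x 1) = ∫⁻ s, ∫⁻ b, f s b := by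
  have h1 := PiLp.volume_preserving_ofLp (Fin 2)
  have h2 := volume_preserving_finTwoArrow ℝ
  have h3 := h2.comp h1
  have h4 : ∫⁻ x : E 2, f (x 0) (x 1) = ∫⁻ p : ℝ × ℝ, f p.1 p.2 := by
    have h5 := h3.lintegral_comp hf
    exact h5
  rw [h4]
  exact lintegral_prod _ hf.aemeasurable

theorem adapted (u : E 2) (hu : ‖u‖ = 1) (f : ℝ → ℝ → ℝ≥0∞)
    (hf : Measurable (Function.uncurry f)) :
    ∫⁻ x : E 2, f ⟪x, u⟫ ⟪pp x, u⟫ = ∫⁻ s, ∫⁻ b, f s b := by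
  rw [← plane_lint f hf]
  have hm : Measurable fun x : E 2 => f (x 0) (x 1) :=
    hf.comp ((by fun_prop : Measurable fun x : E 2 => x 0).prodMk
      (by fun_prop : Measurable fun x : E 2 => x 1))
  rw [← (rfe u hu).measurePreserving.lintegral_comp hm]
  rfl

/-! ### weights -/

theorem circ_weight (ε : ℝ) (hε : 0 < ε) (hε1 : ε < 1) : ∃ K : ℝ≥0, ∀ e : E 2, ‖e‖ = 1 →
    ∫⁻ u, (ENNReal.ofReal |(⟪e, u⟫ : ℝ)|)⁻¹ ^ (1 - ε) ∂(sg 2) ≤ K := by
  have hpi := Real.pi_pos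
  refine ⟨Real.toNNReal (4 * ((2 / Real.pi) ^ (-(1 - ε)) * ((Real.pi / 2) ^ (-(1 - ε) + 1) /
    (-(1 - ε) + 1)))), fun e he => ?_⟩
  have hm : Measurable fun x : E 2 => (ENNReal.ofReal |x 0|)⁻¹ ^ (1 - ε) := by fun_prop
  have h1 : ∫⁻ u, (ENNReal.ofReal |(⟪e, u⟫ : ℝ)|)⁻¹ ^ (1 - ε) ∂(sg 2) =
      ∫⁻ x : E 2, (ENNReal.ofReal |x 0|)⁻¹ ^ (1 - ε) ∂(sg 2) := by
    rw [← (sg_inv (rfe e he)).lintegral_comp hm]
    refine lintegral_congr fun x => ?_
    change _ = (ENNReal.ofReal |rf e x 0|)⁻¹ ^ (1 - ε)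
    rw [rf_zero, real_inner_comm]
  rw [h1, sg_two_lint _ hm]
  have h2 : ∀ i : Bool × Bool, ∫⁻ θ in Q, (ENNReal.ofReal |pt i θ 0|)⁻¹ ^ (1 - ε) ≤
      ENNReal.ofReal ((2 / Real.pi) ^ (-(1 - ε)) * ((Real.pi / 2) ^ (-(1 - ε) + 1) /
        (-(1 - ε) + 1))) := by
    intro i
    have h3 : ∫⁻ θ in Q, (ENNReal.ofReal |pt i θ 0|)⁻¹ ^ (1 - ε) =
        ∫⁻ θ in Q, (ENNReal.ofReal |Real.cos θ|)⁻¹ ^ (1 - ε) := by
      refine lintegral_congr fun θ => ?_
      rw [pt_zero, abs_mul]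
      have : |Pool.Agent.TH554.J1595.sgn i.1| = 1 := by
        cases i.1 <;> simp [Pool.Agent.TH554.J1595.sgn]
      rw [this, one_mul]
    rw [h3]
    have h4 := Pool.Agent.Run7.h58.MV.flip (fun τ => (ENNReal.ofReal |Real.cos τ|)⁻¹ ^ (1 - ε))
      0 (Real.pi / 2) (Real.pi / 2)
    rw [sub_self, sub_zero] at h4
    unfold Q
    rw [← h4]
    calc ∫⁻ τ in Ioo 0 (Real.pi / 2), (ENNReal.ofReal |Real.cos (Real.pi / 2 - τ)|)⁻¹ ^ (1 - ε)
        ≤ ∫⁻ τ in Ioo 0 (Real.pi / 2), ENNReal.ofReal ((2 / Real.pi) ^ (-(1 - ε))) *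
          ENNReal.ofReal (τ ^ (-(1 - ε))) := by
          refine setLIntegral_mono' measurableSet_Ioo fun τ hτ => ?_
          have hs : 2 / Real.pi * τ ≤ Real.sin τ := Real.mul_le_sin hτ.1.le hτ.2.le
          have hτ0 : 0 < τ := hτ.1
          have hp : 0 < 2 / Real.pi * τ := mul_pos (by positivity) hτ.1
          have hsp : 0 < Real.sin τ := hp.trans_le hs
          rw [Real.cos_pi_div_two_sub, abs_of_pos (hp.trans_le hs),
            ← ENNReal.ofReal_inv_of_pos (hp.trans_le hs),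
            ENNReal.ofReal_rpow_of_nonneg (by positivity) (by linarith),
            ← ENNReal.ofReal_mul (by positivity)]
          apply ENNReal.ofReal_le_ofReal
          rw [← Real.mul_rpow (by positivity) hτ.1.le, Real.rpow_neg hp.le,
            Real.inv_rpow (hp.trans_le hs).le]
          gcongr
      _ = _ := by
          rw [lintegral_const_mul' _ _ ENNReal.ofReal_ne_top,
            Pool.Agent.H438R2.BR.T7.lint_pow (Real.pi / 2) (-(1 - ε)) (by positivity) (by linarith),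
            ← ENNReal.ofReal_mul (by positivity)]
  calc ∑ i : Bool × Bool, ∫⁻ θ in Q, (ENNReal.ofReal |pt i θ 0|)⁻¹ ^ (1 - ε)
      ≤ ∑ _i : Bool × Bool, ENNReal.ofReal ((2 / Real.pi) ^ (-(1 - ε)) *
        ((Real.pi / 2) ^ (-(1 - ε) + 1) / (-(1 - ε) + 1))) := Finset.sum_le_sum fun i _ => h2 i
    _ = ENNReal.ofReal (4 * ((2 / Real.pi) ^ (-(1 - ε)) *
        ((Real.pi / 2) ^ (-(1 - ε) + 1) / (-(1 - ε) + 1)))) := by
        rw [Finset.sum_const, Finset.card_univ, nsmul_eq_mul,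
          ENNReal.ofReal_mul (p := 4) (by norm_num)]
        congr 1
        simp
    _ = _ := rfl

/-- the weight -/
noncomputable def wt (ε δ : ℝ) (x u : E 2) : ℝ≥0∞ :=
  (ENNReal.ofReal (δ * ‖x‖) * (ENNReal.ofReal |(⟪pp x, u⟫ : ℝ)|)⁻¹) ^ (1 - ε)

theorem inner_meas : Measurable fun p : E 2 × E 2 => (⟪p.1, p.2⟫ : ℝ) :=
  (continuous_inner (𝕜 := ℝ)).measurable

theorem wt_meas (ε δ : ℝ) : Measurable fun p : E 2 × E 2 => wt ε δ p.1 p.2 := by
  unfold wt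
  have h1 : Measurable fun p : E 2 × E 2 => (⟪pp p.1, p.2⟫ : ℝ) :=
    inner_meas.comp ((pp_meas.comp measurable_fst).prodMk measurable_snd)
  have h2 : Measurable fun p : E 2 × E 2 => |(⟪pp p.1, p.2⟫ : ℝ)| := h1.abs
  have h3 : Measurable fun p : E 2 × E 2 => δ * ‖p.1‖ := by fun_prop
  exact (h3.ennreal_ofReal.mul h2.ennreal_ofReal.inv).pow_const _

theorem wt_mass (ε : ℝ) (hε : 0 < ε) (hε1 : ε < 1) : ∃ K : ℝ≥0, ∀ (δ : ℝ), 0 < δ → ∀ x : E 2,
    x ≠ 0 → ∫⁻ u, wt ε δ x u ∂(sg 2) ≤ K * ENNReal.ofReal (δ ^ (1 - ε)) := by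
  obtain ⟨K, hK⟩ := circ_weight ε hε hε1
  refine ⟨K, fun δ hδ x hx => ?_⟩
  have hn : 0 < ‖x‖ := norm_pos_iff.2 hx
  set e : E 2 := ‖x‖⁻¹ • pp x with he
  have he1 : ‖e‖ = 1 := by
    rw [he, norm_smul, pp_norm, norm_inv, norm_norm, inv_mul_cancel₀ hn.ne']
  have hxe : pp x = ‖x‖ • e := by rw [he, smul_smul, mul_inv_cancel₀ hn.ne', one_smul]
  have h1 : ∀ u, wt ε δ x u = ENNReal.ofReal (δ ^ (1 - ε)) *
      (ENNReal.ofReal |(⟪e, u⟫ : ℝ)|)⁻¹ ^ (1 - ε) := by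
    intro u
    unfold wt
    rw [hxe, real_inner_smul_left, abs_mul, abs_of_pos hn, ENNReal.ofReal_mul hδ.le,
      ENNReal.ofReal_mul hn.le, ENNReal.mul_inv (Or.inr ENNReal.ofReal_ne_top)
      (Or.inl ENNReal.ofReal_ne_top), ← ENNReal.ofReal_rpow_of_nonneg hδ.le (by linarith),
      ← ENNReal.mul_rpow_of_nonneg _ _ (by linarith)]
    congr 1
    have h2 : ENNReal.ofReal ‖x‖ * (ENNReal.ofReal ‖x‖)⁻¹ = 1 :=
      ENNReal.mul_inv_cancel (by simpa using hx) ENNReal.ofReal_ne_top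
    calc ENNReal.ofReal δ * ENNReal.ofReal ‖x‖ *
          ((ENNReal.ofReal ‖x‖)⁻¹ * (ENNReal.ofReal |(⟪e, u⟫ : ℝ)|)⁻¹)
        = ENNReal.ofReal δ * (ENNReal.ofReal |(⟪e, u⟫ : ℝ)|)⁻¹ *
          (ENNReal.ofReal ‖x‖ * (ENNReal.ofReal ‖x‖)⁻¹) := by ring
      _ = _ := by rw [h2, mul_one]
  calc ∫⁻ u, wt ε δ x u ∂(sg 2) = ∫⁻ u, ENNReal.ofReal (δ ^ (1 - ε)) *
        (ENNReal.ofReal |(⟪e, u⟫ : ℝ)|)⁻¹ ^ (1 - ε) ∂(sg 2) := lintegral_congr fun u => h1 u
    _ = ENNReal.ofReal (δ ^ (1 - ε)) *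
        ∫⁻ u, (ENNReal.ofReal |(⟪e, u⟫ : ℝ)|)⁻¹ ^ (1 - ε) ∂(sg 2) :=
        lintegral_const_mul' _ _ ENNReal.ofReal_ne_top
    _ ≤ ENNReal.ofReal (δ ^ (1 - ε)) * K := by gcongr; exact hK e he1
    _ = _ := mul_comm _ _

end Pool.Agent.Run7.h58.LR
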