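import Mathlib
import Pool.Agent.Run7.h58.LR.Rot
set_option autoImplicit false

/-! Jensen's inequality with the weight, over a shell. -/

namespace Pool.Agent.Run7.h58.LR

open MeasureTheory Set Complex
open scoped ENNReal NNReal RealInnerProductSpace
open Pool.Agent.H789R2.FR (E sg T sg_finite sg_ae sg_inv)
open Pool.Agent.H438R2.PD.A5 (jensenp)

variable {m : ℕ}

/-- the shell -/
def Sh (R : ℝ) : Set (E 2) := {x | R ≤ ‖x‖ ∧ ‖x‖ ≤ 2 * R}

theorem Sh_meas (R : ℝ) : MeasurableSet (Sh R) :=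
  (measurableSet_le measurable_const measurable_norm).inter
    (measurableSet_le measurable_norm measurable_const)

/-- the weight on the line -/
noncomputable def wl (ε δ R : ℝ) (b : ℝ) : ℝ≥0∞ :=
  (Ioo (-(3 * R)) (3 * R)).indicator
    (fun b => (ENNReal.ofReal (2 * R * δ) * (ENNReal.ofReal |b|)⁻¹) ^ (1 - ε)) b

theorem wl_meas (ε δ R : ℝ) : Measurable (wl ε δ R) := by
  unfold wl
  refine Measurable.indicator ?_ measurableSet_Ioo
  fun_prop

theorem wl_int (ε δ R : ℝ) (hε : 0 < ε) (hε1 : ε < 1) (hδ : 0 < δ) (hR : 0 < R) :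
    ∫⁻ b, wl ε δ R b ≤ ENNReal.ofReal (6 / ε * (R * δ ^ (1 - ε))) := by
  unfold wl
  rw [lintegral_indicator measurableSet_Ioo]
  set g : ℝ → ℝ≥0∞ := fun b => (ENNReal.ofReal (2 * R * δ) * (ENNReal.ofReal |b|)⁻¹) ^ (1 - ε)
    with hg
  rw [Pool.Agent.Run7.h58.MV.split g (-(3 * R)) 0 (3 * R) (by linarith) (by linarith)]
  have h4 := Pool.Agent.Run7.h58.MV.flip g 0 (3 * R) 0
  rw [zero_sub, sub_zero] at h4
  rw [← h4]
  have h5 : ∫⁻ τ in Ioo 0 (3 * R), g (0 - τ) = ∫⁻ τ in Ioo 0 (3 * R), g τ := by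
    refine lintegral_congr fun τ => ?_
    simp only [hg, zero_sub, abs_neg]
  rw [h5]
  have h6 : ∫⁻ τ in Ioo 0 (3 * R), g τ ≤ ENNReal.ofReal (3 / ε * (R * δ ^ (1 - ε))) := by
    calc ∫⁻ τ in Ioo 0 (3 * R), g τ ≤ ∫⁻ τ in Ioo 0 (3 * R),
          ENNReal.ofReal ((2 * R * δ) ^ (1 - ε)) * ENNReal.ofReal (τ ^ (-(1 - ε))) := by
          refine setLIntegral_mono' measurableSet_Ioo fun τ hτ => ?_
          have hτ0 : 0 < τ := hτ.1
          simp only [hg]
          rw [abs_of_pos hτ0, ← ENNReal.ofReal_inv_of_pos hτ0, ← ENNReal.ofReal_mul (by positivity),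
            ENNReal.ofReal_rpow_of_nonneg (by positivity) (by linarith),
            ← ENNReal.ofReal_mul (by positivity), Real.mul_rpow (by positivity) (by positivity),
            Real.inv_rpow hτ0.le, Real.rpow_neg hτ0.le]
      _ = ENNReal.ofReal ((2 * R * δ) ^ (1 - ε) * ((3 * R) ^ (-(1 - ε) + 1) / (-(1 - ε) + 1))) := by
          rw [lintegral_const_mul' _ _ ENNReal.ofReal_ne_top,
            Pool.Agent.H438R2.BR.T7.lint_pow (3 * R) (-(1 - ε)) (by positivity) (by linarith),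
            ← ENNReal.ofReal_mul (by positivity)]
      _ ≤ _ := by
          apply ENNReal.ofReal_le_ofReal
          rw [show -(1 - ε) + 1 = ε by ring, Real.mul_rpow (by positivity) hδ.le]
          have h7 : (2 * R) ^ (1 - ε) ≤ (3 * R) ^ (1 - ε) := by
            apply Real.rpow_le_rpow (by positivity) (by linarith) (by linarith)
          have h8 : (3 * R) ^ (1 - ε) * (3 * R) ^ ε = 3 * R := by
            rw [← Real.rpow_add (by positivity)]
            norm_num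
          calc (2 * R) ^ (1 - ε) * δ ^ (1 - ε) * ((3 * R) ^ ε / ε)
              ≤ (3 * R) ^ (1 - ε) * δ ^ (1 - ε) * ((3 * R) ^ ε / ε) := by gcongr
            _ = ((3 * R) ^ (1 - ε) * (3 * R) ^ ε) * δ ^ (1 - ε) / ε := by ring
            _ = 3 / ε * (R * δ ^ (1 - ε)) := by rw [h8]; ring
  calc _ ≤ ENNReal.ofReal (3 / ε * (R * δ ^ (1 - ε))) + ENNReal.ofReal (3 / ε * (R * δ ^ (1 - ε))) :=
        add_le_add h6 h6
    _ = _ := by
        rw [← ENNReal.ofReal_add (by positivity) (by positivity)]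
        congr 1
        ring

theorem wt_le (ε δ R : ℝ) (hε1 : ε < 1) (hδ : 0 < δ) (hR : 0 < R) (x u : E 2)
    (hx : x ∈ Sh R) (hu : ‖u‖ = 1) : wt ε δ x u ≤ wl ε δ R ⟪pp x, u⟫ := by
  have h1 : |(⟪pp x, u⟫ : ℝ)| ≤ 2 * R := by
    have := abs_real_inner_le_norm (pp x) u
    rw [hu, mul_one, pp_norm] at this
    exact this.trans hx.2
  have h2 : (⟪pp x, u⟫ : ℝ) ∈ Ioo (-(3 * R)) (3 * R) := by
    rw [abs_le] at h1
    exact ⟨by linarith, by linarith⟩
  unfold wt wl
  rw [indicator_of_mem h2]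
  have h3 : δ * ‖x‖ ≤ 2 * R * δ := by nlinarith [hx.2]
  exact ENNReal.rpow_le_rpow (mul_le_mul_left (ENNReal.ofReal_le_ofReal h3) _) (by linarith)

theorem S_bound (P ε : ℝ) (hP : 1 < P) (hε : 0 < ε) (hε1 : ε < 1) : ∃ C : ℝ≥0,
    ∀ δ : ℝ, 0 < δ → ∀ R : ℝ, 0 < R → ∀ (A : ℝ≥0∞) (h : E 2 → ℝ → E m → ℝ≥0∞),
      Measurable (fun p : E 2 × ℝ × E m => h p.1 p.2.1 p.2.2) →
      (∀ u, ‖u‖ = 1 → ∫⁻ s, ∫⁻ t, h u s t ^ P ≤ A) →
      ∫⁻ x in Sh R, ∫⁻ t, (∫⁻ u, wt ε δ x u * h u ⟪x, u⟫ t ∂(sg 2)) ^ P ≤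
        C * ENNReal.ofReal (R * δ ^ ((1 - ε) * P)) * A := by
  have hfin := sg_finite 2
  obtain ⟨K, hK⟩ := wt_mass ε hε hε1
  have hP1 : 0 < P - 1 := by linarith
  have hne : (K : ℝ≥0∞) ^ (P - 1) * ENNReal.ofReal (6 / ε) * sg 2 univ ≠ ⊤ :=
    ENNReal.mul_ne_top (ENNReal.mul_ne_top (ENNReal.rpow_ne_top_of_nonneg hP1.le
      ENNReal.coe_ne_top) ENNReal.ofReal_ne_top) (measure_lt_top _ _).ne
  refine ⟨((K : ℝ≥0∞) ^ (P - 1) * ENNReal.ofReal (6 / ε) * sg 2 univ).toNNReal,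
    fun δ hδ R hR A h hm hA => ?_⟩
  rw [ENNReal.coe_toNNReal hne]
  -- measurability
  have hxu : Measurable fun p : (E 2 × E m) × E 2 => (⟪p.1.1, p.2⟫ : ℝ) :=
    inner_meas.comp ((measurable_fst.comp measurable_fst).prodMk measurable_snd)
  have hm1 : Measurable fun p : (E 2 × E m) × E 2 => h p.2 ⟪p.1.1, p.2⟫ p.1.2 := by
    have k : Measurable fun p : (E 2 × E m) × E 2 => (p.2, (⟪p.1.1, p.2⟫ : ℝ), p.1.2) :=
      measurable_snd.prodMk (hxu.prodMk (measurable_snd.comp measurable_fst))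
    have h := hm.comp k
    exact h
  have hw1 : Measurable fun p : (E 2 × E m) × E 2 => wt ε δ p.1.1 p.2 := by
    have k : Measurable fun p : (E 2 × E m) × E 2 => (p.1.1, p.2) :=
      (measurable_fst.comp measurable_fst).prodMk measurable_snd
    have h := (wt_meas ε δ).comp k
    exact h
  have hF : Measurable fun p : (E 2 × E m) × E 2 => wt ε δ p.1.1 p.2 *
      h p.2 ⟪p.1.1, p.2⟫ p.1.2 ^ P := hw1.mul (hm1.pow_const P)
  -- Jensen
  have hJ : ∀ x : E 2, x ≠ 0 → ∀ t : E m, (∫⁻ u, wt ε δ x u * h u ⟪x, u⟫ t ∂(sg 2)) ^ P ≤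
      (K * ENNReal.ofReal (δ ^ (1 - ε))) ^ (P - 1) *
        ∫⁻ u, wt ε δ x u * h u ⟪x, u⟫ t ^ P ∂(sg 2) := by
    intro x hx t
    have k : Measurable fun u : E 2 => (((x, t), u) : (E 2 × E m) × E 2) :=
      measurable_const.prodMk measurable_id
    have mw0 := hw1.comp k
    have mw : Measurable fun u : E 2 => wt ε δ x u := mw0
    have mh0 := hm1.comp k
    have mh : Measurable fun u : E 2 => h u ⟪x, u⟫ t := mh0
    have h1 := jensenp ((sg 2).withDensity fun u => wt ε δ x u) (fun u => h u ⟪x, u⟫ t)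
      mh.aemeasurable P hP
    rw [lintegral_withDensity_eq_lintegral_mul _ mw mh,
      lintegral_withDensity_eq_lintegral_mul _ mw (mh.pow_const P),
      withDensity_apply _ MeasurableSet.univ, Measure.restrict_univ] at h1
    refine h1.trans ?_
    exact mul_le_mul' (ENNReal.rpow_le_rpow (hK δ hδ x hx) hP1.le) (le_of_eq rfl)
  -- the adapted coordinates
  have hU : ∀ u : E 2, ‖u‖ = 1 → ∫⁻ x in Sh R, ∫⁻ t, wt ε δ x u * h u ⟪x, u⟫ t ^ P ≤
      ENNReal.ofReal (6 / ε * (R * δ ^ (1 - ε))) * A := by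
    intro u hu
    have mst : Measurable fun p : ℝ × E m => h u p.1 p.2 ^ P := by
      have k : Measurable fun p : ℝ × E m => ((u, p) : E 2 × ℝ × E m) :=
        measurable_const.prodMk measurable_id
      have h := (hm.comp k).pow_const P
      exact h
    have mt : ∀ s : ℝ, Measurable fun t : E m => h u s t ^ P := by
      intro s
      have k : Measurable fun t : E m => ((s, t) : ℝ × E m) :=
        measurable_const.prodMk measurable_id
      have h := mst.comp k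
      exact h
    have ms : Measurable fun s : ℝ => ∫⁻ t, h u s t ^ P := mst.lintegral_prod_right'
    have hsb0 := ((wl_meas ε δ R).comp (measurable_snd (α := ℝ) (β := ℝ))).mul
      (ms.comp (measurable_fst (α := ℝ) (β := ℝ)))
    have hsb : Measurable (Function.uncurry fun s b : ℝ => wl ε δ R b * ∫⁻ t, h u s t ^ P) :=
      hsb0
    calc ∫⁻ x in Sh R, ∫⁻ t, wt ε δ x u * h u ⟪x, u⟫ t ^ P
        = ∫⁻ x in Sh R, wt ε δ x u * ∫⁻ t, h u ⟪x, u⟫ t ^ P := by
          refine lintegral_congr fun x => ?_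
          rw [lintegral_const_mul _ (mt _)]
      _ ≤ ∫⁻ x in Sh R, wl ε δ R ⟪pp x, u⟫ * ∫⁻ t, h u ⟪x, u⟫ t ^ P := by
          refine setLIntegral_mono' (Sh_meas R) fun x hx => ?_
          gcongr
          exact wt_le ε δ R hε1 hδ hR x u hx hu
      _ ≤ ∫⁻ x, wl ε δ R ⟪pp x, u⟫ * ∫⁻ t, h u ⟪x, u⟫ t ^ P := setLIntegral_le_lintegral _ _
      _ = ∫⁻ s, ∫⁻ b, wl ε δ R b * ∫⁻ t, h u s t ^ P :=
          adapted u hu (fun s b => wl ε δ R b * ∫⁻ t, h u s t ^ P) hsb
      _ = ∫⁻ s, (∫⁻ b, wl ε δ R b) * ∫⁻ t, h u s t ^ P := by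
          refine lintegral_congr fun s => ?_
          rw [lintegral_mul_const _ (wl_meas ε δ R)]
      _ = (∫⁻ b, wl ε δ R b) * ∫⁻ s, ∫⁻ t, h u s t ^ P := lintegral_const_mul _ ms
      _ ≤ _ := by
          gcongr
          · exact wl_int ε δ R hε hε1 hδ hR
          · exact hA u hu
  calc ∫⁻ x in Sh R, ∫⁻ t, (∫⁻ u, wt ε δ x u * h u ⟪x, u⟫ t ∂(sg 2)) ^ P
      ≤ ∫⁻ x in Sh R, ∫⁻ t : E m, (K * ENNReal.ofReal (δ ^ (1 - ε))) ^ (P - 1) *
        ∫⁻ u, wt ε δ x u * h u ⟪x, u⟫ t ^ P ∂(sg 2) := by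
        refine setLIntegral_mono' (Sh_meas R) fun x hx => ?_
        refine lintegral_mono fun t => hJ x ?_ t
        rintro rfl
        have := hx.1
        rw [norm_zero] at this
        linarith
    _ = (K * ENNReal.ofReal (δ ^ (1 - ε))) ^ (P - 1) * ∫⁻ x in Sh R, ∫⁻ t : E m,
        ∫⁻ u, wt ε δ x u * h u ⟪x, u⟫ t ^ P ∂(sg 2) := by
        have hc : (K * ENNReal.ofReal (δ ^ (1 - ε))) ^ (P - 1) ≠ ⊤ :=
          ENNReal.rpow_ne_top_of_nonneg hP1.le
            (ENNReal.mul_ne_top ENNReal.coe_ne_top ENNReal.ofReal_ne_top)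
        rw [← lintegral_const_mul' _ _ hc]
        refine lintegral_congr fun x => ?_
        rw [lintegral_const_mul' _ _ hc]
    _ = (K * ENNReal.ofReal (δ ^ (1 - ε))) ^ (P - 1) * ∫⁻ u, ∫⁻ x in Sh R, ∫⁻ t : E m,
        wt ε δ x u * h u ⟪x, u⟫ t ^ P ∂volume ∂volume ∂(sg 2) := by
        congr 1
        have e1 : ∫⁻ x in Sh R, ∫⁻ t : E m, ∫⁻ u, wt ε δ x u * h u ⟪x, u⟫ t ^ P ∂(sg 2) =
            ∫⁻ x in Sh R, ∫⁻ u, ∫⁻ t : E m, wt ε δ x u * h u ⟪x, u⟫ t ^ P ∂volume ∂(sg 2) := by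
          refine lintegral_congr fun x => ?_
          have k : Measurable fun p : E m × E 2 => (((x, p.1), p.2) : (E 2 × E m) × E 2) :=
            (measurable_const.prodMk measurable_fst).prodMk measurable_snd
          have k1 := hF.comp k
          have k2 : Measurable (Function.uncurry fun (t : E m) (u : E 2) =>
            wt ε δ x u * h u ⟪x, u⟫ t ^ P) := k1
          exact lintegral_lintegral_swap k2.aemeasurable
        rw [e1]
        have k : Measurable fun p : (E 2 × E 2) × E m =>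
            (((p.1.1, p.2), p.1.2) : (E 2 × E m) × E 2) :=
          ((measurable_fst.comp measurable_fst).prodMk measurable_snd).prodMk
            (measurable_snd.comp measurable_fst)
        have h2 := hF.comp k
        have h3 : Measurable fun p : (E 2 × E 2) × E m => wt ε δ p.1.1 p.1.2 *
            h p.1.2 ⟪p.1.1, p.1.2⟫ p.2 ^ P := h2
        have h4 : Measurable (Function.uncurry fun (x : E 2) (u : E 2) =>
          ∫⁻ t, wt ε δ x u * h u ⟪x, u⟫ t ^ P) := h3.lintegral_prod_right'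
        exact lintegral_lintegral_swap h4.aemeasurable
    _ ≤ (K * ENNReal.ofReal (δ ^ (1 - ε))) ^ (P - 1) *
        ∫⁻ _u, ENNReal.ofReal (6 / ε * (R * δ ^ (1 - ε))) * A ∂(sg 2) := by
        refine mul_le_mul' le_rfl (lintegral_mono_ae ?_)
        filter_upwards [sg_ae 2] with u hu
        exact hU u hu
    _ = _ := by
        rw [lintegral_const, ENNReal.mul_rpow_of_nonneg _ _ hP1.le,
          ENNReal.ofReal_rpow_of_nonneg (by positivity) hP1.le, ENNReal.ofReal_mul (by positivity)]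
        have e2 : ENNReal.ofReal ((δ ^ (1 - ε)) ^ (P - 1)) * ENNReal.ofReal (R * δ ^ (1 - ε)) =
            ENNReal.ofReal (R * δ ^ ((1 - ε) * P)) := by
          rw [← ENNReal.ofReal_mul (by positivity)]
          congr 1
          rw [← Real.rpow_mul hδ.le]
          have : δ ^ ((1 - ε) * P) = δ ^ ((1 - ε) * (P - 1)) * δ ^ (1 - ε) := by
            rw [← Real.rpow_add hδ]
            congr 1
            ring
          rw [this]
          ring
        rw [← e2]
        ring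

end Pool.Agent.Run7.h58.LR
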