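import Mathlib
import Pool.Agent.Run7.h58.LR.Rot
set_option autoImplicit false

/-! Integration by parts in the angle. -/

namespace Pool.Agent.Run7.h58.LR

open MeasureTheory Set Complex
open scoped ENNReal NNReal RealInnerProductSpace
open Pool.Agent.H789R2.FR (E sg T sg_finite sg_ae sg_inv)
open Pool.Agent.Run7.h58.MV (ee norm_ee ee_cont)

/-- the cut-off -/
noncomputable def ch (δ θ : ℝ) : ℝ := 6 * θ * (δ - θ) / δ ^ 3

/-- the phase and its derivative -/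
noncomputable def pf (a b θ : ℝ) : ℝ := Real.cos θ * a + Real.sin θ * b
noncomputable def pd (a b θ : ℝ) : ℝ := Real.cos θ * b - Real.sin θ * a

/-- the new amplitude -/
noncomputable def ps (δ a b θ : ℝ) : ℝ :=
  6 * (δ - 2 * θ) / δ ^ 3 / pd a b θ + ch δ θ * pf a b θ / pd a b θ ^ 2

theorem pf_deriv (a b θ : ℝ) : HasDerivAt (pf a b) (pd a b θ) θ := by
  have h := ((Real.hasDerivAt_cos θ).mul_const a).add ((Real.hasDerivAt_sin θ).mul_const b)
  refine h.congr_deriv ?_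
  unfold pd
  ring

theorem pd_deriv (a b θ : ℝ) : HasDerivAt (pd a b) (-pf a b θ) θ := by
  have h := ((Real.hasDerivAt_cos θ).mul_const b).sub ((Real.hasDerivAt_sin θ).mul_const a)
  refine h.congr_deriv ?_
  unfold pf
  ring

theorem ch_deriv (δ θ : ℝ) : HasDerivAt (ch δ) (6 * (δ - 2 * θ) / δ ^ 3) θ := by
  unfold ch
  have h : HasDerivAt (fun θ : ℝ => 6 * θ * (δ - θ) / δ ^ 3)
      ((6 * 1 * (δ - θ) + 6 * θ * (0 - 1)) / δ ^ 3) θ :=
    ((((hasDerivAt_id θ).const_mul 6).mul ((hasDerivAt_const θ δ).sub (hasDerivAt_id θ))).div_const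
      (δ ^ 3))
  refine h.congr_deriv ?_
  ring

theorem ch_zero (δ : ℝ) : ch δ 0 = 0 := by simp [ch]
theorem ch_end (δ : ℝ) : ch δ δ = 0 := by simp [ch]

theorem ch_cont (δ : ℝ) : Continuous (ch δ) := by
  unfold ch
  fun_prop

theorem pf_cont (a b : ℝ) : Continuous (pf a b) := by
  unfold pf
  fun_prop

theorem pd_cont (a b : ℝ) : Continuous (pd a b) := by
  unfold pd
  fun_prop

theorem ch_nonneg (δ θ : ℝ) (hδ : 0 < δ) (h0 : 0 ≤ θ) (h1 : θ ≤ δ) : 0 ≤ ch δ θ := by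
  unfold ch
  have : 0 ≤ δ - θ := by linarith
  positivity

theorem ch_le (δ θ : ℝ) (hδ : 0 < δ) : ch δ θ ≤ 3 / (2 * δ) := by
  unfold ch
  rw [div_le_div_iff₀ (by positivity) (by positivity)]
  nlinarith [mul_nonneg hδ.le (sq_nonneg (δ - 2 * θ))]

theorem ee_deriv (f : ℝ → ℝ) (f' θ : ℝ) (h : HasDerivAt f f' θ) :
    HasDerivAt (fun s => ee (f s)) (-(I * f') * ee (f θ)) θ := by
  unfold ee
  have h1 : HasDerivAt (fun s : ℝ => (f s : ℂ)) (f' : ℂ) θ := h.ofReal_comp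
  have h2 := (h1.neg.mul_const I).cexp
  refine h2.congr_deriv ?_
  simp only [Pi.neg_apply]
  ring

theorem ibp (δ a b h : ℝ) (hδ : 0 < δ) (hp : ∀ θ ∈ Icc 0 δ, pd a b θ ≠ 0) :
    (h : ℂ) * ∫ θ in Ioc 0 δ, (ch δ θ : ℂ) * ee (h * pf a b θ) =
      -I * ∫ θ in Ioc 0 δ, (ps δ a b θ : ℂ) * ee (h * pf a b θ) := by
  have hu : uIcc 0 δ = Icc 0 δ := uIcc_of_le hδ.le
  have hd : ∀ θ ∈ uIcc 0 δ, HasDerivAt
      (fun s => (((ch δ s / pd a b s : ℝ)) : ℂ) * ee (h * pf a b s))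
      ((ps δ a b θ : ℂ) * ee (h * pf a b θ) - I * h * ((ch δ θ : ℂ) * ee (h * pf a b θ))) θ := by
    intro θ hθ
    rw [hu] at hθ
    have hne := hp θ hθ
    have h1 := ((ch_deriv δ θ).div (pd_deriv a b θ) hne).ofReal_comp
    have h2 := ee_deriv (fun s => h * pf a b s) (h * pd a b θ) θ ((pf_deriv a b θ).const_mul h)
    refine (h1.mul h2).congr_deriv ?_
    have hne' : (pd a b θ : ℂ) ≠ 0 := by exact_mod_cast hne
    unfold ps
    push_cast
    simp only [Pi.div_apply]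
    push_cast
    field_simp
    ring
  have c1 : ContinuousOn (fun θ => (ps δ a b θ : ℂ) * ee (h * pf a b θ)) (Icc 0 δ) := by
    have hc : ContinuousOn (ps δ a b) (Icc 0 δ) := by
      unfold ps
      refine ContinuousOn.add (ContinuousOn.div (by fun_prop) (pd_cont a b).continuousOn hp)
        (ContinuousOn.div ?_ ((pd_cont a b).pow 2).continuousOn
          (fun θ hθ => pow_ne_zero _ (hp θ hθ)))
      exact ((ch_cont δ).mul (pf_cont a b)).continuousOn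
    refine ContinuousOn.mul ?_ ?_
    · exact Complex.continuous_ofReal.comp_continuousOn hc
    · exact (ee_cont.comp ((pf_cont a b).const_mul h)).continuousOn
  have c2 : Continuous fun θ => (ch δ θ : ℂ) * ee (h * pf a b θ) :=
    (Complex.continuous_ofReal.comp (ch_cont δ)).mul (ee_cont.comp ((pf_cont a b).const_mul h))
  have i1 : IntervalIntegrable (fun θ => (ps δ a b θ : ℂ) * ee (h * pf a b θ)) volume 0 δ :=
    ContinuousOn.intervalIntegrable (by rw [hu]; exact c1)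
  have i2 : IntervalIntegrable (fun θ => (ch δ θ : ℂ) * ee (h * pf a b θ)) volume 0 δ :=
    c2.intervalIntegrable _ _
  have key := intervalIntegral.integral_eq_sub_of_hasDerivAt hd (i1.sub (i2.const_mul (I * h)))
  rw [intervalIntegral.integral_sub i1 (i2.const_mul (I * h)),
    intervalIntegral.integral_const_mul] at key
  simp only [ch_zero, ch_end, zero_div, ofReal_zero, zero_mul, sub_zero] at key
  rw [intervalIntegral.integral_of_le hδ.le, intervalIntegral.integral_of_le hδ.le] at key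
  have key2 := sub_eq_zero.1 key
  rw [key2]
  have hI : I * I = -1 := I_mul_I
  linear_combination ((h : ℂ) * ∫ θ in Ioc 0 δ, (ch δ θ : ℂ) * ee (h * pf a b θ)) * hI

/-! ### bounds -/

theorem pd_near (a b ρ θ : ℝ) (hρ : 0 ≤ ρ) (hab : a ^ 2 + b ^ 2 = ρ ^ 2) (h0 : 0 ≤ θ) :
    |pd a b θ - b| ≤ ρ * θ := by
  apply abs_le_of_sq_le_sq _ (by positivity)
  have h1 := Real.one_sub_sq_div_two_le_cos (x := θ)
  have h2 := Real.cos_sq_add_sin_sq θ
  have h3 : (pd a b θ - b) ^ 2 ≤ (a ^ 2 + b ^ 2) * ((Real.cos θ - 1) ^ 2 + Real.sin θ ^ 2) := by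
    unfold pd
    nlinarith [sq_nonneg (b * Real.sin θ + a * (Real.cos θ - 1))]
  have h4 : (Real.cos θ - 1) ^ 2 + Real.sin θ ^ 2 ≤ θ ^ 2 := by nlinarith
  rw [hab] at h3
  calc (pd a b θ - b) ^ 2 ≤ ρ ^ 2 * ((Real.cos θ - 1) ^ 2 + Real.sin θ ^ 2) := h3
    _ ≤ ρ ^ 2 * θ ^ 2 := by gcongr
    _ = (ρ * θ) ^ 2 := by ring

theorem pf_abs (a b ρ θ : ℝ) (hρ : 0 ≤ ρ) (hab : a ^ 2 + b ^ 2 = ρ ^ 2) : |pf a b θ| ≤ ρ := by
  apply abs_le_of_sq_le_sq _ hρ
  have h2 := Real.cos_sq_add_sin_sq θ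
  unfold pf
  nlinarith [sq_nonneg (Real.cos θ * b - Real.sin θ * a)]

theorem pow_ge {r s : ℝ} (hr : 0 < r) (hr1 : r ≤ 1) (hs1 : s ≤ 1) : r ≤ r ^ s := by
  calc r = r ^ (1 : ℝ) := (Real.rpow_one r).symm
    _ ≤ r ^ s := Real.rpow_le_rpow_of_exponent_ge hr hr1 hs1

theorem ps_bound (ε δ a b ρ θ : ℝ) (hε : 0 < ε) (hε1 : ε < 1) (hδ : 0 < δ) (hρ : 0 < ρ)
    (hab : a ^ 2 + b ^ 2 = ρ ^ 2) (hρδ : 1 ≤ ρ * δ ^ 2) (hb : 3 * (δ * ρ) ≤ |b|) (h0 : 0 ≤ θ)
    (h1 : θ ≤ δ) : pd a b θ ≠ 0 ∧ ‖(ps δ a b θ : ℂ)‖ₑ ≤ ENNReal.ofReal (7 / δ) *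
      (ENNReal.ofReal (δ * ρ) * (ENNReal.ofReal |pd a b θ|)⁻¹) ^ (1 - ε) := by
  have hn := pd_near a b ρ θ hρ.le hab h0
  have hq : 2 * (δ * ρ) ≤ |pd a b θ| := by
    have h2 : |b| ≤ |pd a b θ| + |pd a b θ - b| := by
      calc |b| = |pd a b θ - (pd a b θ - b)| := by congr 1; ring
        _ ≤ _ := abs_sub _ _
    have h3 : ρ * θ ≤ δ * ρ := by nlinarith
    linarith
  have hδρ : 0 < δ * ρ := by positivity
  have hpos : 0 < |pd a b θ| := by linarith
  have hne : pd a b θ ≠ 0 := abs_pos.1 hpos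
  refine ⟨hne, ?_⟩
  set D : ℝ := |pd a b θ| with hD
  have hratio : δ * ρ / D ≤ 1 := by
    rw [div_le_one hpos]
    linarith
  have hratio0 : 0 < δ * ρ / D := by positivity
  have hps : |ps δ a b θ| ≤ 7 / δ * (δ * ρ / D) := by
    have e1 : |6 * (δ - 2 * θ) / δ ^ 3 / pd a b θ| ≤ 6 / δ ^ 2 / D := by
      rw [abs_div, ← hD]
      gcongr
      rw [abs_div, abs_mul, abs_of_pos (by norm_num : (0 : ℝ) < 6), abs_of_pos (by positivity : 0 < δ ^ 3),
        div_le_div_iff₀ (by positivity) (by positivity)]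
      have h4 : |δ - 2 * θ| ≤ δ := by
        rw [abs_le]
        constructor <;> linarith
      calc 6 * |δ - 2 * θ| * δ ^ 2 ≤ 6 * δ * δ ^ 2 := by gcongr
        _ = 6 * δ ^ 3 := by ring
    have e2 : |ch δ θ * pf a b θ / pd a b θ ^ 2| ≤ 1 / δ ^ 2 / D := by
      rw [abs_div, abs_mul, abs_pow, ← hD, abs_of_nonneg (ch_nonneg δ θ hδ h0 h1)]
      have h5 := pf_abs a b ρ θ hρ.le hab
      have h6 := ch_le δ θ hδ
      calc ch δ θ * |pf a b θ| / D ^ 2 ≤ 3 / (2 * δ) * ρ / D ^ 2 := by gcongr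
        _ ≤ 1 / δ ^ 2 / D := by
            rw [div_div, div_mul_eq_mul_div, div_div,
              div_le_div_iff₀ (by positivity) (by positivity)]
            have : 3 * ρ * (δ ^ 2 * D) ≤ 4 * δ * D * (δ * ρ) := by
              nlinarith [mul_pos (mul_pos hρ (pow_pos hδ 2)) hpos]
            calc 3 * ρ * (δ ^ 2 * D) ≤ 4 * δ * D * (δ * ρ) := this
              _ = 2 * δ * D * (2 * (δ * ρ)) := by ring
              _ ≤ 2 * δ * D * D := by gcongr
              _ = 1 * (2 * δ * D ^ 2) := by ring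
    have e3 : 1 / δ ^ 2 / D ≤ 1 / δ * (δ * ρ / D) := by
      rw [show 1 / δ * (δ * ρ / D) = ρ / D by field_simp]
      gcongr
      rw [div_le_iff₀ (by positivity)]
      linarith
    calc |ps δ a b θ| ≤ |6 * (δ - 2 * θ) / δ ^ 3 / pd a b θ| +
          |ch δ θ * pf a b θ / pd a b θ ^ 2| := abs_add_le _ _
      _ ≤ 6 / δ ^ 2 / D + 1 / δ ^ 2 / D := add_le_add e1 e2
      _ = 7 * (1 / δ ^ 2 / D) := by ring
      _ ≤ 7 * (1 / δ * (δ * ρ / D)) := by gcongr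
      _ = _ := by ring
  rw [← ofReal_norm, Complex.norm_real, Real.norm_eq_abs, ← ENNReal.ofReal_inv_of_pos hpos,
    ← ENNReal.ofReal_mul hδρ.le, ENNReal.ofReal_rpow_of_nonneg (by positivity) (by linarith),
    ← ENNReal.ofReal_mul (by positivity)]
  apply ENNReal.ofReal_le_ofReal
  refine hps.trans ?_
  rw [← div_eq_mul_inv]
  gcongr
  exact pow_ge hratio0 hratio (by linarith)

theorem ch_bound (ε δ a b ρ θ : ℝ) (hε : 0 < ε) (hε1 : ε < 1) (hδ : 0 < δ) (hρ : 0 < ρ)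
    (hab : a ^ 2 + b ^ 2 = ρ ^ 2) (hb : |b| ≤ 3 * (δ * ρ)) (h0 : 0 ≤ θ)
    (h1 : θ ≤ δ) : ‖(ch δ θ : ℂ)‖ₑ ≤ ENNReal.ofReal (7 / δ) *
      (ENNReal.ofReal (δ * ρ) * (ENNReal.ofReal |pd a b θ|)⁻¹) ^ (1 - ε) := by
  have hn := pd_near a b ρ θ hρ.le hab h0
  have hδρ : 0 < δ * ρ := by positivity
  have hq : |pd a b θ| ≤ 4 * (δ * ρ) := by
    have h2 : |pd a b θ| ≤ |b| + |pd a b θ - b| := by
      calc |pd a b θ| = |b + (pd a b θ - b)| := by congr 1; ring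
        _ ≤ _ := abs_add_le _ _
    have h3 : ρ * θ ≤ δ * ρ := by nlinarith
    linarith
  have h4 : ENNReal.ofReal (1 / 4) ≤ ENNReal.ofReal (δ * ρ) * (ENNReal.ofReal |pd a b θ|)⁻¹ := by
    calc ENNReal.ofReal (1 / 4) = ENNReal.ofReal (δ * ρ) * (ENNReal.ofReal (4 * (δ * ρ)))⁻¹ := by
          rw [← ENNReal.ofReal_inv_of_pos (by positivity), ← ENNReal.ofReal_mul (by positivity)]
          congr 1
          field_simp
      _ ≤ _ := by gcongr
  have h5 : ENNReal.ofReal (1 / 4) ≤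
      (ENNReal.ofReal (δ * ρ) * (ENNReal.ofReal |pd a b θ|)⁻¹) ^ (1 - ε) := by
    calc ENNReal.ofReal (1 / 4) ≤ ENNReal.ofReal (1 / 4) ^ (1 - ε) := by
          rw [ENNReal.ofReal_rpow_of_nonneg (by norm_num) (by linarith)]
          apply ENNReal.ofReal_le_ofReal
          exact pow_ge (by norm_num) (by norm_num) (by linarith)
      _ ≤ _ := by gcongr
  calc ‖(ch δ θ : ℂ)‖ₑ = ENNReal.ofReal (ch δ θ) := by
        rw [← ofReal_norm, Complex.norm_real, Real.norm_of_nonneg (ch_nonneg δ θ hδ h0 h1)]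
    _ ≤ ENNReal.ofReal (7 / δ * (1 / 4)) := by
        apply ENNReal.ofReal_le_ofReal
        refine (ch_le δ θ hδ).trans ?_
        rw [div_mul_div_comm, div_le_div_iff₀ (by positivity) (by positivity)]
        nlinarith
    _ = ENNReal.ofReal (7 / δ) * ENNReal.ofReal (1 / 4) := ENNReal.ofReal_mul (by positivity)
    _ ≤ _ := by gcongr

end Pool.Agent.Run7.h58.LR
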