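import Mathlib
import Pool.Agent.Run7.h58.LR.IBP
set_option autoImplicit false

/-! The averaged extension: pointwise bound. -/

namespace Pool.Agent.Run7.h58.LR

open MeasureTheory Set Complex
open scoped ENNReal NNReal RealInnerProductSpace
open Pool.Agent.H789R2.FR (E sg T sg_finite sg_ae sg_inv)
open Pool.Agent.H438R2.BR (Q J J_mp J_inner)
open Pool.Agent.H438R2.BR.T10 (e0 e0_norm)
open Pool.Agent.Run7.h58.MV (ee norm_ee ee_cont ee_add)

variable {m : ℕ}

theorem Tpar_meas {α : Type*} [MeasurableSpace α] {n : ℕ} (k : α → E n → ℂ)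
    (hk : Measurable (Function.uncurry k)) : Measurable fun p : α × E n => T (k p.1) p.2 := by
  have := sg_finite n
  have h : StronglyMeasurable fun p : α × E n => ∫ z, ph p.2 z * k p.1 z ∂(sg n) := by
    apply StronglyMeasurable.integral_prod_right (f := fun (p : α × E n) (z : E n) =>
      ph p.2 z * k p.1 z)
    apply Measurable.stronglyMeasurable
    have k1 : Measurable fun q : (α × E n) × E n => (q.1.2, q.2) :=
      (measurable_snd.comp measurable_fst).prodMk measurable_snd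
    have k2 : Measurable fun q : (α × E n) × E n => (q.1.1, q.2) :=
      (measurable_fst.comp measurable_fst).prodMk measurable_snd
    have h1 := (ph_meas (n := n)).comp k1
    have h2 := hk.comp k2
    have h3 := h1.mul h2
    exact h3
  exact h.measurable

/-- the density after integration by parts -/
noncomputable def kq (G : E (2 + m) → ℂ) (u : E 2) (η : E (1 + m)) : ℂ :=
  ((if 0 < hh η then (1 : ℝ) else 0 : ℝ) : ℂ) * G (J (hh η • u) (yy η))

theorem kq_meas (G : E (2 + m) → ℂ) (hG : Measurable G) :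
    Measurable (Function.uncurry (kq G)) := by
  have k : Measurable fun p : E 2 × E (1 + m) => (p.2, p.1) :=
    measurable_snd.prodMk measurable_fst
  have h1 := hG.comp (Psi_meas.comp k)
  have h2 : Measurable fun p : E 2 × E (1 + m) => (if 0 < hh p.2 then (1 : ℝ) else 0) :=
    Measurable.ite (measurableSet_lt measurable_const (hh_meas.comp measurable_snd))
      measurable_const measurable_const
  have h3 := (Complex.measurable_ofReal.comp h2).mul h1
  exact h3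

theorem kk_meas' (G : E (2 + m) → ℂ) (hG : Measurable G) :
    Measurable (Function.uncurry (kk G)) := kk_meas G hG

theorem kq_le (G : E (2 + m) → ℂ) (hb : ∀ z, ‖G z‖ ≤ 1) (u : E 2) (η : E (1 + m)) :
    ‖kq G u η‖ ≤ 1 := by
  unfold kq
  rw [norm_mul, Complex.norm_real]
  split_ifs
  · rw [norm_one, one_mul]; exact hb _
  · rw [norm_zero, zero_mul]; exact zero_le_one

/-- `kk` is bounded by one on the unit ball -/
theorem kk_le (G : E (2 + m) → ℂ) (hb : ∀ z, ‖G z‖ ≤ 1) (u : E 2) (η : E (1 + m))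
    (hη : ‖η‖ ≤ 1) : ‖kk G u η‖ ≤ 1 := by
  unfold kk
  rw [norm_mul, Complex.norm_real]
  have h1 : |hh η| ≤ 1 := (hh_le η).trans hη
  have h2 : ‖max (hh η) 0‖ ≤ 1 := by
    rw [Real.norm_of_nonneg (le_max_right _ _)]
    exact max_le ((le_abs_self _).trans h1) zero_le_one
  calc ‖max (hh η) 0‖ * ‖G (J (hh η • u) (yy η))‖ ≤ 1 * 1 := by
        gcongr
        exact hb _
    _ = 1 := one_mul _

/-- the two extensions from the sphere of `ℝ^(1+m)` -/
noncomputable def hG (G : E (2 + m) → ℂ) (u : E 2) (s : ℝ) (t : E m) : ℝ≥0∞ :=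
  ‖T (kk G u) (J (s • e0) t)‖ₑ + ‖T (kq G u) (J (s • e0) t)‖ₑ

theorem Jse_meas : Measurable fun p : ℝ × E m => J (p.1 • e0) p.2 := by
  have k : Measurable fun p : ℝ × E m => (p.1 • e0, p.2) :=
    (measurable_fst.smul_const e0).prodMk measurable_snd
  have h := (J_meas (k := 1) (d := m)).comp k
  exact h

theorem hG_meas (G : E (2 + m) → ℂ) (hGm : Measurable G) :
    Measurable fun p : E 2 × ℝ × E m => hG G p.1 p.2.1 p.2.2 := by
  have k : Measurable fun p : E 2 × ℝ × E m => (p.1, J (p.2.1 • e0) p.2.2) :=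
    measurable_fst.prodMk (Jse_meas.comp measurable_snd)
  have h1 := ((Tpar_meas (kk G) (kk_meas' G hGm)).comp k).enorm
  have h2 := ((Tpar_meas (kq G) (kq_meas G hGm)).comp k).enorm
  have h3 := h1.add h2
  exact h3

theorem T_one (k : E (1 + m) → ℂ) (s : ℝ) (t : E m) :
    T k (J (s • e0) t) = ∫ η, ee (⟪t, yy η⟫ : ℝ) * k η * ee (hh η * s) ∂(sg (1 + m)) := by
  have e1 : T k (J (s • e0) t) = ∫ η, ph (J (s • e0) t) η * k η ∂(sg (1 + m)) := rfl
  rw [e1]
  refine integral_congr_ae (Filter.Eventually.of_forall fun η => ?_)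
  have h1 : (⟪J (s • e0) t, η⟫ : ℝ) = hh η * s + ⟪t, yy η⟫ := by
    have : (⟪J (s • e0) t, η⟫ : ℝ) = ⟪J (s • e0) t, J (hh η • e0) (yy η)⟫ := by rw [J_hh]
    rw [this, J_inner, real_inner_smul_left, real_inner_smul_right, real_inner_self_eq_norm_sq,
      e0_norm]
    ring
  have h2 : ph (J (s • e0) t) η = ee (hh η * s) * ee (⟪t, yy η⟫ : ℝ) := by
    rw [← ee_add, ← h1]
    rfl
  simp only [h2]
  ring

theorem swapT (δ : ℝ) (w : ℝ → ℂ) (hwi : IntegrableOn w (Ioc 0 δ))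
    (k : E (1 + m) → ℂ) (hk : Measurable k) (M : ℝ) (hM : ∀ᵐ η ∂(sg (1 + m)), ‖k η‖ ≤ M)
    (f : ℝ → ℝ) (hf : Measurable f) (t : E m) :
    ∫ θ in Ioc 0 δ, w θ * T k (J (f θ • e0) t) =
      ∫ η, ee (⟪t, yy η⟫ : ℝ) * k η * ∫ θ in Ioc 0 δ, w θ * ee (hh η * f θ) ∂volume
        ∂(sg (1 + m)) := by
  have hfin := sg_finite (1 + m)
  set μ : Measure ℝ := volume.restrict (Ioc 0 δ) with hμ
  have h1 : ∀ θ, w θ * T k (J (f θ • e0) t) =
      ∫ η, w θ * (ee (⟪t, yy η⟫ : ℝ) * k η * ee (hh η * f θ)) ∂(sg (1 + m)) := by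
    intro θ
    rw [T_one, integral_const_mul]
  have h2 : ∀ η : E (1 + m), ee (⟪t, yy η⟫ : ℝ) * k η * ∫ θ, w θ * ee (hh η * f θ) ∂μ =
      ∫ θ, w θ * (ee (⟪t, yy η⟫ : ℝ) * k η * ee (hh η * f θ)) ∂μ := by
    intro η
    rw [← integral_const_mul]
    refine integral_congr_ae (Filter.Eventually.of_forall fun θ => ?_)
    simp only
    ring
  simp only [h1, h2]
  refine integral_integral_swap (f := fun (θ : ℝ) (η : E (1 + m)) =>
    w θ * (ee (⟪t, yy η⟫ : ℝ) * k η * ee (hh η * f θ))) ?_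
  have i1 : Integrable (fun p : ℝ × E (1 + m) => w p.1) (μ.prod (sg (1 + m))) :=
    Integrable.comp_fst hwi _
  have ty : Measurable fun η : E (1 + m) => (⟪t, yy η⟫ : ℝ) := by
    have k1 : Measurable fun η : E (1 + m) => (t, yy η) := measurable_const.prodMk yy_meas
    have h := ((continuous_inner (𝕜 := ℝ) (E := E m)).measurable).comp k1
    exact h
  have m2 : Measurable fun p : ℝ × E (1 + m) => ee (hh p.2 * f p.1) :=
    ee_cont.measurable.comp ((hh_meas.comp measurable_snd).mul (hf.comp measurable_fst))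
  have m3 : Measurable fun p : ℝ × E (1 + m) => ee (⟪t, yy p.2⟫ : ℝ) * k p.2 * ee (hh p.2 * f p.1) :=
    (((ee_cont.measurable.comp ty).comp measurable_snd).mul (hk.comp measurable_snd)).mul m2
  have h4 := Integrable.mul_bdd (c := M) i1 m3.aestronglyMeasurable (by
    have h5 : ∀ᵐ p ∂(μ.prod (sg (1 + m))), ‖k p.2‖ ≤ M :=
      (Measure.quasiMeasurePreserving_snd (μ := μ) (ν := sg (1 + m))).ae hM
    filter_upwards [h5] with p hp
    rw [norm_mul, norm_mul, norm_ee, norm_ee, one_mul, mul_one]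
    exact hp)
  exact h4

theorem by_parts (G : E (2 + m) → ℂ) (hG : Measurable G) (hb : ∀ z, ‖G z‖ ≤ 1) (u : E 2)
    (t : E m) (δ a b : ℝ) (hδ : 0 < δ) (hp : ∀ θ ∈ Icc 0 δ, pd a b θ ≠ 0) :
    ∫ θ in Ioc 0 δ, (ch δ θ : ℂ) * T (kk G u) (J (pf a b θ • e0) t) =
      -I * ∫ θ in Ioc 0 δ, (ps δ a b θ : ℂ) * T (kq G u) (J (pf a b θ • e0) t) := by
  have i1 : IntegrableOn (fun θ => (ch δ θ : ℂ)) (Ioc 0 δ) :=
    ((Complex.continuous_ofReal.comp (ch_cont δ)).integrableOn_Icc).mono_set Ioc_subset_Icc_self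
  have hc : ContinuousOn (ps δ a b) (Icc 0 δ) := by
    unfold ps
    refine ContinuousOn.add (ContinuousOn.div (by fun_prop) (pd_cont a b).continuousOn hp)
      (ContinuousOn.div ?_ ((pd_cont a b).pow 2).continuousOn
        (fun θ hθ => pow_ne_zero _ (hp θ hθ)))
    exact ((ch_cont δ).mul (pf_cont a b)).continuousOn
  have i2 : IntegrableOn (fun θ => (ps δ a b θ : ℂ)) (Ioc 0 δ) :=
    (ContinuousOn.integrableOn_Icc (Complex.continuous_ofReal.comp_continuousOn hc)).mono_set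
      Ioc_subset_Icc_self
  have ku : Measurable fun η : E (1 + m) => (u, η) := measurable_const.prodMk measurable_id
  have m1 : Measurable (kk G u) := by
    have h := (kk_meas' G hG).comp ku
    exact h
  have m2 : Measurable (kq G u) := by
    have h := (kq_meas G hG).comp ku
    exact h
  have hη1 : ∀ᵐ η ∂(sg (1 + m)), ‖kk G u η‖ ≤ 1 := by
    filter_upwards [sg_ae (1 + m)] with η hη
    exact kk_le G hb u η hη.le
  rw [swapT δ _ i1 (kk G u) m1 1 hη1 (pf a b) (pf_cont a b).measurable t,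
    swapT δ _ i2 (kq G u) m2 1 (Filter.Eventually.of_forall fun η => kq_le G hb u η) (pf a b)
      (pf_cont a b).measurable t, ← integral_const_mul]
  refine integral_congr_ae (Filter.Eventually.of_forall fun η => ?_)
  simp only
  by_cases hη : 0 < hh η
  · have h1 := ibp δ a b (hh η) hδ hp
    unfold kk kq
    rw [max_eq_left hη.le, if_pos hη]
    push_cast
    linear_combination (ee (⟪t, yy η⟫ : ℝ) * G (J (hh η • u) (yy η))) * h1
  · unfold kk kq
    rw [max_eq_right (not_lt.1 hη), if_neg hη]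
    push_cast
    ring

/-- the average of the extension over rotations -/
noncomputable def AA (δ : ℝ) (G : E (2 + m) → ℂ) (x : E 2) (t : E m) : ℂ :=
  ∫ θ in Ioc 0 δ, (ch δ θ : ℂ) * T G (J (rot θ x) t)

theorem per_u (ε δ : ℝ) (hε : 0 < ε) (hε1 : ε < 1) (hδ : 0 < δ) (G : E (2 + m) → ℂ)
    (hGm : Measurable G) (hb : ∀ z, ‖G z‖ ≤ 1) (x : E 2) (hx : 1 ≤ ‖x‖ * δ ^ 2) (t : E m)
    (u : E 2) (hu : ‖u‖ = 1) :
    ‖∫ θ in Ioc 0 δ, (ch δ θ : ℂ) * T (kk G u) (J ((⟪rot θ x, u⟫ : ℝ) • e0) t)‖ₑ ≤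
      ENNReal.ofReal (7 / δ) *
        ∫⁻ θ in Ioc 0 δ, wt ε δ (rot θ x) u * hG G u ⟪rot θ x, u⟫ t := by
  set a : ℝ := ⟪x, u⟫ with ha
  set b : ℝ := ⟪pp x, u⟫ with hb'
  have hab : a ^ 2 + b ^ 2 = ‖x‖ ^ 2 := inner_sq x u hu
  have hρ : 0 < ‖x‖ := by
    by_contra hc
    have : ‖x‖ = 0 := le_antisymm (not_lt.1 hc) (norm_nonneg _)
    rw [this] at hx
    linarith
  have e1 : ∀ θ, (⟪rot θ x, u⟫ : ℝ) = pf a b θ := fun θ => rot_inner θ x u
  have e2 : ∀ θ, (⟪pp (rot θ x), u⟫ : ℝ) = pd a b θ := fun θ => rot_inner' θ x u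
  have e3 : ∀ θ, wt ε δ (rot θ x) u =
      (ENNReal.ofReal (δ * ‖x‖) * (ENNReal.ofReal |pd a b θ|)⁻¹) ^ (1 - ε) := by
    intro θ
    unfold wt
    rw [e2, (rot θ).norm_map]
  simp only [e1, e3]
  by_cases hcase : 3 * (δ * ‖x‖) ≤ |b|
  · have hp : ∀ θ ∈ Icc 0 δ, pd a b θ ≠ 0 := fun θ hθ =>
      (ps_bound ε δ a b ‖x‖ θ hε hε1 hδ hρ hab hx hcase hθ.1 hθ.2).1
    rw [by_parts G hGm hb u t δ a b hδ hp, enorm_mul, enorm_neg]
    have hI : ‖(I : ℂ)‖ₑ = 1 := by rw [← ofReal_norm, norm_I, ENNReal.ofReal_one]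
    rw [hI, one_mul, ← lintegral_const_mul' _ _ ENNReal.ofReal_ne_top]
    refine (enorm_integral_le_lintegral_enorm _).trans ?_
    refine setLIntegral_mono' measurableSet_Ioc fun θ hθ => ?_
    rw [enorm_mul, ← mul_assoc]
    refine mul_le_mul' ?_ ?_
    · exact (ps_bound ε δ a b ‖x‖ θ hε hε1 hδ hρ hab hx hcase hθ.1.le hθ.2).2
    · unfold hG
      exact le_add_self
  · rw [← lintegral_const_mul' _ _ ENNReal.ofReal_ne_top]
    refine (enorm_integral_le_lintegral_enorm _).trans ?_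
    refine setLIntegral_mono' measurableSet_Ioc fun θ hθ => ?_
    rw [enorm_mul, ← mul_assoc]
    refine mul_le_mul' ?_ ?_
    · exact ch_bound ε δ a b ‖x‖ θ hε hε1 hδ hρ hab (not_le.1 hcase).le hθ.1.le hθ.2
    · unfold hG
      exact le_self_add

theorem point (hm : 1 ≤ m) (ε δ : ℝ) (hε : 0 < ε) (hε1 : ε < 1) (hδ : 0 < δ)
    (G : E (2 + m) → ℂ) (hGm : Measurable G) (hb : ∀ z, ‖G z‖ ≤ 1) (x : E 2)
    (hx : 1 ≤ ‖x‖ * δ ^ 2) (t : E m) :
    ‖AA δ G x t‖ₑ ≤ ENNReal.ofReal (7 / δ) * ∫⁻ θ in Ioc 0 δ,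
      ∫⁻ u, wt ε δ (rot θ x) u * hG G u ⟪rot θ x, u⟫ t ∂(sg 2) := by
  have hfin := sg_finite 2
  have hfin1 := sg_finite (1 + m)
  have kr : Measurable fun p : ℝ × E 2 => (rot p.1 x, p.2) := by
    have k1 : Measurable fun p : ℝ × E 2 => (p.1, x) := measurable_fst.prodMk measurable_const
    have k2 := rot_meas.comp k1
    have k3 : Measurable fun p : ℝ × E 2 => rot p.1 x := k2
    exact k3.prodMk measurable_snd
  have kin : Measurable fun p : ℝ × E 2 => (⟪rot p.1 x, p.2⟫ : ℝ) := by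
    have h := inner_meas.comp kr
    exact h
  have kT : Measurable fun p : ℝ × E 2 => T (kk G p.2) (J ((⟪rot p.1 x, p.2⟫ : ℝ) • e0) t) := by
    have k1 : Measurable fun p : ℝ × E 2 => (p.2, J ((⟪rot p.1 x, p.2⟫ : ℝ) • e0) t) :=
      measurable_snd.prodMk (Jse_meas.comp (kin.prodMk measurable_const))
    have h := (Tpar_meas (kk G) (kk_meas' G hGm)).comp k1
    exact h
  have kTb : ∀ᵐ p ∂((volume.restrict (Ioc 0 δ)).prod (sg 2)),
      ‖(ch δ p.1 : ℂ) * T (kk G p.2) (J ((⟪rot p.1 x, p.2⟫ : ℝ) • e0) t)‖ ≤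
        3 / (2 * δ) * (1 * (sg (1 + m)).real univ) := by
    have h1 : ∀ᵐ p ∂((volume.restrict (Ioc 0 δ)).prod (sg 2)), p.1 ∈ Ioc 0 δ :=
      (Measure.quasiMeasurePreserving_fst (μ := volume.restrict (Ioc 0 δ)) (ν := sg 2)).ae
        (ae_restrict_mem measurableSet_Ioc)
    filter_upwards [h1] with p hp
    rw [norm_mul, Complex.norm_real, Real.norm_of_nonneg (ch_nonneg δ p.1 hδ hp.1.le hp.2)]
    gcongr
    · exact ch_le δ p.1 hδ
    · unfold T
      refine norm_integral_le_of_norm_le_const ?_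
      filter_upwards [sg_ae (1 + m)] with η hη
      rw [norm_mul, Pool.Agent.H438R2.PD.exp_norm, one_mul]
      exact kk_le G hb p.2 η hη.le
  have hswap : AA δ G x t = ∫ u, ∫ θ in Ioc 0 δ, (ch δ θ : ℂ) *
      T (kk G u) (J ((⟪rot θ x, u⟫ : ℝ) • e0) t) ∂volume ∂(sg 2) := by
    unfold AA
    have h1 : ∀ θ, (ch δ θ : ℂ) * T G (J (rot θ x) t) =
        ∫ u, (ch δ θ : ℂ) * T (kk G u) (J ((⟪rot θ x, u⟫ : ℝ) • e0) t) ∂(sg 2) := by
      intro θ
      rw [T_split hm G hGm 1 hb, integral_const_mul]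
    simp only [h1]
    refine integral_integral_swap (f := fun (θ : ℝ) (u : E 2) =>
      (ch δ θ : ℂ) * T (kk G u) (J ((⟪rot θ x, u⟫ : ℝ) • e0) t)) ?_
    refine Integrable.of_bound ?_ _ kTb
    exact (((Complex.continuous_ofReal.comp (ch_cont δ)).measurable.comp measurable_fst).mul
      kT).aestronglyMeasurable
  have hW : Measurable fun p : ℝ × E 2 => wt ε δ (rot p.1 x) p.2 * hG G p.2 ⟪rot p.1 x, p.2⟫ t := by
    have h1 := (wt_meas ε δ).comp kr
    have k2 : Measurable fun p : ℝ × E 2 => (p.2, (⟪rot p.1 x, p.2⟫ : ℝ), t) :=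
      measurable_snd.prodMk (kin.prodMk measurable_const)
    have h2 := (hG_meas G hGm).comp k2
    have h3 := h1.mul h2
    exact h3
  rw [hswap]
  calc ‖∫ u, ∫ θ in Ioc 0 δ, (ch δ θ : ℂ) *
        T (kk G u) (J ((⟪rot θ x, u⟫ : ℝ) • e0) t) ∂volume ∂(sg 2)‖ₑ
      ≤ ∫⁻ u, ‖∫ θ in Ioc 0 δ, (ch δ θ : ℂ) *
        T (kk G u) (J ((⟪rot θ x, u⟫ : ℝ) • e0) t)‖ₑ ∂(sg 2) := enorm_integral_le_lintegral_enorm _
    _ ≤ ∫⁻ u, ENNReal.ofReal (7 / δ) *
        ∫⁻ θ in Ioc 0 δ, wt ε δ (rot θ x) u * hG G u ⟪rot θ x, u⟫ t ∂volume ∂(sg 2) := by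
        refine lintegral_mono_ae ?_
        filter_upwards [sg_ae 2] with u hu
        exact per_u ε δ hε hε1 hδ G hGm hb x hx t u hu
    _ = ENNReal.ofReal (7 / δ) * ∫⁻ u, ∫⁻ θ in Ioc 0 δ,
          wt ε δ (rot θ x) u * hG G u ⟪rot θ x, u⟫ t ∂volume ∂(sg 2) :=
        lintegral_const_mul' _ _ ENNReal.ofReal_ne_top
    _ = _ := by
        congr 1
        exact (lintegral_lintegral_swap (f := fun (θ : ℝ) (u : E 2) =>
          wt ε δ (rot θ x) u * hG G u ⟪rot θ x, u⟫ t) hW.aemeasurable).symm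

end Pool.Agent.Run7.h58.LR
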