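import Mathlib
import Pool.Agent.Run7.h58.LR.Pt
import Pool.Agent.Run7.h58.LR.Jen
import Pool.Agent.TH335.RF.P9
set_option autoImplicit false

/-! The averaged extension in `L^P` on a shell. -/

namespace Pool.Agent.Run7.h58.LR

open MeasureTheory Set Complex
open scoped ENNReal NNReal RealInnerProductSpace
open Pool.Agent.H789R2.FR (E sg T sg_finite sg_ae sg_inv)
open Pool.Agent.H438R2.BR (Q J J_mp J_inner)
open Pool.Agent.H438R2.BR.T10 (e0 e0_norm)
open Pool.Agent.H438R2.PD.A5 (jensenp)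
open Pool.Agent.H438R2.PD (T_meas')
open Pool.Agent.TH335.RF (RT line_mp)

variable {m : ℕ}

theorem two_rpow (a b : ℝ≥0∞) (q : ℝ) (hq : 0 ≤ q) : (a + b) ^ q ≤ 2 ^ q * (a ^ q + b ^ q) := by
  calc (a + b) ^ q ≤ (2 * max a b) ^ q := by
        refine ENNReal.rpow_le_rpow ?_ hq
        rw [two_mul]
        exact add_le_add (le_max_left _ _) (le_max_right _ _)
    _ = 2 ^ q * (max a b) ^ q := ENNReal.mul_rpow_of_nonneg _ _ hq
    _ ≤ _ := by
        refine mul_le_mul' le_rfl ?_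
        rcases le_total a b with h | h
        · rw [max_eq_right h]
          exact le_add_self
        · rw [max_eq_left h]
          exact le_self_add

theorem T_congr {n : ℕ} (g h : E n → ℂ) (hgh : ∀ᵐ x ∂(sg n), g x = h x) (ξ : E n) :
    T g ξ = T h ξ := by
  unfold T
  refine integral_congr_ae ?_
  filter_upwards [hgh] with x hx
  rw [hx]

theorem slice (k : E (1 + m) → ℂ) (hk : Measurable k) (P : ℝ) :
    ∫⁻ s : ℝ, ∫⁻ t : E m, ‖T k (J (s • e0) t)‖ₑ ^ P = ∫⁻ z, ‖T k z‖ₑ ^ P := by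
  have hTm : Measurable fun z : E (1 + m) => ‖T k z‖ₑ ^ P := (T_meas' _ hk).enorm.pow_const P
  have hc : Measurable fun p : E 1 × E m => ‖T k (J p.1 p.2)‖ₑ ^ P := by
    have h := hTm.comp (J_meas (k := 1) (d := m))
    exact h
  have h1 := (J_mp 1 m).lintegral_comp hTm
  have h2 : ∫⁻ p : E 1 × E m, ‖T k (J p.1 p.2)‖ₑ ^ P = ∫⁻ z, ‖T k z‖ₑ ^ P := h1
  rw [← h2]
  have h3 : ∫⁻ p : E 1 × E m, ‖T k (J p.1 p.2)‖ₑ ^ P =
      ∫⁻ x : E 1, ∫⁻ t : E m, ‖T k (J x t)‖ₑ ^ P :=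
    lintegral_prod _ hc.aemeasurable
  rw [h3]
  have hm2 : Measurable fun x : E 1 => ∫⁻ t : E m, ‖T k (J x t)‖ₑ ^ P := hc.lintegral_prod_right'
  rw [← line_mp.lintegral_comp hm2]

theorem RT_ae (P : ℝ) (h : RT (1 + m) P) : ∃ C : ℝ≥0, ∀ k : E (1 + m) → ℂ, Measurable k →
    (∀ η, ‖η‖ ≤ 1 → ‖k η‖ ≤ 1) → ∫⁻ s : ℝ, ∫⁻ t : E m, ‖T k (J (s • e0) t)‖ₑ ^ P ≤ C := by
  obtain ⟨C, hC, hT⟩ := h
  refine ⟨C.toNNReal, fun k hk hb => ?_⟩
  rw [slice k hk P]
  set k' : E (1 + m) → ℂ := (Metric.closedBall (0 : E (1 + m)) 1).indicator k with hk'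
  have hm' : Measurable k' := hk.indicator measurableSet_closedBall
  have hb' : ∀ x, ‖k' x‖ ≤ 1 := by
    intro x
    by_cases hx : x ∈ Metric.closedBall (0 : E (1 + m)) 1
    · rw [hk', indicator_of_mem hx]
      exact hb x (by simpa using hx)
    · rw [hk', indicator_of_notMem hx, norm_zero]
      exact zero_le_one
  have he : ∀ᵐ x ∂(sg (1 + m)), k x = k' x := by
    filter_upwards [sg_ae (1 + m)] with x hx
    have : x ∈ Metric.closedBall (0 : E (1 + m)) 1 := by simp [hx]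
    rw [hk', indicator_of_mem this]
  have h1 : ∀ z, T k z = T k' z := fun z => T_congr k k' he z
  simp only [h1]
  exact hT k' hm' hb'

theorem hG_int (P : ℝ) (hP : 0 < P) (h : RT (1 + m) P) : ∃ A : ℝ≥0, ∀ G : E (2 + m) → ℂ,
    Measurable G → (∀ z, ‖G z‖ ≤ 1) → ∀ u : E 2, ∫⁻ s, ∫⁻ t, hG G u s t ^ P ≤ A := by
  obtain ⟨C, hC⟩ := RT_ae P h
  have hne : (2 : ℝ≥0∞) ^ P * (C + C) ≠ ⊤ :=
    ENNReal.mul_ne_top (ENNReal.rpow_ne_top_of_nonneg hP.le (by norm_num)) (by simp)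
  refine ⟨((2 : ℝ≥0∞) ^ P * (C + C)).toNNReal, fun G hGm hb u => ?_⟩
  rw [ENNReal.coe_toNNReal hne]
  have ku : Measurable fun η : E (1 + m) => (u, η) := measurable_const.prodMk measurable_id
  have m1 : Measurable (kk G u) := by
    have h := (kk_meas' G hGm).comp ku
    exact h
  have m2 : Measurable (kq G u) := by
    have h := (kq_meas G hGm).comp ku
    exact h
  have c1 := hC (kk G u) m1 (fun η hη => kk_le G hb u η hη)
  have c2 := hC (kq G u) m2 (fun η _ => kq_le G hb u η)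
  have mm : ∀ k : E (1 + m) → ℂ, Measurable k →
      Measurable fun p : ℝ × E m => ‖T k (J (p.1 • e0) p.2)‖ₑ ^ P := by
    intro k hk
    have h := ((T_meas' k hk).comp (Jse_meas (m := m))).enorm.pow_const P
    exact h
  have hst : ∀ s : ℝ, Measurable fun t : E m => ‖T (kk G u) (J (s • e0) t)‖ₑ ^ P := by
    intro s
    have k : Measurable fun t : E m => (s, t) := measurable_const.prodMk measurable_id
    have h := (mm (kk G u) m1).comp k
    exact h
  have hs : Measurable fun s : ℝ => ∫⁻ t : E m, ‖T (kk G u) (J (s • e0) t)‖ₑ ^ P :=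
    (mm (kk G u) m1).lintegral_prod_right'
  have h2P : (2 : ℝ≥0∞) ^ P ≠ ⊤ := ENNReal.rpow_ne_top_of_nonneg hP.le (by norm_num)
  calc ∫⁻ s, ∫⁻ t, hG G u s t ^ P
      ≤ ∫⁻ s, ∫⁻ t, 2 ^ P * (‖T (kk G u) (J (s • e0) t)‖ₑ ^ P +
        ‖T (kq G u) (J (s • e0) t)‖ₑ ^ P) := by
        refine lintegral_mono fun s => lintegral_mono fun t => ?_
        exact two_rpow _ _ P hP.le
    _ = 2 ^ P * ∫⁻ s, ∫⁻ t, (‖T (kk G u) (J (s • e0) t)‖ₑ ^ P +
        ‖T (kq G u) (J (s • e0) t)‖ₑ ^ P) := by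
        rw [← lintegral_const_mul' _ _ h2P]
        refine lintegral_congr fun s => ?_
        rw [lintegral_const_mul' _ _ h2P]
    _ = 2 ^ P * ((∫⁻ s, ∫⁻ t, ‖T (kk G u) (J (s • e0) t)‖ₑ ^ P) +
        ∫⁻ s, ∫⁻ t, ‖T (kq G u) (J (s • e0) t)‖ₑ ^ P) := by
        congr 1
        rw [← lintegral_add_left hs]
        refine lintegral_congr fun s => ?_
        rw [lintegral_add_left (hst s)]
    _ ≤ _ := by gcongr

/-- the averaged quantity -/
noncomputable def SS (ε δ : ℝ) (G : E (2 + m) → ℂ) (x : E 2) (t : E m) : ℝ≥0∞ :=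
  ∫⁻ u, wt ε δ x u * hG G u ⟪x, u⟫ t ∂(sg 2)

theorem SS_meas (ε δ : ℝ) (G : E (2 + m) → ℂ) (hGm : Measurable G) :
    Measurable fun p : E 2 × E m => SS ε δ G p.1 p.2 := by
  have hfin := sg_finite 2
  unfold SS
  have hxu : Measurable fun p : (E 2 × E m) × E 2 => (⟪p.1.1, p.2⟫ : ℝ) := by
    have k : Measurable fun p : (E 2 × E m) × E 2 => (p.1.1, p.2) :=
      (measurable_fst.comp measurable_fst).prodMk measurable_snd
    have h := inner_meas.comp k
    exact h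
  have hm1 : Measurable fun p : (E 2 × E m) × E 2 => hG G p.2 ⟪p.1.1, p.2⟫ p.1.2 := by
    have k : Measurable fun p : (E 2 × E m) × E 2 => (p.2, (⟪p.1.1, p.2⟫ : ℝ), p.1.2) :=
      measurable_snd.prodMk (hxu.prodMk (measurable_snd.comp measurable_fst))
    have h := (hG_meas G hGm).comp k
    exact h
  have hw1 : Measurable fun p : (E 2 × E m) × E 2 => wt ε δ p.1.1 p.2 := by
    have k : Measurable fun p : (E 2 × E m) × E 2 => (p.1.1, p.2) :=
      (measurable_fst.comp measurable_fst).prodMk measurable_snd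
    have h := (wt_meas ε δ).comp k
    exact h
  exact (hw1.mul hm1).lintegral_prod_right'

/-- a rotation average over a shell -/
theorem rot_avg (δ R : ℝ) (F : E 2 → E m → ℝ≥0∞) (hF : Measurable fun p : E 2 × E m => F p.1 p.2)
    (w : ℝ → ℝ≥0∞) (hw : Measurable w) (A : Set (E 2)) (hA : MeasurableSet A)
    (hA2 : ∀ (θ : ℝ) (x : E 2), rot θ x ∈ A ↔ x ∈ A) :
    ∫⁻ x in A, ∫⁻ t, ∫⁻ θ in Ioc 0 δ, w θ * F (rot θ x) t =
      (∫⁻ θ in Ioc 0 δ, w θ) * ∫⁻ x in A, ∫⁻ t, F x t := by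
  have hr : Measurable fun p : (E 2 × E m) × ℝ => F (rot p.2 p.1.1) p.1.2 := by
    have k1 : Measurable fun p : (E 2 × E m) × ℝ => (p.2, p.1.1) :=
      measurable_snd.prodMk (measurable_fst.comp measurable_fst)
    have k2 := (rot_meas.comp k1).prodMk (measurable_snd.comp (measurable_fst
      (α := E 2 × E m) (β := ℝ)))
    have h := hF.comp k2
    exact h
  have hwr : Measurable fun p : (E 2 × E m) × ℝ => w p.2 * F (rot p.2 p.1.1) p.1.2 :=
    (hw.comp measurable_snd).mul hr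
  have e1 : ∫⁻ x in A, ∫⁻ t, ∫⁻ θ in Ioc 0 δ, w θ * F (rot θ x) t =
      ∫⁻ x in A, ∫⁻ θ in Ioc 0 δ, ∫⁻ t : E m, w θ * F (rot θ x) t := by
    refine lintegral_congr fun x => ?_
    have k : Measurable fun p : E m × ℝ => (((x, p.1), p.2) : (E 2 × E m) × ℝ) :=
      (measurable_const.prodMk measurable_fst).prodMk measurable_snd
    have k1 := hwr.comp k
    have k2 : Measurable (Function.uncurry fun (t : E m) (θ : ℝ) => w θ * F (rot θ x) t) := k1
    exact lintegral_lintegral_swap k2.aemeasurable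
  have k : Measurable fun p : (E 2 × ℝ) × E m => (((p.1.1, p.2), p.1.2) : (E 2 × E m) × ℝ) :=
    ((measurable_fst.comp measurable_fst).prodMk measurable_snd).prodMk
      (measurable_snd.comp measurable_fst)
  have k1 := hwr.comp k
  have k2 : Measurable fun p : (E 2 × ℝ) × E m => w p.1.2 * F (rot p.1.2 p.1.1) p.2 := k1
  have k3 : Measurable (Function.uncurry fun (x : E 2) (θ : ℝ) => ∫⁻ t : E m,
    w θ * F (rot θ x) t) := k2.lintegral_prod_right'
  have e2 : ∫⁻ x in A, ∫⁻ θ in Ioc 0 δ, ∫⁻ t : E m, w θ * F (rot θ x) t =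
      ∫⁻ θ in Ioc 0 δ, ∫⁻ x in A, ∫⁻ t : E m, w θ * F (rot θ x) t :=
    lintegral_lintegral_swap k3.aemeasurable
  rw [e1, e2, ← lintegral_mul_const _ hw]
  refine lintegral_congr fun θ => ?_
  have mt : ∀ x : E 2, Measurable fun t : E m => F x t := by
    intro x
    have k : Measurable fun t : E m => (x, t) := measurable_const.prodMk measurable_id
    have h := hF.comp k
    exact h
  have mx : Measurable fun x : E 2 => ∫⁻ t, F x t := hF.lintegral_prod_right'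
  have mrot : Measurable (rot θ) := (rot θ).continuous.measurable
  have e3 : ∫⁻ x in A, ∫⁻ t : E m, w θ * F (rot θ x) t =
      ∫⁻ x in A, w θ * ∫⁻ t : E m, F (rot θ x) t := by
    refine lintegral_congr fun x => ?_
    rw [lintegral_const_mul _ (mt _)]
  have mx2 : Measurable fun x : E 2 => ∫⁻ t : E m, F (rot θ x) t := mx.comp mrot
  rw [e3, lintegral_const_mul _ mx2]
  congr 1
  rw [← lintegral_indicator hA, ← lintegral_indicator hA]
  have e4 : ∀ x, A.indicator (fun x => ∫⁻ t : E m, F (rot θ x) t) x =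
      (A.indicator fun x => ∫⁻ t : E m, F x t) (rot θ x) := by
    intro x
    by_cases hx : x ∈ A
    · have hx2 := (hA2 θ x).2 hx
      rw [indicator_of_mem hx, indicator_of_mem hx2]
    · have hx2 : rot θ x ∉ A := fun h => hx ((hA2 θ x).1 h)
      rw [indicator_of_notMem hx, indicator_of_notMem hx2]
  rw [lintegral_congr e4]
  exact (rot θ).measurePreserving.lintegral_comp (mx.indicator hA)

theorem mainP (hm : 1 ≤ m) (P ε : ℝ) (hP : 1 < P) (hε : 0 < ε) (hε1 : ε < 1) (A : ℝ≥0) :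
    ∃ C : ℝ≥0, ∀ G : E (2 + m) → ℂ, Measurable G → (∀ z, ‖G z‖ ≤ 1) →
      (∀ u : E 2, ‖u‖ = 1 → ∫⁻ s, ∫⁻ t, hG G u s t ^ P ≤ A) →
      ∀ R δ : ℝ, 0 < R → 0 < δ → 1 ≤ R * δ ^ 2 →
      ∫⁻ x in Sh R, ∫⁻ t, ‖AA δ G x t‖ₑ ^ P ≤ C * ENNReal.ofReal (R * δ ^ ((1 - ε) * P)) := by
  have hP0 : 0 < P := by linarith
  have hP1 : 0 < P - 1 := by linarith
  obtain ⟨C, hC⟩ := S_bound (m := m) P ε hP hε hε1
  have hne : ENNReal.ofReal (7 ^ P) * (C * A) ≠ ⊤ := by
    exact ENNReal.mul_ne_top ENNReal.ofReal_ne_top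
      (ENNReal.mul_ne_top ENNReal.coe_ne_top ENNReal.coe_ne_top)
  refine ⟨(ENNReal.ofReal (7 ^ P) * (C * A)).toNNReal, fun G hGm hb hGA R δ hR hδ hRδ => ?_⟩
  rw [ENNReal.coe_toNNReal hne]
  have hS := SS_meas ε δ G hGm
  have hSP : Measurable fun p : E 2 × E m => SS ε δ G p.1 p.2 ^ P := hS.pow_const P
  have hpt : ∀ x ∈ Sh R, ∀ t, ‖AA δ G x t‖ₑ ^ P ≤
      ENNReal.ofReal (7 ^ P / δ) * ∫⁻ θ in Ioc 0 δ, 1 * SS ε δ G (rot θ x) t ^ P := by
    intro x hx t
    have h1 := point hm ε δ hε hε1 hδ G hGm hb x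
      (hRδ.trans (mul_le_mul_of_nonneg_right hx.1 (by positivity))) t
    have hrm : Measurable fun θ : ℝ => SS ε δ G (rot θ x) t := by
      have k1 : Measurable fun θ : ℝ => (θ, x) := measurable_id.prodMk measurable_const
      have k2 := rot_meas.comp k1
      have k3 : Measurable fun θ : ℝ => (rot θ x, t) := k2.prodMk measurable_const
      have h := hS.comp k3
      exact h
    have h2 := jensenp (volume.restrict (Ioc 0 δ)) (fun θ => SS ε δ G (rot θ x) t)
      hrm.aemeasurable P hP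
    rw [Measure.restrict_apply_univ, Real.volume_Ioc, sub_zero] at h2
    calc ‖AA δ G x t‖ₑ ^ P ≤ (ENNReal.ofReal (7 / δ) * ∫⁻ θ in Ioc 0 δ,
          SS ε δ G (rot θ x) t) ^ P := ENNReal.rpow_le_rpow h1 hP0.le
      _ = ENNReal.ofReal (7 / δ) ^ P * (∫⁻ θ in Ioc 0 δ, SS ε δ G (rot θ x) t) ^ P :=
          ENNReal.mul_rpow_of_nonneg _ _ hP0.le
      _ ≤ ENNReal.ofReal (7 / δ) ^ P * (ENNReal.ofReal δ ^ (P - 1) *
          ∫⁻ θ in Ioc 0 δ, SS ε δ G (rot θ x) t ^ P) := mul_le_mul' le_rfl h2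
      _ = _ := by
          rw [← mul_assoc, ENNReal.ofReal_rpow_of_pos (by positivity),
            ENNReal.ofReal_rpow_of_pos hδ, ← ENNReal.ofReal_mul (by positivity)]
          simp only [one_mul]
          congr 2
          rw [Real.div_rpow (by norm_num) hδ.le, div_mul_eq_mul_div]
          rw [div_eq_div_iff (by positivity) (by positivity)]
          have : δ ^ P = δ ^ (P - 1) * δ := by
            rw [← Real.rpow_add_one hδ.ne']
            congr 1
            ring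
          rw [this]
          ring
  calc ∫⁻ x in Sh R, ∫⁻ t, ‖AA δ G x t‖ₑ ^ P
      ≤ ∫⁻ x in Sh R, ∫⁻ t, ENNReal.ofReal (7 ^ P / δ) *
        ∫⁻ θ in Ioc 0 δ, 1 * SS ε δ G (rot θ x) t ^ P := by
        refine setLIntegral_mono' (Sh_meas R) fun x hx => lintegral_mono fun t => hpt x hx t
    _ = ENNReal.ofReal (7 ^ P / δ) * ∫⁻ x in Sh R, ∫⁻ t : E m,
        ∫⁻ θ in Ioc 0 δ, 1 * SS ε δ G (rot θ x) t ^ P := by
        rw [← lintegral_const_mul' _ _ ENNReal.ofReal_ne_top]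
        refine lintegral_congr fun x => ?_
        rw [lintegral_const_mul' _ _ ENNReal.ofReal_ne_top]
    _ = ENNReal.ofReal (7 ^ P / δ) * (ENNReal.ofReal δ *
        ∫⁻ x in Sh R, ∫⁻ t : E m, SS ε δ G x t ^ P) := by
        congr 1
        have h3 := rot_avg δ R (fun x t => SS ε δ G x t ^ P) hSP (fun _ => 1) measurable_const
          (Sh R) (Sh_meas R) (fun θ x => by unfold Sh; simp only [mem_ofPred_eq, (rot θ).norm_map])
        rw [h3]
        simp
    _ ≤ ENNReal.ofReal (7 ^ P / δ) * (ENNReal.ofReal δ *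
        (C * ENNReal.ofReal (R * δ ^ ((1 - ε) * P)) * A)) := by
        gcongr
        exact hC δ hδ R hR A (hG G) (hG_meas G hGm) hGA
    _ = _ := by
        rw [← mul_assoc, ← ENNReal.ofReal_mul (by positivity), div_mul_cancel₀ _ hδ.ne']
        ring

end Pool.Agent.Run7.h58.LR
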