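import Mathlib
import Pool.Agent.Helper390.CovarioA
import Pool.Agent.Run7.h58.LR.MainP
set_option autoImplicit false

/-! `L²` on cylinders. -/

namespace Pool.Agent.Run7.h58.LR

open MeasureTheory Set Complex
open scoped ENNReal NNReal RealInnerProductSpace FourierTransform
open Pool.Agent.H789R2.FR (E sg T sg_finite sg_ae sg_inv L2_bound)
open Pool.Agent.H438R2.BR (Q J J_mp J_inner)
open Pool.Agent.H438R2.BR.T10 (e0 e0_norm)
open Pool.Agent.H438R2.PD (T_meas' T_le P1 P2 P1_J P2_J P1_meas)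
open Pool.Agent.TH335.RF (enorm_sq)
open Pool.Agent.Run7.h58.MV (ee norm_ee ee_cont ee_add plane_scale)

variable {m : ℕ}

theorem L2g : ∃ C : ℝ, 0 < C ∧ ∀ g : E 2 → ℂ, Measurable g → (∃ M : ℝ, ∀ x, ‖g x‖ ≤ M) →
    ∀ l : ℝ, 0 < l → ∫⁻ x : E 2, ENNReal.ofReal (Real.exp (-‖x‖ ^ 2 / l ^ 2)) *
      ‖T g x‖ₑ ^ (2 : ℝ) ≤ ENNReal.ofReal (C * l) * ∫⁻ z, ‖g z‖ₑ ^ (2 : ℝ) ∂(sg 2) := by
  obtain ⟨C, hC, h⟩ := L2_bound 2 le_rfl
  have hfin := sg_finite 2
  refine ⟨C, hC, fun g hg hM l hl => ?_⟩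
  obtain ⟨M, hM⟩ := hM
  have hTm : Measurable (T g) := T_meas' g hg
  have hTb : ∀ x, ‖T g x‖ ≤ M * (sg 2).real univ := T_le g M hM
  have h1 := h g hg ⟨M, hM⟩ l hl 0
  simp only [sub_zero] at h1
  have hWi : Integrable (fun x : E 2 => Real.exp (-‖x‖ ^ 2 / l ^ 2)) :=
    Pool.Agent.H789R2.FR.L2.integrable_W (n := 2) (l := l) hl
  have hi : Integrable (fun x : E 2 => Real.exp (-‖x‖ ^ 2 / l ^ 2) * ‖T g x‖ ^ 2) := by
    refine Integrable.mono' (hWi.mul_const ((M * (sg 2).real univ) ^ 2)) ?_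
      (Filter.Eventually.of_forall fun x => ?_)
    · exact ((by fun_prop : Measurable fun x : E 2 =>
        Real.exp (-‖x‖ ^ 2 / l ^ 2)).mul (hTm.norm.pow_const 2)).aestronglyMeasurable
    · rw [Real.norm_eq_abs, abs_of_nonneg (by positivity)]
      gcongr
      exact hTb x
  have hgi : Integrable (fun z : E 2 => ‖g z‖ ^ 2) (sg 2) := by
    refine Integrable.of_bound (hg.norm.pow_const 2).aestronglyMeasurable (M ^ 2)
      (Filter.Eventually.of_forall fun z => ?_)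
    rw [Real.norm_eq_abs, abs_of_nonneg (by positivity)]
    gcongr
    exact hM z
  have h2 : ∫⁻ x : E 2, ENNReal.ofReal (Real.exp (-‖x‖ ^ 2 / l ^ 2)) *
      ‖T g x‖ₑ ^ (2 : ℝ) = ENNReal.ofReal (∫ x : E 2,
        Real.exp (-‖x‖ ^ 2 / l ^ 2) * ‖T g x‖ ^ 2) := by
    rw [ofReal_integral_eq_lintegral_ofReal hi (Filter.Eventually.of_forall fun x => by positivity)]
    refine lintegral_congr fun x => ?_
    rw [enorm_sq, ENNReal.ofReal_mul (Real.exp_pos _).le]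
  have h3 : ∫⁻ z, ‖g z‖ₑ ^ (2 : ℝ) ∂(sg 2) = ENNReal.ofReal (∫ z, ‖g z‖ ^ 2 ∂(sg 2)) := by
    rw [ofReal_integral_eq_lintegral_ofReal hgi (Filter.Eventually.of_forall fun x => by positivity)]
    refine lintegral_congr fun x => ?_
    rw [enorm_sq]
  rw [h2, h3, ← ENNReal.ofReal_mul (by positivity)]
  exact ENNReal.ofReal_le_ofReal h1

theorem L2s : ∃ C : ℝ, 0 < C ∧ ∀ g : E 2 → ℂ, Measurable g → (∃ M : ℝ, ∀ x, ‖g x‖ ≤ M) →
    ∀ R r : ℝ, 0 < R → 0 < r → ∫⁻ x : E 2, ENNReal.ofReal (Real.exp (-‖x‖ ^ 2 / R ^ 2)) *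
      ‖T g (r • x)‖ₑ ^ (2 : ℝ) ≤ ENNReal.ofReal (C * R) * ((ENNReal.ofReal r)⁻¹ *
        ∫⁻ z, ‖g z‖ₑ ^ (2 : ℝ) ∂(sg 2)) := by
  obtain ⟨C, hC, h⟩ := L2g
  refine ⟨C, hC, fun g hg hM R r hR hr => ?_⟩
  have h1 := h g hg hM (r * R) (by positivity)
  have hTm : Measurable (T g) := T_meas' g hg
  have hm : Measurable fun x : E 2 => ENNReal.ofReal (Real.exp (-‖x‖ ^ 2 / (r * R) ^ 2)) *
      ‖T g x‖ₑ ^ (2 : ℝ) :=
    (by fun_prop : Measurable fun x : E 2 =>
      Real.exp (-‖x‖ ^ 2 / (r * R) ^ 2)).ennreal_ofReal.mul (hTm.enorm.pow_const _)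
  rw [plane_scale r hr _ hm] at h1
  have e1 : ∀ y : E 2, -‖r • y‖ ^ 2 / (r * R) ^ 2 = -‖y‖ ^ 2 / R ^ 2 := by
    intro y
    rw [norm_smul, Real.norm_of_nonneg hr.le]
    field_simp
  simp only [e1] at h1
  have hr2 : ENNReal.ofReal (r ^ 2) ≠ 0 := by
    rw [Ne, ENNReal.ofReal_eq_zero, not_le]
    positivity
  calc ∫⁻ x : E 2, ENNReal.ofReal (Real.exp (-‖x‖ ^ 2 / R ^ 2)) * ‖T g (r • x)‖ₑ ^ (2 : ℝ)
      = (ENNReal.ofReal (r ^ 2))⁻¹ * (ENNReal.ofReal (r ^ 2) *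
        ∫⁻ x : E 2, ENNReal.ofReal (Real.exp (-‖x‖ ^ 2 / R ^ 2)) * ‖T g (r • x)‖ₑ ^ (2 : ℝ)) := by
        rw [← mul_assoc, ENNReal.inv_mul_cancel hr2 ENNReal.ofReal_ne_top, one_mul]
    _ ≤ (ENNReal.ofReal (r ^ 2))⁻¹ * (ENNReal.ofReal (C * (r * R)) *
        ∫⁻ z, ‖g z‖ₑ ^ (2 : ℝ) ∂(sg 2)) := by gcongr
    _ = _ := by
        have e2 : (ENNReal.ofReal (r ^ 2))⁻¹ * ENNReal.ofReal (C * (r * R)) =
            ENNReal.ofReal (C * R) * (ENNReal.ofReal r)⁻¹ := by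
          rw [← ENNReal.ofReal_inv_of_pos (by positivity), ← ENNReal.ofReal_inv_of_pos hr,
            ← ENNReal.ofReal_mul (by positivity), ← ENNReal.ofReal_mul (by positivity)]
          congr 1
          field_simp
        rw [← mul_assoc, e2, mul_assoc]

theorem planch {f : E m → ℂ} (h1 : Integrable f) (h2 : MemLp f 2) :
    ∫⁻ ξ, ‖𝓕 f ξ‖ₑ ^ (2 : ℝ) = ∫⁻ x, ‖f x‖ₑ ^ (2 : ℝ) := by
  obtain ⟨h3, h4⟩ := Pool.Agent.Helper390.Covario.plancherel h1 h2
  have conv : ∀ g : E m → ℂ, MemLp g 2 → ∫⁻ x, ‖g x‖ₑ ^ (2 : ℝ) =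
      ENNReal.ofReal (∫ x, ‖g x‖ ^ 2) := by
    intro g hg
    rw [ofReal_integral_eq_lintegral_ofReal ((memLp_two_iff_integrable_sq_norm hg.1).1 hg)
      (Filter.Eventually.of_forall fun x => by positivity)]
    refine lintegral_congr fun x => ?_
    rw [enorm_sq]
  rw [conv _ h3, conv _ h2, h4]

/-- the restriction of the density to a circle -/
noncomputable def gy (G : E (2 + m) → ℂ) (y : E m) (u : E 2) : ℂ := G (J (rr y • u) y)

theorem gy_meas (G : E (2 + m) → ℂ) (hG : Measurable G) :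
    Measurable (Function.uncurry (gy G)) := by
  have k : Measurable fun p : E m × E 2 => (rr p.1 • p.2, p.1) :=
    ((rr_meas.comp measurable_fst).smul measurable_snd).prodMk measurable_fst
  have h := hG.comp (J_meas.comp k)
  exact h

/-- the function whose Fourier transform is the extension -/
noncomputable def Hx (G : E (2 + m) → ℂ) (x : E 2) (y : E m) : ℂ :=
  (Metric.ball (0 : E m) 1).indicator (fun y => T (gy G y) (rr y • x)) y

theorem Tgy_meas (G : E (2 + m) → ℂ) (hG : Measurable G) :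
    Measurable fun p : E 2 × E m => T (gy G p.2) (rr p.2 • p.1) := by
  have k : Measurable fun p : E 2 × E m => (p.2, rr p.2 • p.1) :=
    measurable_snd.prodMk ((rr_meas.comp measurable_snd).smul measurable_fst)
  have h := (Tpar_meas (gy G) (gy_meas G hG)).comp k
  exact h

theorem Hx_meas (G : E (2 + m) → ℂ) (hG : Measurable G) (x : E 2) : Measurable (Hx G x) := by
  have k : Measurable fun y : E m => (x, y) := measurable_const.prodMk measurable_id
  have h := (Tgy_meas G hG).comp k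
  have h2 : Measurable fun y : E m => T (gy G y) (rr y • x) := h
  exact h2.indicator measurableSet_ball

theorem Hx_four (hm : 1 ≤ m) (G : E (2 + m) → ℂ) (hG : Measurable G) (M : ℝ)
    (hM : ∀ z, ‖G z‖ ≤ M) (x : E 2) (t : E m) :
    T G (J x t) = 𝓕 (Hx G x) ((2 * Real.pi)⁻¹ • t) := by
  have hfin := sg_finite 2
  have hball : IsFiniteMeasure ((volume : Measure (E m)).restrict (Metric.ball 0 1)) :=
    ⟨by rw [Measure.restrict_apply_univ]; exact measure_ball_lt_top⟩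
  have mΨ : Measurable fun p : E m × E 2 => J (rr p.1 • p.2) p.1 := by
    have k : Measurable fun p : E m × E 2 => (rr p.1 • p.2, p.1) :=
      ((rr_meas.comp measurable_fst).smul measurable_snd).prodMk measurable_fst
    have h := (J_meas (k := 2) (d := m)).comp k
    exact h
  have kph : Measurable fun z : E (2 + m) => (J x t, z) := measurable_const.prodMk measurable_id
  have mph0 := (ph_meas (n := 2 + m)).comp kph
  have m1 : Measurable fun z : E (2 + m) => ph (J x t) z * G z := mph0.mul hG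
  have e0' : T G (J x t) = ∫ z, ph (J x t) z * G z ∂(sg (2 + m)) := rfl
  rw [e0', sg_mapB hm, integral_map mΨ.aemeasurable m1.aestronglyMeasurable, integral_prod]
  · rw [Real.fourier_eq', ← integral_indicator measurableSet_ball]
    refine integral_congr_ae (Filter.Eventually.of_forall fun y => ?_)
    simp only [smul_eq_mul]
    unfold Hx
    by_cases hy : y ∈ Metric.ball (0 : E m) 1
    · rw [indicator_of_mem hy, indicator_of_mem hy]
      have e2 : T (gy G y) (rr y • x) = ∫ u, ph (rr y • x) u * gy G y u ∂(sg 2) := rfl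
      rw [e2, ← integral_const_mul]
      refine integral_congr_ae (Filter.Eventually.of_forall fun u => ?_)
      simp only
      unfold gy ph
      rw [← mul_assoc, ← Complex.exp_add]
      congr 2
      rw [J_inner, real_inner_smul_right, real_inner_smul_left, real_inner_smul_right,
        real_inner_comm t y]
      have hpi := Real.pi_ne_zero
      push_cast
      field_simp
      ring
    · rw [indicator_of_notMem hy, indicator_of_notMem hy, mul_zero]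
  · refine Integrable.of_bound (m1.comp mΨ).aestronglyMeasurable M
      (Filter.Eventually.of_forall fun p => ?_)
    rw [norm_mul, ph_norm, one_mul]
    exact hM _

theorem t_plan (hm : 1 ≤ m) (G : E (2 + m) → ℂ) (hG : Measurable G) (M : ℝ)
    (hM : ∀ z, ‖G z‖ ≤ M) (x : E 2) :
    ∫⁻ t : E m, ‖T G (J x t)‖ₑ ^ (2 : ℝ) = ENNReal.ofReal ((2 * Real.pi) ^ m) *
      ∫⁻ y in Metric.ball (0 : E m) 1, ‖T (gy G y) (rr y • x)‖ₑ ^ (2 : ℝ) := by
  have hfin := sg_finite 2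
  have hM0 : 0 ≤ M := (norm_nonneg _).trans (hM 0)
  have hH := Hx_meas G hG x
  have hb : ∀ y, ‖Hx G x y‖ ≤ (Metric.ball (0 : E m) 1).indicator
      (fun _ => M * (sg 2).real univ) y := by
    intro y
    unfold Hx
    by_cases hy : y ∈ Metric.ball (0 : E m) 1
    · rw [indicator_of_mem hy, indicator_of_mem hy]
      exact T_le _ M (fun u => hM _) _
    · rw [indicator_of_notMem hy, indicator_of_notMem hy, norm_zero]
  have hball : volume (Metric.ball (0 : E m) 1) ≠ ⊤ := measure_ball_lt_top.ne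
  have h1 : Integrable (Hx G x) := by
    refine Integrable.mono' (g := (Metric.ball (0 : E m) 1).indicator
      (fun _ => M * (sg 2).real univ)) ?_ hH.aestronglyMeasurable
      (Filter.Eventually.of_forall hb)
    rw [integrable_indicator_iff measurableSet_ball]
    exact integrableOn_const hball
  have h2 : MemLp (Hx G x) 2 := by
    have h3 : MemLp ((Metric.ball (0 : E m) 1).indicator
      (fun _ => M * (sg 2).real univ)) 2 (volume : Measure (E m)) :=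
      memLp_indicator_const 2 measurableSet_ball _ (Or.inr hball)
    refine h3.mono hH.aestronglyMeasurable (Filter.Eventually.of_forall fun y => ?_)
    refine (hb y).trans (le_abs_self _)
  have hp := planch h1 h2
  have h2pi : (2 * Real.pi)⁻¹ ≠ 0 := by positivity
  have hFm : Measurable fun ξ : E m => ‖𝓕 (Hx G x) ξ‖ₑ ^ (2 : ℝ) := by
    have hc : Continuous (𝓕 (Hx G x)) :=
      VectorFourier.fourierIntegral_continuous Real.continuous_fourierChar continuous_inner h1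
    exact hc.measurable.enorm.pow_const _
  have h3 := Measure.map_addHaar_smul (volume : Measure (E m)) h2pi
  have h4 : ∫⁻ ξ : E m, ‖𝓕 (Hx G x) ξ‖ₑ ^ (2 : ℝ)
      ∂(Measure.map ((2 * Real.pi)⁻¹ • · : E m → E m) volume) =
      ∫⁻ t : E m, ‖𝓕 (Hx G x) ((2 * Real.pi)⁻¹ • t)‖ₑ ^ (2 : ℝ) :=
    lintegral_map hFm (measurable_const_smul _)
  have h5 : ∀ t, T G (J x t) = 𝓕 (Hx G x) ((2 * Real.pi)⁻¹ • t) :=
    fun t => Hx_four hm G hG M hM x t
  simp only [h5]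
  rw [← h4, h3, lintegral_smul_measure, smul_eq_mul, finrank_euclideanSpace_fin,
    abs_of_nonneg (by positivity), hp]
  congr 1
  · congr 1
    rw [inv_pow, inv_inv]
  · rw [← lintegral_indicator measurableSet_ball]
    refine lintegral_congr fun y => ?_
    unfold Hx
    by_cases hy : y ∈ Metric.ball (0 : E m) 1
    · rw [indicator_of_mem hy, indicator_of_mem hy]
    · rw [indicator_of_notMem hy, indicator_of_notMem hy, enorm_zero,
        ENNReal.zero_rpow_of_pos (by norm_num)]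

/-- weighted mass -/
noncomputable def N2 (G : E (2 + m) → ℂ) : ℝ≥0∞ :=
  ∫⁻ z, (ENNReal.ofReal ‖P1 2 m z‖)⁻¹ * ‖G z‖ₑ ^ (2 : ℝ) ∂(sg (2 + m))

theorem N2_eq (hm : 1 ≤ m) (G : E (2 + m) → ℂ) (hG : Measurable G) :
    N2 G = ∫⁻ y in Metric.ball (0 : E m) 1, (ENNReal.ofReal (rr y))⁻¹ *
      ∫⁻ u, ‖gy G y u‖ₑ ^ (2 : ℝ) ∂(sg 2) := by
  have hf : Measurable fun z : E (2 + m) => (ENNReal.ofReal ‖P1 2 m z‖)⁻¹ * ‖G z‖ₑ ^ (2 : ℝ) :=
    (P1_meas 2 m).norm.ennreal_ofReal.inv.mul (hG.enorm.pow_const _)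
  unfold N2
  rw [sphB hm _ hf]
  refine lintegral_congr fun y => ?_
  have mg : Measurable fun u : E 2 => ‖gy G y u‖ₑ ^ (2 : ℝ) := by
    have k : Measurable fun u : E 2 => (y, u) := measurable_const.prodMk measurable_id
    have h := ((gy_meas G hG).comp k).enorm.pow_const (2 : ℝ)
    exact h
  rw [← lintegral_const_mul _ mg]
  refine lintegral_congr_ae ?_
  filter_upwards [sg_ae 2] with u hu
  rw [P1_J, norm_smul, hu, mul_one, Real.norm_of_nonneg (show 0 ≤ rr y from Real.sqrt_nonneg _)]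
  rfl

theorem cyl (hm : 1 ≤ m) : ∃ C : ℝ≥0, ∀ G : E (2 + m) → ℂ, Measurable G →
    (∃ M : ℝ, ∀ z, ‖G z‖ ≤ M) → ∀ R : ℝ, 0 < R →
    ∫⁻ x in {x : E 2 | ‖x‖ ≤ 2 * R}, ∫⁻ t, ‖T G (J x t)‖ₑ ^ (2 : ℝ) ≤
      C * ENNReal.ofReal R * N2 G := by
  obtain ⟨C, hC, hL⟩ := L2s
  refine ⟨(Real.exp 4 * ((2 * Real.pi) ^ m * C)).toNNReal, fun G hG hM R hR => ?_⟩
  obtain ⟨M, hM⟩ := hM
  have hTm := Tgy_meas G hG
  have hF : Measurable fun p : E 2 × E m => ENNReal.ofReal (Real.exp (-‖p.1‖ ^ 2 / R ^ 2)) *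
      ‖T (gy G p.2) (rr p.2 • p.1)‖ₑ ^ (2 : ℝ) :=
    (by fun_prop : Measurable fun p : E 2 × E m =>
      Real.exp (-‖p.1‖ ^ 2 / R ^ 2)).ennreal_ofReal.mul (hTm.enorm.pow_const _)
  have hx : ∀ x : E 2, Measurable fun y : E m => ‖T (gy G y) (rr y • x)‖ₑ ^ (2 : ℝ) := by
    intro x
    have k : Measurable fun y : E m => (x, y) := measurable_const.prodMk measurable_id
    have h := (hTm.comp k).enorm.pow_const (2 : ℝ)
    exact h
  have hset : MeasurableSet {x : E 2 | ‖x‖ ≤ 2 * R} := measurableSet_le measurable_norm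
    measurable_const
  have main : ∫⁻ x : E 2, ENNReal.ofReal (Real.exp (-‖x‖ ^ 2 / R ^ 2)) *
      ∫⁻ t, ‖T G (J x t)‖ₑ ^ (2 : ℝ) ≤ ENNReal.ofReal ((2 * Real.pi) ^ m) *
        (ENNReal.ofReal (C * R) * N2 G) := by
    calc ∫⁻ x : E 2, ENNReal.ofReal (Real.exp (-‖x‖ ^ 2 / R ^ 2)) *
          ∫⁻ t, ‖T G (J x t)‖ₑ ^ (2 : ℝ)
        = ∫⁻ x : E 2, ENNReal.ofReal ((2 * Real.pi) ^ m) *
          ∫⁻ y in Metric.ball (0 : E m) 1, ENNReal.ofReal (Real.exp (-‖x‖ ^ 2 / R ^ 2)) *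
            ‖T (gy G y) (rr y • x)‖ₑ ^ (2 : ℝ) := by
          refine lintegral_congr fun x => ?_
          rw [t_plan hm G hG M hM x, lintegral_const_mul _ (hx x)]
          ring
      _ = ENNReal.ofReal ((2 * Real.pi) ^ m) * ∫⁻ x : E 2,
          ∫⁻ y in Metric.ball (0 : E m) 1, ENNReal.ofReal (Real.exp (-‖x‖ ^ 2 / R ^ 2)) *
            ‖T (gy G y) (rr y • x)‖ₑ ^ (2 : ℝ) := lintegral_const_mul' _ _ ENNReal.ofReal_ne_top
      _ = ENNReal.ofReal ((2 * Real.pi) ^ m) * ∫⁻ y in Metric.ball (0 : E m) 1, ∫⁻ x : E 2,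
          ENNReal.ofReal (Real.exp (-‖x‖ ^ 2 / R ^ 2)) *
            ‖T (gy G y) (rr y • x)‖ₑ ^ (2 : ℝ) := by
          congr 1
          have k2 : Measurable (Function.uncurry fun (x : E 2) (y : E m) =>
            ENNReal.ofReal (Real.exp (-‖x‖ ^ 2 / R ^ 2)) *
            ‖T (gy G y) (rr y • x)‖ₑ ^ (2 : ℝ)) := hF
          exact lintegral_lintegral_swap k2.aemeasurable
      _ ≤ ENNReal.ofReal ((2 * Real.pi) ^ m) * ∫⁻ y in Metric.ball (0 : E m) 1,
          ENNReal.ofReal (C * R) * ((ENNReal.ofReal (rr y))⁻¹ *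
            ∫⁻ u, ‖gy G y u‖ₑ ^ (2 : ℝ) ∂(sg 2)) := by
          refine mul_le_mul' le_rfl (setLIntegral_mono' measurableSet_ball fun y hy => ?_)
          have hy1 : ‖y‖ < 1 := by simpa using hy
          have hr : 0 < rr y := Real.sqrt_pos.2 (by nlinarith [norm_nonneg y])
          have k : Measurable fun u : E 2 => (y, u) := measurable_const.prodMk measurable_id
          have hg := (gy_meas G hG).comp k
          exact hL (gy G y) hg ⟨M, fun u => hM _⟩ R (rr y) hR hr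
      _ = _ := by
          rw [lintegral_const_mul' _ _ ENNReal.ofReal_ne_top, N2_eq hm G hG]
  have hpt : ∀ x ∈ {x : E 2 | ‖x‖ ≤ 2 * R}, ∫⁻ t, ‖T G (J x t)‖ₑ ^ (2 : ℝ) ≤
      ENNReal.ofReal (Real.exp 4) * (ENNReal.ofReal (Real.exp (-‖x‖ ^ 2 / R ^ 2)) *
        ∫⁻ t, ‖T G (J x t)‖ₑ ^ (2 : ℝ)) := by
    intro x hx
    have hx' : ‖x‖ ≤ 2 * R := hx
    rw [← mul_assoc, ← ENNReal.ofReal_mul (by positivity), ← Real.exp_add]
    have h1 : 1 ≤ ENNReal.ofReal (Real.exp (4 + -‖x‖ ^ 2 / R ^ 2)) := by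
      rw [← ENNReal.ofReal_one]
      apply ENNReal.ofReal_le_ofReal
      apply Real.one_le_exp
      have : ‖x‖ ^ 2 / R ^ 2 ≤ 4 := by
        rw [div_le_iff₀ (by positivity)]
        nlinarith [norm_nonneg x]
      rw [neg_div]
      linarith
    calc _ = 1 * ∫⁻ t, ‖T G (J x t)‖ₑ ^ (2 : ℝ) := (one_mul _).symm
      _ ≤ _ := by gcongr
  calc ∫⁻ x in {x : E 2 | ‖x‖ ≤ 2 * R}, ∫⁻ t, ‖T G (J x t)‖ₑ ^ (2 : ℝ)
      ≤ ∫⁻ x in {x : E 2 | ‖x‖ ≤ 2 * R}, ENNReal.ofReal (Real.exp 4) *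
        (ENNReal.ofReal (Real.exp (-‖x‖ ^ 2 / R ^ 2)) *
        ∫⁻ t, ‖T G (J x t)‖ₑ ^ (2 : ℝ)) := setLIntegral_mono' hset hpt
    _ ≤ ∫⁻ x, ENNReal.ofReal (Real.exp 4) * (ENNReal.ofReal (Real.exp (-‖x‖ ^ 2 / R ^ 2)) *
        ∫⁻ t, ‖T G (J x t)‖ₑ ^ (2 : ℝ)) := setLIntegral_le_lintegral _ _
    _ = ENNReal.ofReal (Real.exp 4) * ∫⁻ x, (ENNReal.ofReal (Real.exp (-‖x‖ ^ 2 / R ^ 2)) *
        ∫⁻ t, ‖T G (J x t)‖ₑ ^ (2 : ℝ)) := lintegral_const_mul' _ _ ENNReal.ofReal_ne_top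
    _ ≤ ENNReal.ofReal (Real.exp 4) * (ENNReal.ofReal ((2 * Real.pi) ^ m) *
        (ENNReal.ofReal (C * R) * N2 G)) := mul_le_mul' le_rfl main
    _ = _ := by
        rw [← ENNReal.ofReal_coe_nnreal, Real.coe_toNNReal _ (by positivity),
          ← mul_assoc, ← mul_assoc, ← ENNReal.ofReal_mul (by positivity),
          ← ENNReal.ofReal_mul (by positivity), ← ENNReal.ofReal_mul (by positivity)]
        congr 2
        ring

end Pool.Agent.Run7.h58.LR
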