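import Mathlib
import Pool.Agent.Run7.h58.LR.Cyl
set_option autoImplicit false

/-! Stein-Tomas with the `L²` norm; averages; the difference part. -/

namespace Pool.Agent.Run7.h58.LR

open MeasureTheory Set Complex Filter
open scoped ENNReal NNReal RealInnerProductSpace FourierTransform
open Pool.Agent.H789R2.FR (E sg T sg_finite sg_ae sg_inv L2_bound)
open Pool.Agent.H438R2.BR (Q J J_mp J_inner)
open Pool.Agent.H438R2.BR.T10 (e0 e0_norm)
open Pool.Agent.H438R2.PD (T_meas' T_le T_comp P1 P2 P1_J P2_J P1_meas P2_meas)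
open Pool.Agent.H438R2.PD.A5 (jensenp)
open Pool.Agent.TH335.RF (enorm_sq)
open Pool.Agent.Run7.h58.MV (T_mass)

variable {m : ℕ}

/-- Stein-Tomas with the `L²` norm -/
theorem l2ST (n : ℕ) (hn : 2 ≤ n) (P : ℝ) (hP : 2 * ((n : ℝ) + 1) / ((n : ℝ) - 1) < P) :
    ∃ C : ℝ≥0, ∀ g : E n → ℂ, Measurable g → (∃ M : ℝ, ∀ x, ‖g x‖ ≤ M) → ∀ S : ℝ, 0 < S →
      ∫⁻ x, ‖g x‖ₑ ^ (2 : ℝ) ∂(sg n) ≤ ENNReal.ofReal (S ^ 2) →
      ∫⁻ z, ‖T g z‖ₑ ^ P ≤ C * ENNReal.ofReal (S ^ P) := by
  obtain ⟨C, hC, hw⟩ := Pool.Agent.H789R2.FR.weak n hn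
  have hsg : IsFiniteMeasure (sg n) := sg_finite n
  have hn' : (2 : ℝ) ≤ n := by exact_mod_cast hn
  have hn1 : 0 < (n : ℝ) - 1 := by linarith
  set q : ℝ := ((n : ℝ) + 1) / ((n : ℝ) - 1) with hq
  have hq1 : 1 ≤ q := by rw [hq, le_div_iff₀ hn1]; linarith
  have hPq : 2 * q < P := by rw [hq, ← mul_div_assoc]; exact hP
  have hP0 : 0 < P := by linarith
  have hpos : 0 < P - 2 * q - 1 + 1 := by linarith
  set K : ℝ := (sg n).real univ + 1 with hK
  have hK0 : 0 < K := by positivity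
  refine ⟨Real.toNNReal (P * (C * ((2 * K) ^ (P - 2 * q - 1 + 1) / (P - 2 * q - 1 + 1)))),
    fun g hg hb S hS0 hmass => ?_⟩
  obtain ⟨M, hb⟩ := hb
  have hTm : Measurable (T g) := T_meas' g hg
  have hgi : Integrable (fun x => ‖g x‖ ^ 2) (sg n) := by
    refine Integrable.of_bound (hg.norm.pow_const 2).aestronglyMeasurable (M ^ 2)
      (Filter.Eventually.of_forall fun z => ?_)
    rw [Real.norm_eq_abs, abs_of_nonneg (by positivity)]
    gcongr
    exact hb z
  have hmr : ∫ w, ‖g w‖ ^ 2 ∂(sg n) ≤ S ^ 2 := by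
    have e : ∫⁻ x, ‖g x‖ₑ ^ (2 : ℝ) ∂(sg n) = ENNReal.ofReal (∫ w, ‖g w‖ ^ 2 ∂(sg n)) := by
      rw [ofReal_integral_eq_lintegral_ofReal hgi
        (Filter.Eventually.of_forall fun x => by positivity)]
      refine lintegral_congr fun x => ?_
      rw [enorm_sq]
    rw [e] at hmass
    exact (ENNReal.ofReal_le_ofReal_iff (by positivity)).1 hmass
  have hTb : ∀ x, ‖T g x‖ ≤ K * S := fun x => by
    have h1 := T_mass g x
    have h2 := jensenp (sg n) (fun x => ‖g x‖ₑ) hg.enorm.aemeasurable 2 (by norm_num)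
    have h3 : (∫⁻ x, ‖g x‖ₑ ∂(sg n)) ^ (2 : ℝ) ≤ ENNReal.ofReal ((K * S) ^ (2 : ℝ)) := by
      refine h2.trans ?_
      have hun : (sg n) univ = ENNReal.ofReal ((sg n).real univ) := by
        rw [Measure.real, ENNReal.ofReal_toReal (measure_lt_top _ _).ne]
      calc (sg n) univ ^ ((2 : ℝ) - 1) * ∫⁻ x, ‖g x‖ₑ ^ (2 : ℝ) ∂(sg n)
          ≤ ENNReal.ofReal K * ENNReal.ofReal (S ^ 2) := by
            gcongr
            rw [show (2 : ℝ) - 1 = 1 by norm_num, ENNReal.rpow_one, hun]
            apply ENNReal.ofReal_le_ofReal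
            rw [hK]; linarith
        _ ≤ _ := by
            rw [← ENNReal.ofReal_mul hK0.le]
            apply ENNReal.ofReal_le_ofReal
            rw [Real.rpow_two, mul_pow]
            gcongr
            have : 1 ≤ K := by
              rw [hK]
              have : 0 ≤ (sg n).real univ := measureReal_nonneg
              linarith
            nlinarith
    rw [← ENNReal.ofReal_rpow_of_nonneg (by positivity) (by norm_num)] at h3
    have h4 := (ENNReal.rpow_le_rpow_iff (by norm_num : (0 : ℝ) < 2)).1 h3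
    have h5 := h1.trans h4
    rw [← ofReal_norm] at h5
    exact (ENNReal.ofReal_le_ofReal_iff (by positivity)).1 h5
  have hH0 : 0 ≤ ∫ w, ‖g w‖ ^ 2 ∂(sg n) := integral_nonneg fun w => by positivity
  -- level sets
  have hlev : ∀ t : ℝ, 0 < t → volume {x | t < ‖T g x‖} ≤
      ENNReal.ofReal (C * S ^ (2 * q) * t ^ (-(2 * q))) := by
    intro t ht
    have hms : MeasurableSet {x | t < ‖T g x‖} := measurableSet_lt measurable_const hTm.norm
    have hun : {x | t < ‖T g x‖} = ⋃ N : ℕ, {x | t < ‖T g x‖} ∩ Metric.closedBall (0 : E n) N := by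
      rw [← inter_iUnion, Metric.iUnion_closedBall_nat, inter_univ]
    rw [hun, Monotone.measure_iUnion]
    · apply iSup_le
      intro N
      have hfin : volume ({x | t < ‖T g x‖} ∩ Metric.closedBall (0 : E n) N) ≠ ⊤ :=
        ((measure_mono inter_subset_right).trans_lt measure_closedBall_lt_top).ne
      have h1 := hw g hg ⟨M, hb⟩ t ht ({x | t < ‖T g x‖} ∩ Metric.closedBall (0 : E n) N)
        (hms.inter measurableSet_closedBall)
        (Metric.isBounded_closedBall.subset inter_subset_right) (fun x hx => le_of_lt hx.1)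
      rw [← ENNReal.ofReal_toReal hfin]
      apply ENNReal.ofReal_le_ofReal
      change volume.real _ ≤ _
      refine h1.trans ?_
      have h2 : (∫ w, ‖g w‖ ^ 2 ∂(sg n)) / t ^ 2 ≤ S ^ 2 / t ^ 2 := by gcongr
      have h3 : ((∫ w, ‖g w‖ ^ 2 ∂(sg n)) / t ^ 2) ^ (((n : ℝ) + 1) / ((n : ℝ) - 1)) ≤
          (S ^ 2 / t ^ 2) ^ q := Real.rpow_le_rpow (by positivity) h2 (by linarith)
      have h4 : (S ^ 2 / t ^ 2) ^ q = S ^ (2 * q) * t ^ (-(2 * q)) := by
        rw [Real.div_rpow (by positivity) (by positivity), ← Real.rpow_natCast t 2,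
          ← Real.rpow_natCast S 2, ← Real.rpow_mul ht.le, ← Real.rpow_mul hS0.le,
          Real.rpow_neg ht.le, div_eq_mul_inv]
        norm_num
      rw [mul_assoc, ← h4]
      gcongr
    · intro a b hab
      apply inter_subset_inter_right
      apply Metric.closedBall_subset_closedBall
      exact_mod_cast hab
  have hlayer := lintegral_rpow_eq_lintegral_meas_lt_mul (volume : Measure (E n))
    (f := fun x => ‖T g x‖) (Filter.Eventually.of_forall fun x => norm_nonneg _)
    hTm.norm.aemeasurable hP0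
  have e1 : ∀ x, ‖T g x‖ₑ ^ P = ENNReal.ofReal (‖T g x‖ ^ P) := by
    intro x
    rw [← ofReal_norm, ENNReal.ofReal_rpow_of_nonneg (norm_nonneg _) hP0.le]
  simp only [e1]
  rw [hlayer]
  have h5 : ∫⁻ t in Ioi (0 : ℝ), volume {a | t < ‖T g a‖} * ENNReal.ofReal (t ^ (P - 1)) ≤
      ∫⁻ t in Ioo (0 : ℝ) (2 * K * S), ENNReal.ofReal (C * S ^ (2 * q)) *
        ENNReal.ofReal (t ^ (P - 2 * q - 1)) := by
    rw [← lintegral_indicator measurableSet_Ioi, ← lintegral_indicator measurableSet_Ioo]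
    apply lintegral_mono
    intro t
    by_cases h0 : 0 < t
    · have m0 : t ∈ Ioi (0 : ℝ) := h0
      by_cases h1 : t < 2 * K * S
      · have m1 : t ∈ Ioo (0 : ℝ) (2 * K * S) := ⟨h0, h1⟩
        simp only [indicator_of_mem m0, indicator_of_mem m1]
        calc volume {a | t < ‖T g a‖} * ENNReal.ofReal (t ^ (P - 1))
            ≤ ENNReal.ofReal (C * S ^ (2 * q) * t ^ (-(2 * q))) * ENNReal.ofReal (t ^ (P - 1)) := by
              gcongr
              exact hlev t h0
          _ = _ := by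
              rw [← ENNReal.ofReal_mul (by positivity), ← ENNReal.ofReal_mul (by positivity)]
              congr 1
              rw [mul_assoc, ← Real.rpow_add h0]
              congr 2
              ring
      · have m1 : t ∉ Ioo (0 : ℝ) (2 * K * S) := fun h => h1 h.2
        simp only [indicator_of_mem m0, indicator_of_notMem m1]
        have : {a | t < ‖T g a‖} = ∅ := by
          ext a
          simp only [mem_ofPred_eq, mem_empty_iff_false, iff_false, not_lt]
          have h6 := hTb a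
          have h7 : 0 < K * S := by positivity
          nlinarith
        rw [this, measure_empty, zero_mul]
    · have m0 : t ∉ Ioi (0 : ℝ) := h0
      simp only [indicator_of_notMem m0]
      exact zero_le
  calc ENNReal.ofReal P * ∫⁻ t in Ioi (0 : ℝ), volume {a | t < ‖T g a‖} *
        ENNReal.ofReal (t ^ (P - 1))
      ≤ ENNReal.ofReal P * (ENNReal.ofReal (C * S ^ (2 * q)) *
        ENNReal.ofReal ((2 * K * S) ^ (P - 2 * q - 1 + 1) / (P - 2 * q - 1 + 1))) := by
        gcongr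
        refine h5.trans ?_
        rw [lintegral_const_mul' _ _ ENNReal.ofReal_ne_top,
          Pool.Agent.H438R2.BR.T7.lint_pow (2 * K * S) (P - 2 * q - 1) (by positivity)
            (by linarith)]
    _ = _ := by
        rw [← ENNReal.ofReal_mul (by positivity), ← ENNReal.ofReal_mul hP0.le,
          ← ENNReal.ofReal_coe_nnreal, ← ENNReal.ofReal_mul (by positivity),
          Real.coe_toNNReal _ (by positivity)]
        congr 1
        rw [Real.mul_rpow (by positivity) hS0.le]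
        have e2 : S ^ (2 * q) * S ^ (P - 2 * q - 1 + 1) = S ^ P := by
          rw [← Real.rpow_add hS0]
          congr 1
          ring
        rw [← e2]
        ring

/-! ### rotations of the whole space -/

/-- rotation in the first two coordinates -/
noncomputable def rR (θ : ℝ) (z : E (2 + m)) : E (2 + m) := J (rot θ (P1 2 m z)) (P2 2 m z)

theorem J_add' (x x' : E 2) (y y' : E m) : J x y + J x' y' = J (x + x') (y + y') := by
  unfold J
  ext i
  refine Fin.addCases (fun j => ?_) (fun j => ?_) i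
  · simp [Fin.append_left]
  · simp [Fin.append_right]

theorem J_smul' (c : ℝ) (x : E 2) (y : E m) : J (c • x) (c • y) = c • J x y := by
  unfold J
  ext i
  refine Fin.addCases (fun j => ?_) (fun j => ?_) i
  · simp [Fin.append_left]
  · simp [Fin.append_right]

theorem P_add (z z' : E (2 + m)) : P1 2 m (z + z') = P1 2 m z + P1 2 m z' ∧
    P2 2 m (z + z') = P2 2 m z + P2 2 m z' := by
  have h := J_add' (P1 2 m z) (P1 2 m z') (P2 2 m z) (P2 2 m z')
  rw [J_P, J_P] at h
  rw [h, P1_J, P2_J]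
  exact ⟨rfl, rfl⟩

theorem P_smul (c : ℝ) (z : E (2 + m)) : P1 2 m (c • z) = c • P1 2 m z ∧
    P2 2 m (c • z) = c • P2 2 m z := by
  have h := J_smul' c (P1 2 m z) (P2 2 m z)
  rw [J_P] at h
  rw [← h, P1_J, P2_J]
  exact ⟨rfl, rfl⟩

noncomputable def rRl (θ : ℝ) : E (2 + m) →ₗ[ℝ] E (2 + m) where
  toFun := rR θ
  map_add' z z' := by
    unfold rR
    rw [(P_add z z').1, (P_add z z').2, map_add, J_add']
  map_smul' c z := by
    unfold rR
    rw [(P_smul c z).1, (P_smul c z).2, map_smul, J_smul']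
    rfl

theorem rR_rR (θ : ℝ) (z : E (2 + m)) : rR θ (rR (-θ) z) = z := by
  unfold rR
  rw [P1_J, P2_J, rot_apply, rot_apply, rv_rv, J_P]

theorem rR_norm (θ : ℝ) (z : E (2 + m)) : ‖rR θ z‖ = ‖z‖ := by
  have h1 : ‖rR θ z‖ ^ 2 = ‖z‖ ^ 2 := by
    rw [← real_inner_self_eq_norm_sq, ← real_inner_self_eq_norm_sq]
    unfold rR
    rw [J_inner, LinearIsometryEquiv.inner_map_map, ← J_inner, J_P]
  exact (pow_left_inj₀ (norm_nonneg _) (norm_nonneg _) (by norm_num)).1 h1

/-- rotation in the first two coordinates, as an isometry -/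
noncomputable def RR (θ : ℝ) : E (2 + m) ≃ₗᵢ[ℝ] E (2 + m) where
  toLinearEquiv := LinearEquiv.ofLinearMap (rRl θ) (rRl (-θ))
    (LinearMap.ext fun x => rR_rR θ x)
    (LinearMap.ext fun x => by
      have := rR_rR (-θ) x
      rw [neg_neg] at this
      exact this)
  norm_map' z := rR_norm θ z

theorem RR_apply (θ : ℝ) (z : E (2 + m)) : RR θ z = rR θ z := rfl

theorem RR_J (θ : ℝ) (x : E 2) (t : E m) : RR θ (J x t) = J (rot θ x) t := by
  rw [RR_apply]
  unfold rR
  rw [P1_J, P2_J]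

/-- the difference of the density and its rotation -/
noncomputable def Dd (θ : ℝ) (G : E (2 + m) → ℂ) (z : E (2 + m)) : ℂ := G z - G (RR θ z)

theorem Dd_meas (θ : ℝ) (G : E (2 + m) → ℂ) (hG : Measurable G) : Measurable (Dd θ G) :=
  hG.sub (hG.comp (RR θ).continuous.measurable)

theorem T_Dd (θ : ℝ) (G : E (2 + m) → ℂ) (hG : Measurable G) (hb : ∀ z, ‖G z‖ ≤ 1)
    (x : E 2) (t : E m) :
    T (Dd θ G) (J x t) = T G (J x t) - T G (J (rot θ x) t) := by
  have hfin := sg_finite (2 + m)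
  have h1 : T (fun z => G (RR θ z)) (J x t) = T G (J (rot θ x) t) := by
    rw [T_comp, RR_J]
  rw [← h1]
  have k : Measurable fun z : E (2 + m) => (J x t, z) := measurable_const.prodMk measurable_id
  have mp := (ph_meas (n := 2 + m)).comp k
  have hG2 : Measurable fun z => G (RR θ z) := hG.comp (RR θ).continuous.measurable
  have i1 : Integrable (fun z => ph (J x t) z * G z) (sg (2 + m)) := by
    refine Integrable.of_bound (mp.mul hG).aestronglyMeasurable 1
      (Filter.Eventually.of_forall fun z => ?_)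
    rw [norm_mul, ph_norm, one_mul]
    exact hb z
  have i2 : Integrable (fun z => ph (J x t) z * G (RR θ z)) (sg (2 + m)) := by
    refine Integrable.of_bound (mp.mul hG2).aestronglyMeasurable 1
      (Filter.Eventually.of_forall fun z => ?_)
    rw [norm_mul, ph_norm, one_mul]
    exact hb _
  have e1 : T (Dd θ G) (J x t) = ∫ z, ph (J x t) z * Dd θ G z ∂(sg (2 + m)) := rfl
  have e2 : T G (J x t) = ∫ z, ph (J x t) z * G z ∂(sg (2 + m)) := rfl
  have e3 : T (fun z => G (RR θ z)) (J x t) = ∫ z, ph (J x t) z * G (RR θ z) ∂(sg (2 + m)) := rfl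
  rw [e1, e2, e3, ← integral_sub i1 i2]
  refine integral_congr_ae (Filter.Eventually.of_forall fun z => ?_)
  simp only
  unfold Dd
  ring

/-! ### the cut-off -/

theorem ch_int (δ : ℝ) (hδ : 0 < δ) : ∫ θ in Ioc 0 δ, ch δ θ = 1 := by
  rw [← intervalIntegral.integral_of_le hδ.le]
  have hd : ∀ θ ∈ uIcc 0 δ, HasDerivAt (fun θ : ℝ => (3 * δ * θ ^ 2 - 2 * θ ^ 3) / δ ^ 3)
      (ch δ θ) θ := by
    intro θ _
    have h1 : HasDerivAt (fun θ : ℝ => (3 * δ * θ ^ 2 - 2 * θ ^ 3) / δ ^ 3)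
        ((3 * δ * (2 * θ ^ 1) - 2 * (3 * θ ^ 2)) / δ ^ 3) θ := by
      have h2 := (((hasDerivAt_pow 2 θ).const_mul (3 * δ)).sub
        ((hasDerivAt_pow 3 θ).const_mul 2)).div_const (δ ^ 3)
      refine h2.congr_deriv ?_
      norm_num
    refine h1.congr_deriv ?_
    unfold ch
    ring
  rw [intervalIntegral.integral_eq_sub_of_hasDerivAt hd ((ch_cont δ).intervalIntegrable _ _)]
  field_simp
  ring

/-- the weight in the angle -/
noncomputable def wc (δ θ : ℝ) : ℝ≥0∞ := ENNReal.ofReal (ch δ θ)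

theorem wc_meas (δ : ℝ) : Measurable (wc δ) := (ch_cont δ).measurable.ennreal_ofReal

theorem wc_int (δ : ℝ) (hδ : 0 < δ) : ∫⁻ θ in Ioc 0 δ, wc δ θ = 1 := by
  unfold wc
  rw [← ofReal_integral_eq_lintegral_ofReal, ch_int δ hδ, ENNReal.ofReal_one]
  · exact ((ch_cont δ).integrableOn_Icc).mono_set Ioc_subset_Icc_self
  · filter_upwards [ae_restrict_mem measurableSet_Ioc] with θ hθ
    exact ch_nonneg δ θ hδ hθ.1.le hθ.2

theorem avg_pow (δ : ℝ) (hδ : 0 < δ) (V : ℝ → ℝ≥0∞) (hV : Measurable V) (s : ℝ) (hs : 1 < s) :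
    (∫⁻ θ in Ioc 0 δ, wc δ θ * V θ) ^ s ≤ ∫⁻ θ in Ioc 0 δ, wc δ θ * V θ ^ s := by
  have h1 := jensenp ((volume.restrict (Ioc 0 δ)).withDensity (wc δ)) V hV.aemeasurable s hs
  rw [lintegral_withDensity_eq_lintegral_mul _ (wc_meas δ) hV,
    lintegral_withDensity_eq_lintegral_mul _ (wc_meas δ) (hV.pow_const s),
    withDensity_apply _ MeasurableSet.univ, Measure.restrict_univ, wc_int δ hδ,
    ENNReal.one_rpow, one_mul] at h1
  exact h1

/-- the difference part -/
noncomputable def BB (δ : ℝ) (G : E (2 + m) → ℂ) (x : E 2) (t : E m) : ℂ :=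
  T G (J x t) - AA δ G x t

theorem TJ_meas (G : E (2 + m) → ℂ) (hG : Measurable G) :
    Measurable fun p : E 2 × E m => T G (J p.1 p.2) := by
  have h := (T_meas' G hG).comp (J_meas (k := 2) (d := m))
  exact h

theorem Trot_meas (G : E (2 + m) → ℂ) (hG : Measurable G) :
    Measurable fun p : (E 2 × E m) × ℝ => T G (J (rot p.2 p.1.1) p.1.2) := by
  have k1 : Measurable fun p : (E 2 × E m) × ℝ => (p.2, p.1.1) :=
    measurable_snd.prodMk (measurable_fst.comp measurable_fst)
  have k2 := (rot_meas.comp k1).prodMk (measurable_snd.comp (measurable_fst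
    (α := E 2 × E m) (β := ℝ)))
  have h := (TJ_meas G hG).comp k2
  exact h

theorem Trot_meas1 (G : E (2 + m) → ℂ) (hG : Measurable G) (x : E 2) (t : E m) :
    Measurable fun θ : ℝ => T G (J (rot θ x) t) := by
  have k : Measurable fun θ : ℝ => (((x, t), θ) : (E 2 × E m) × ℝ) :=
    measurable_const.prodMk measurable_id
  have h := (Trot_meas G hG).comp k
  exact h

theorem AA_le (δ : ℝ) (hδ : 0 < δ) (G : E (2 + m) → ℂ) (x : E 2) (t : E m) :
    ‖AA δ G x t‖ₑ ≤ ∫⁻ θ in Ioc 0 δ, wc δ θ * ‖T G (J (rot θ x) t)‖ₑ := by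
  unfold AA
  refine (enorm_integral_le_lintegral_enorm _).trans ?_
  refine setLIntegral_mono' measurableSet_Ioc fun θ hθ => ?_
  rw [enorm_mul]
  refine mul_le_mul' ?_ le_rfl
  unfold wc
  rw [← ofReal_norm, Complex.norm_real, Real.norm_of_nonneg (ch_nonneg δ θ hδ hθ.1.le hθ.2)]

theorem BB_le (δ : ℝ) (hδ : 0 < δ) (G : E (2 + m) → ℂ) (hG : Measurable G)
    (hb : ∀ z, ‖G z‖ ≤ 1) (x : E 2) (t : E m) :
    ‖BB δ G x t‖ₑ ≤ ∫⁻ θ in Ioc 0 δ, wc δ θ * ‖T (Dd θ G) (J x t)‖ₑ := by
  have hic : IntegrableOn (fun θ => ch δ θ) (Ioc 0 δ) :=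
    ((ch_cont δ).integrableOn_Icc).mono_set Ioc_subset_Icc_self
  have hic2 : IntegrableOn (fun θ => (ch δ θ : ℂ)) (Ioc 0 δ) := hic.ofReal
  have i2 : IntegrableOn (fun θ => (ch δ θ : ℂ) * T G (J (rot θ x) t)) (Ioc 0 δ) := by
    refine Integrable.mul_bdd (c := 1 * (sg (2 + m)).real univ) hic2
      (Trot_meas1 G hG x t).aestronglyMeasurable (Filter.Eventually.of_forall fun θ => ?_)
    exact T_le G 1 hb _
  have h1 : BB δ G x t = ∫ θ in Ioc 0 δ, (ch δ θ : ℂ) * T (Dd θ G) (J x t) := by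
    have e1 : T G (J x t) = ∫ θ in Ioc 0 δ, (ch δ θ : ℂ) * T G (J x t) := by
      rw [integral_mul_const, integral_complex_ofReal, ch_int δ hδ, ofReal_one, one_mul]
    unfold BB AA
    conv_lhs => rw [e1]
    rw [← integral_sub (hic2.mul_const _) i2]
    refine integral_congr_ae (Filter.Eventually.of_forall fun θ => ?_)
    simp only
    rw [T_Dd θ G hG hb]
    ring
  rw [h1]
  refine (enorm_integral_le_lintegral_enorm _).trans ?_
  refine setLIntegral_mono' measurableSet_Ioc fun θ hθ => ?_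
  rw [enorm_mul]
  refine mul_le_mul' ?_ le_rfl
  unfold wc
  rw [← ofReal_norm, Complex.norm_real, Real.norm_of_nonneg (ch_nonneg δ θ hδ hθ.1.le hθ.2)]

end Pool.Agent.Run7.h58.LR
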