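import Mathlib
import Pool.Agent.Run7.h58.LR.Bad
set_option autoImplicit false

/-! Estimates over shells; interpolation; summation. -/

namespace Pool.Agent.Run7.h58.LR

open MeasureTheory Set Complex Filter
open scoped ENNReal NNReal RealInnerProductSpace FourierTransform
open Pool.Agent.H789R2.FR (E sg T sg_finite sg_ae sg_inv L2_bound)
open Pool.Agent.H438R2.BR (Q J J_mp J_inner)
open Pool.Agent.H438R2.PD (T_meas' T_le T_comp P1 P2 P1_J P2_J P1_meas P2_meas)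
open Pool.Agent.TH335.RF (RT geo)

variable {m : ℕ}

/-- the cylinder -/
def Cy (R : ℝ) : Set (E 2) := {x | ‖x‖ ≤ 2 * R}

theorem Cy_meas (R : ℝ) : MeasurableSet (Cy R) := measurableSet_le measurable_norm measurable_const

theorem Sh_sub (R : ℝ) : Sh R ⊆ Cy R := fun _ hx => hx.2

theorem Cy_rot (R θ : ℝ) (x : E 2) : rot θ x ∈ Cy R ↔ x ∈ Cy R := by
  unfold Cy
  simp only [mem_ofPred_eq, (rot θ).norm_map]

theorem N2_le (hm : 1 ≤ m) : ∃ N : ℝ≥0, ∀ G : E (2 + m) → ℂ, (∀ z, ‖G z‖ ≤ 1) → N2 G ≤ N := by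
  have hfin := sg_finite 2
  have hfin1 := sg_finite (1 + m)
  have hne : sg 2 univ * sg (1 + m) univ ≠ ⊤ :=
    ENNReal.mul_ne_top (measure_lt_top _ _).ne (measure_lt_top _ _).ne
  refine ⟨(sg 2 univ * sg (1 + m) univ).toNNReal, fun G hb => ?_⟩
  rw [ENNReal.coe_toNNReal hne]
  have hf : Measurable fun z : E (2 + m) => (ENNReal.ofReal ‖P1 2 m z‖)⁻¹ :=
    (P1_meas 2 m).norm.ennreal_ofReal.inv
  calc N2 G ≤ ∫⁻ z, (ENNReal.ofReal ‖P1 2 m z‖)⁻¹ ∂(sg (2 + m)) := by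
        unfold N2
        refine lintegral_mono fun z => ?_
        calc (ENNReal.ofReal ‖P1 2 m z‖)⁻¹ * ‖G z‖ₑ ^ (2 : ℝ)
            ≤ (ENNReal.ofReal ‖P1 2 m z‖)⁻¹ * 1 := by
              gcongr
              refine ENNReal.rpow_le_one ?_ (by norm_num)
              rw [← ofReal_norm, ENNReal.ofReal_le_one]
              exact hb z
          _ = _ := mul_one _
    _ = ∫⁻ η : E (1 + m), ENNReal.ofReal (hh η) *
        ∫⁻ u, (ENNReal.ofReal ‖P1 2 m (J (hh η • u) (yy η))‖)⁻¹ ∂(sg 2) ∂(sg (1 + m)) :=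
        sph hm _ hf
    _ ≤ ∫⁻ _η : E (1 + m), sg 2 univ ∂(sg (1 + m)) := by
        refine lintegral_mono fun η => ?_
        by_cases hη : 0 < hh η
        · have h1 : ∀ᵐ u ∂(sg 2), (ENNReal.ofReal ‖P1 2 m (J (hh η • u) (yy η))‖)⁻¹ =
              (ENNReal.ofReal (hh η))⁻¹ := by
            filter_upwards [sg_ae 2] with u hu
            rw [P1_J, norm_smul, hu, mul_one, Real.norm_of_nonneg hη.le]
          rw [lintegral_congr_ae h1, lintegral_const, ← mul_assoc,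
            ENNReal.mul_inv_cancel (by simpa using hη) ENNReal.ofReal_ne_top, one_mul]
        · rw [ENNReal.ofReal_of_nonpos (not_lt.1 hη), zero_mul]
          exact zero_le
    _ = _ := by rw [lintegral_const]

theorem swap3 (δ : ℝ) (A : Set (E 2)) (V : (E 2 × E m) × ℝ → ℝ≥0∞) (hV : Measurable V) :
    ∫⁻ x in A, ∫⁻ t, ∫⁻ θ in Ioc 0 δ, wc δ θ * V ((x, t), θ) =
      ∫⁻ θ in Ioc 0 δ, wc δ θ * ∫⁻ x in A, ∫⁻ t : E m, V ((x, t), θ) := by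
  have hwV : Measurable fun p : (E 2 × E m) × ℝ => wc δ p.2 * V p :=
    ((wc_meas δ).comp measurable_snd).mul hV
  have e1 : ∫⁻ x in A, ∫⁻ t : E m, ∫⁻ θ in Ioc 0 δ, wc δ θ * V ((x, t), θ) =
      ∫⁻ x in A, ∫⁻ θ in Ioc 0 δ, ∫⁻ t : E m, wc δ θ * V ((x, t), θ) := by
    refine lintegral_congr fun x => ?_
    have k : Measurable fun p : E m × ℝ => (((x, p.1), p.2) : (E 2 × E m) × ℝ) :=
      (measurable_const.prodMk measurable_fst).prodMk measurable_snd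
    have k1 := hwV.comp k
    have k2 : Measurable (Function.uncurry fun (t : E m) (θ : ℝ) => wc δ θ * V ((x, t), θ)) := k1
    exact lintegral_lintegral_swap k2.aemeasurable
  have k : Measurable fun p : (E 2 × ℝ) × E m => (((p.1.1, p.2), p.1.2) : (E 2 × E m) × ℝ) :=
    ((measurable_fst.comp measurable_fst).prodMk measurable_snd).prodMk
      (measurable_snd.comp measurable_fst)
  have k1 := hwV.comp k
  have k2 : Measurable fun p : (E 2 × ℝ) × E m => wc δ p.1.2 * V ((p.1.1, p.2), p.1.2) := k1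
  have k3 : Measurable (Function.uncurry fun (x : E 2) (θ : ℝ) => ∫⁻ t : E m,
    wc δ θ * V ((x, t), θ)) := k2.lintegral_prod_right'
  have e2 : ∫⁻ x in A, ∫⁻ θ in Ioc 0 δ, ∫⁻ t : E m, wc δ θ * V ((x, t), θ) =
      ∫⁻ θ in Ioc 0 δ, ∫⁻ x in A, ∫⁻ t : E m, wc δ θ * V ((x, t), θ) :=
    lintegral_lintegral_swap k3.aemeasurable
  rw [e1, e2]
  refine lintegral_congr fun θ => ?_
  have hc : wc δ θ ≠ ⊤ := ENNReal.ofReal_ne_top
  rw [← lintegral_const_mul' _ _ hc]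
  refine lintegral_congr fun x => ?_
  rw [lintegral_const_mul' _ _ hc]

theorem AA_L2 (hm : 1 ≤ m) : ∃ C : ℝ≥0, ∀ G : E (2 + m) → ℂ, Measurable G → (∀ z, ‖G z‖ ≤ 1) →
    ∀ R δ : ℝ, 0 < R → 0 < δ →
    ∫⁻ x in Cy R, ∫⁻ t, ‖AA δ G x t‖ₑ ^ (2 : ℝ) ≤ C * ENNReal.ofReal R := by
  obtain ⟨C, hC⟩ := cyl hm
  obtain ⟨N, hN⟩ := N2_le hm
  refine ⟨C * N, fun G hG hb R δ hR hδ => ?_⟩
  have hF : Measurable fun p : E 2 × E m => ‖T G (J p.1 p.2)‖ₑ ^ (2 : ℝ) :=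
    (TJ_meas G hG).enorm.pow_const _
  calc ∫⁻ x in Cy R, ∫⁻ t, ‖AA δ G x t‖ₑ ^ (2 : ℝ)
      ≤ ∫⁻ x in Cy R, ∫⁻ t, ∫⁻ θ in Ioc 0 δ, wc δ θ * ‖T G (J (rot θ x) t)‖ₑ ^ (2 : ℝ) := by
        refine lintegral_mono fun x => lintegral_mono fun t => ?_
        have h1 := AA_le δ hδ G x t
        exact (ENNReal.rpow_le_rpow h1 (by norm_num)).trans
          (avg_pow δ hδ _ (Trot_meas1 G hG x t).enorm 2 (by norm_num))
    _ = (∫⁻ θ in Ioc 0 δ, wc δ θ) * ∫⁻ x in Cy R, ∫⁻ t, ‖T G (J x t)‖ₑ ^ (2 : ℝ) :=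
        rot_avg δ R (fun x t => ‖T G (J x t)‖ₑ ^ (2 : ℝ)) hF (wc δ) (wc_meas δ) (Cy R)
          (Cy_meas R) (Cy_rot R)
    _ ≤ 1 * (C * ENNReal.ofReal R * N) := by
        rw [wc_int δ hδ]
        gcongr
        refine (hC G hG ⟨1, hb⟩ R hR).trans ?_
        gcongr
        exact hN G hb
    _ = _ := by
        push_cast
        ring

theorem Dd_le (θ : ℝ) (G : E (2 + m) → ℂ) (hb : ∀ z, ‖G z‖ ≤ 1) (z : E (2 + m)) :
    ‖Dd θ G z‖ ≤ 2 := by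
  unfold Dd
  calc _ ≤ ‖G z‖ + ‖G (RR θ z)‖ := norm_sub_le _ _
    _ ≤ 1 + 1 := add_le_add (hb _) (hb _)
    _ = 2 := by norm_num

theorem TD_meas (G : E (2 + m) → ℂ) (hG : Measurable G) (hb : ∀ z, ‖G z‖ ≤ 1) :
    Measurable fun p : (E 2 × E m) × ℝ => T (Dd p.2 G) (J p.1.1 p.1.2) := by
  have h : (fun p : (E 2 × E m) × ℝ => T (Dd p.2 G) (J p.1.1 p.1.2)) =
      fun p => T G (J p.1.1 p.1.2) - T G (J (rot p.2 p.1.1) p.1.2) := by
    funext p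
    exact T_Dd p.2 G hG hb p.1.1 p.1.2
  rw [h]
  have k : Measurable fun p : (E 2 × E m) × ℝ => p.1 := measurable_fst
  have h1 := (TJ_meas G hG).comp k
  have h2 := h1.sub (Trot_meas G hG)
  exact h2

theorem BB_pow (G : E (2 + m) → ℂ) (hG : Measurable G) (hb : ∀ z, ‖G z‖ ≤ 1) (δ : ℝ) (hδ : 0 < δ)
    (s : ℝ) (hs : 1 < s) (A : Set (E 2)) (K : ℝ≥0∞)
    (hK : ∀ θ ∈ Ioc 0 δ, ∫⁻ x in A, ∫⁻ t, ‖T (Dd θ G) (J x t)‖ₑ ^ s ≤ K) :
    ∫⁻ x in A, ∫⁻ t, ‖BB δ G x t‖ₑ ^ s ≤ K := by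
  have hV : Measurable fun p : (E 2 × E m) × ℝ => ‖T (Dd p.2 G) (J p.1.1 p.1.2)‖ₑ ^ s :=
    (TD_meas G hG hb).enorm.pow_const _
  have hV1 : ∀ (x : E 2) (t : E m), Measurable fun θ : ℝ => ‖T (Dd θ G) (J x t)‖ₑ := by
    intro x t
    have k : Measurable fun θ : ℝ => (((x, t), θ) : (E 2 × E m) × ℝ) :=
      measurable_const.prodMk measurable_id
    have h := ((TD_meas G hG hb).comp k).enorm
    exact h
  calc ∫⁻ x in A, ∫⁻ t, ‖BB δ G x t‖ₑ ^ s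
      ≤ ∫⁻ x in A, ∫⁻ t, ∫⁻ θ in Ioc 0 δ, wc δ θ * ‖T (Dd θ G) (J x t)‖ₑ ^ s := by
        refine lintegral_mono fun x => lintegral_mono fun t => ?_
        have h1 := BB_le δ hδ G hG hb x t
        exact (ENNReal.rpow_le_rpow h1 (by linarith)).trans (avg_pow δ hδ _ (hV1 x t) s hs)
    _ = ∫⁻ θ in Ioc 0 δ, wc δ θ * ∫⁻ x in A, ∫⁻ t, ‖T (Dd θ G) (J x t)‖ₑ ^ s :=
        swap3 δ A (fun p => ‖T (Dd p.2 G) (J p.1.1 p.1.2)‖ₑ ^ s) hV
    _ ≤ ∫⁻ θ in Ioc 0 δ, wc δ θ * K := by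
        refine setLIntegral_mono' measurableSet_Ioc fun θ hθ => ?_
        exact mul_le_mul' le_rfl (hK θ hθ)
    _ = K := by
        rw [lintegral_mul_const _ (wc_meas δ), wc_int δ hδ, one_mul]

theorem BB_L2 (hm : 1 ≤ m) (κ : ℝ) (hκ : 0 < κ) (K : ℝ) (hK : 0 < K) : ∃ C : ℝ≥0,
    ∀ G : E (2 + m) → ℂ, Measurable G → (∀ z, ‖G z‖ ≤ 1) → ∀ R δ : ℝ, 0 < R → 0 < δ →
    (∀ θ ∈ Ioc 0 δ, N2 (Dd θ G) ≤ ENNReal.ofReal (K ^ 2 * θ ^ (2 * κ))) →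
    ∫⁻ x in Cy R, ∫⁻ t, ‖BB δ G x t‖ₑ ^ (2 : ℝ) ≤ C * ENNReal.ofReal (R * δ ^ (2 * κ)) := by
  obtain ⟨C, hC⟩ := cyl hm
  refine ⟨C * Real.toNNReal (K ^ 2), fun G hG hb R δ hR hδ hD => ?_⟩
  refine BB_pow G hG hb δ hδ 2 (by norm_num) (Cy R) _ fun θ hθ => ?_
  refine (hC (Dd θ G) (Dd_meas θ G hG) ⟨2, Dd_le θ G hb⟩ R hR).trans ?_
  calc C * ENNReal.ofReal R * N2 (Dd θ G)
      ≤ C * ENNReal.ofReal R * ENNReal.ofReal (K ^ 2 * δ ^ (2 * κ)) := by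
        refine mul_le_mul' le_rfl ((hD θ hθ).trans ?_)
        apply ENNReal.ofReal_le_ofReal
        refine mul_le_mul_of_nonneg_left ?_ (by positivity)
        exact Real.rpow_le_rpow hθ.1.le hθ.2 (by positivity)
    _ = _ := by
        rw [ENNReal.ofReal_mul (by positivity), ENNReal.ofReal_mul hR.le, ENNReal.coe_mul]
        change _ = C * ENNReal.ofReal (K ^ 2) * _
        ring

theorem N2_ge (G : E (2 + m) → ℂ) :
    ∫⁻ z, ‖G z‖ₑ ^ (2 : ℝ) ∂(sg (2 + m)) ≤ N2 G := by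
  unfold N2
  refine lintegral_mono_ae ?_
  filter_upwards [sg_ae (2 + m)] with z hz
  have h1 : ‖P1 2 m z‖ ≤ 1 := by
    have h2 : ‖P1 2 m z‖ ^ 2 + ‖P2 2 m z‖ ^ 2 = ‖z‖ ^ 2 := by
      rw [← real_inner_self_eq_norm_sq, ← real_inner_self_eq_norm_sq,
        ← real_inner_self_eq_norm_sq, ← J_inner, J_P]
    rw [hz] at h2
    nlinarith [norm_nonneg (P1 2 m z), sq_nonneg ‖P2 2 m z‖]
  have h3 : 1 ≤ (ENNReal.ofReal ‖P1 2 m z‖)⁻¹ := by
    rw [ENNReal.one_le_inv, ENNReal.ofReal_le_one]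
    exact h1
  calc ‖G z‖ₑ ^ (2 : ℝ) = 1 * ‖G z‖ₑ ^ (2 : ℝ) := (one_mul _).symm
    _ ≤ _ := by gcongr

theorem space_J (f : E (2 + m) → ℝ≥0∞) (hf : Measurable f) :
    ∫⁻ ξ, f ξ = ∫⁻ x : E 2, ∫⁻ t : E m, f (J x t) := by
  have h1 := (J_mp 2 m).lintegral_comp hf
  have h2 : ∫⁻ p : E 2 × E m, f (J p.1 p.2) = ∫⁻ ξ, f ξ := h1
  rw [← h2]
  have hm : Measurable fun p : E 2 × E m => f (J p.1 p.2) := by
    have h := hf.comp (J_meas (k := 2) (d := m))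
    exact h
  have h3 := lintegral_prod (μ := (volume : Measure (E 2))) (ν := (volume : Measure (E m)))
    (fun p : E 2 × E m => f (J p.1 p.2)) hm.aemeasurable
  exact h3

theorem BB_LP (κ P : ℝ) (hκ : 0 < κ) (K : ℝ) (hK : 0 < K)
    (hP : 2 * ((2 + m : ℕ) + 1 : ℝ) / (((2 + m : ℕ) : ℝ) - 1) < P) : ∃ C : ℝ≥0,
    ∀ G : E (2 + m) → ℂ, Measurable G → (∀ z, ‖G z‖ ≤ 1) → ∀ δ : ℝ, 0 < δ →
    (∀ θ ∈ Ioc 0 δ, N2 (Dd θ G) ≤ ENNReal.ofReal (K ^ 2 * θ ^ (2 * κ))) → ∀ A : Set (E 2),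
    ∫⁻ x in A, ∫⁻ t, ‖BB δ G x t‖ₑ ^ P ≤ C * ENNReal.ofReal (δ ^ (κ * P)) := by
  obtain ⟨C, hC⟩ := l2ST (2 + m) (by omega) P hP
  have hP1 : 1 < P := by
    refine lt_trans ?_ hP
    have h2 : (1 : ℝ) ≤ ((2 + m : ℕ) : ℝ) - 1 := by
      push_cast
      have : (0 : ℝ) ≤ m := Nat.cast_nonneg m
      linarith
    rw [lt_div_iff₀ (by linarith)]
    linarith
  refine ⟨C * Real.toNNReal (K ^ P), fun G hG hb δ hδ hD A => ?_⟩
  refine BB_pow G hG hb δ hδ P hP1 A _ fun θ hθ => ?_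
  have hm1 : Measurable fun ξ => ‖T (Dd θ G) ξ‖ₑ ^ P :=
    (T_meas' _ (Dd_meas θ G hG)).enorm.pow_const _
  have hθ0 : 0 < θ := hθ.1
  have h1 := hC (Dd θ G) (Dd_meas θ G hG) ⟨2, Dd_le θ G hb⟩ (K * θ ^ κ)
    (mul_pos hK (Real.rpow_pos_of_pos hθ.1 _)) (by
      refine (N2_ge _).trans ((hD θ hθ).trans (le_of_eq ?_))
      congr 1
      rw [mul_pow, ← Real.rpow_natCast (θ ^ κ), ← Real.rpow_mul hθ.1.le]
      congr 2
      push_cast
      ring)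
  rw [space_J _ hm1] at h1
  refine (setLIntegral_le_lintegral _ _).trans (h1.trans ?_)
  calc C * ENNReal.ofReal ((K * θ ^ κ) ^ P) ≤ C * ENNReal.ofReal (K ^ P * δ ^ (κ * P)) := by
        gcongr
        rw [Real.mul_rpow hK.le (by positivity), ← Real.rpow_mul hθ.1.le]
        refine mul_le_mul_of_nonneg_left ?_ (by positivity)
        exact Real.rpow_le_rpow hθ.1.le hθ.2 (mul_pos hκ (by linarith)).le
    _ = _ := by
        rw [ENNReal.ofReal_mul (by positivity), ENNReal.coe_mul]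
        change _ = C * ENNReal.ofReal (K ^ P) * _
        ring

/-! ### interpolation -/

theorem interp {α : Type*} [MeasurableSpace α] (μ : Measure α) (f : α → ℝ≥0∞)
    (hf : Measurable f) (q P : ℝ) (hq : 2 < q) (hqP : q < P) :
    ∫⁻ x, f x ^ q ∂μ ≤ (∫⁻ x, f x ^ (2 : ℝ) ∂μ) ^ ((P - q) / (P - 2)) *
      (∫⁻ x, f x ^ P ∂μ) ^ ((q - 2) / (P - 2)) := by
  have hP2 : 0 < P - 2 := by linarith
  have ha : 0 ≤ (P - q) / (P - 2) := div_nonneg (by linarith) hP2.le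
  have hb : 0 ≤ (q - 2) / (P - 2) := div_nonneg (by linarith) hP2.le
  have hab : (P - q) / (P - 2) + (q - 2) / (P - 2) = 1 := by
    rw [← add_div, div_eq_one_iff_eq hP2.ne']
    ring
  have h := ENNReal.lintegral_mul_norm_pow_le (μ := μ) (f := fun x => f x ^ (2 : ℝ))
    (g := fun x => f x ^ P) (hf.pow_const _).aemeasurable (hf.pow_const _).aemeasurable ha hb hab
  refine le_trans (le_of_eq ?_) h
  refine lintegral_congr fun x => ?_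
  rw [← ENNReal.rpow_mul, ← ENNReal.rpow_mul, ← ENNReal.rpow_add_of_nonneg _ _
    (mul_nonneg (by norm_num) ha) (mul_nonneg (by linarith) hb)]
  congr 1
  field_simp
  ring

theorem interp2 (A : Set (E 2)) (f : E 2 → E m → ℝ≥0∞)
    (hf : Measurable fun p : E 2 × E m => f p.1 p.2) (q P : ℝ) (hq : 2 < q) (hqP : q < P) :
    ∫⁻ x in A, ∫⁻ t, f x t ^ q ≤ (∫⁻ x in A, ∫⁻ t, f x t ^ (2 : ℝ)) ^ ((P - q) / (P - 2)) *
      (∫⁻ x in A, ∫⁻ t, f x t ^ P) ^ ((q - 2) / (P - 2)) := by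
  have h := interp ((volume.restrict A).prod (volume : Measure (E m)))
    (fun p : E 2 × E m => f p.1 p.2) hf q P hq hqP
  have e : ∀ s : ℝ, ∫⁻ p, f p.1 p.2 ^ s ∂((volume.restrict A).prod (volume : Measure (E m))) =
      ∫⁻ x in A, ∫⁻ t, f x t ^ s := by
    intro s
    have hfs : Measurable fun p : E 2 × E m => f p.1 p.2 ^ s := hf.pow_const s
    exact lintegral_prod _ hfs.aemeasurable
  rw [e, e, e] at h
  exact h

end Pool.Agent.Run7.h58.LR
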