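import Mathlib
import Pool.Agent.Run7.h58.LR.Shell
set_option autoImplicit false

/-! The restriction estimate for densities regular in one longitude. -/

namespace Pool.Agent.Run7.h58.LR

open MeasureTheory Set Complex Filter
open scoped ENNReal NNReal RealInnerProductSpace FourierTransform
open Pool.Agent.H789R2.FR (E sg T sg_finite sg_ae sg_inv L2_bound)
open Pool.Agent.H438R2.BR (Q J J_mp J_inner)
open Pool.Agent.H438R2.PD (T_meas' T_le T_comp P1 P2 P1_J P2_J P1_meas P2_meas)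
open Pool.Agent.TH335.RF (RT geo)

variable {m : ℕ}

/-- regularity in the first longitude -/
def Reg (κ K : ℝ) (G : E (2 + m) → ℂ) : Prop :=
  ∀ θ ∈ Ioc (0 : ℝ) 1, N2 (Dd θ G) ≤ ENNReal.ofReal (K ^ 2 * θ ^ (2 * κ))

theorem pow_comb (c₁ c₂ : ℝ≥0) (x y a b : ℝ) (hx : 0 ≤ x) (hy : 0 ≤ y) (ha : 0 ≤ a) (hb : 0 ≤ b) :
    (c₁ * ENNReal.ofReal x) ^ a * (c₂ * ENNReal.ofReal y) ^ b =
      ((c₁ ^ a * c₂ ^ b : ℝ≥0) : ℝ≥0∞) * ENNReal.ofReal (x ^ a * y ^ b) := by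
  rw [ENNReal.mul_rpow_of_nonneg _ _ ha, ENNReal.mul_rpow_of_nonneg _ _ hb,
    ENNReal.ofReal_rpow_of_nonneg hx ha, ENNReal.ofReal_rpow_of_nonneg hy hb,
    ENNReal.ofReal_mul (by positivity), ENNReal.coe_mul, ENNReal.coe_rpow_of_nonneg _ ha,
    ENNReal.coe_rpow_of_nonneg _ hb]
  ring

theorem AA_meas (δ : ℝ) (G : E (2 + m) → ℂ) (hG : Measurable G) :
    Measurable fun p : E 2 × E m => AA δ G p.1 p.2 := by
  unfold AA
  have h1 : Measurable fun p : (E 2 × E m) × ℝ => (ch δ p.2 : ℂ) * T G (J (rot p.2 p.1.1) p.1.2) :=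
    ((Complex.continuous_ofReal.comp (ch_cont δ)).measurable.comp measurable_snd).mul
      (Trot_meas G hG)
  exact (h1.stronglyMeasurable.integral_prod_right
    (f := fun (p : E 2 × E m) (θ : ℝ) => (ch δ θ : ℂ) * T G (J (rot θ p.1) p.2))).measurable

theorem BB_meas (δ : ℝ) (G : E (2 + m) → ℂ) (hG : Measurable G) :
    Measurable fun p : E 2 × E m => BB δ G p.1 p.2 :=
  (TJ_meas G hG).sub (AA_meas δ G hG)

theorem shell (hm : 1 ≤ m) (P q κ P' ε : ℝ) (hq : 2 < q) (hqP : q < P) (hε : 0 < ε) (hε1 : ε < 1)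
    (hκ : 0 < κ) (K : ℝ) (hK : 0 < K) (A : ℝ≥0)
    (hTS : 2 * ((2 + m : ℕ) + 1 : ℝ) / (((2 + m : ℕ) : ℝ) - 1) < P') (hqP' : q < P') :
    ∃ C : ℝ≥0, ∀ G : E (2 + m) → ℂ, Measurable G → (∀ z, ‖G z‖ ≤ 1) → Reg κ K G →
      (∀ u : E 2, ‖u‖ = 1 → ∫⁻ s, ∫⁻ t, hG G u s t ^ P ≤ A) → ∀ R : ℝ, 1 ≤ R → ∫⁻ x in Sh R, ∫⁻ t, ‖T G (J x t)‖ₑ ^ q ≤
        C * (ENNReal.ofReal (R ^ (1 - (1 - ε) * P * (q - 2) / (2 * (P - 2)))) +
          ENNReal.ofReal (R ^ ((P' - q) / (P' - 2) - κ * q / 2))) := by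
  have hq0 : 0 < q := by linarith
  have hP2 : 0 < P - 2 := by linarith
  have hP2' : 0 < P' - 2 := by linarith
  obtain ⟨C₁, hC₁⟩ := AA_L2 (m := m) hm
  obtain ⟨C₂, hC₂⟩ := mainP hm P ε (by linarith) hε hε1 A
  obtain ⟨C₃, hC₃⟩ := BB_L2 hm κ hκ K hK
  obtain ⟨C₄, hC₄⟩ := BB_LP (m := m) κ P' hκ K hK hTS
  set a : ℝ := (P - q) / (P - 2) with ha
  set b : ℝ := (q - 2) / (P - 2) with hb
  set a' : ℝ := (P' - q) / (P' - 2) with ha'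
  set b' : ℝ := (q - 2) / (P' - 2) with hb'
  have ha0 : 0 ≤ a := div_nonneg (by linarith) hP2.le
  have hb0 : 0 ≤ b := div_nonneg (by linarith) hP2.le
  have ha0' : 0 ≤ a' := div_nonneg (by linarith) hP2'.le
  have hb0' : 0 ≤ b' := div_nonneg (by linarith) hP2'.le
  have hab : a + b = 1 := by
    rw [ha, hb, ← add_div, div_eq_one_iff_eq hP2.ne']
    ring
  have hab' : 2 * a' + P' * b' = q := by
    rw [ha', hb']
    field_simp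
    ring
  refine ⟨(2 : ℝ≥0) ^ q * ((C₁ ^ a * C₂ ^ b) + (C₃ ^ a' * C₄ ^ b')), fun G hG hGb hreg hGA R hR => ?_⟩
  have hR0 : 0 < R := by linarith
  set δ : ℝ := R ^ (-(1 / 2) : ℝ) with hδ
  have hδ0 : 0 < δ := by positivity
  have hδ1 : δ ≤ 1 := Real.rpow_le_one_of_one_le_of_nonpos hR (by norm_num)
  have hδR : R * δ ^ 2 = 1 := by
    rw [hδ, ← Real.rpow_natCast, ← Real.rpow_mul hR0.le]
    norm_num
    rw [Real.rpow_neg_one]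
    exact mul_inv_cancel₀ hR0.ne'
  have hD : ∀ θ ∈ Ioc 0 δ, N2 (Dd θ G) ≤ ENNReal.ofReal (K ^ 2 * θ ^ (2 * κ)) :=
    fun θ hθ => hreg θ ⟨hθ.1, hθ.2.trans hδ1⟩
  have mA : Measurable fun p : E 2 × E m => ‖AA δ G p.1 p.2‖ₑ := (AA_meas δ G hG).enorm
  have mB : Measurable fun p : E 2 × E m => ‖BB δ G p.1 p.2‖ₑ := (BB_meas δ G hG).enorm
  have hA : ∫⁻ x in Sh R, ∫⁻ t, ‖AA δ G x t‖ₑ ^ q ≤ ((C₁ ^ a * C₂ ^ b : ℝ≥0) : ℝ≥0∞) *
      ENNReal.ofReal (R ^ (1 - (1 - ε) * P * (q - 2) / (2 * (P - 2)))) := by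
    refine (interp2 (Sh R) (fun x t => ‖AA δ G x t‖ₑ) mA q P hq hqP).trans ?_
    have h1 : ∫⁻ x in Sh R, ∫⁻ t, ‖AA δ G x t‖ₑ ^ (2 : ℝ) ≤ C₁ * ENNReal.ofReal R :=
      (lintegral_mono_set (Sh_sub R)).trans (hC₁ G hG hGb R δ hR0 hδ0)
    have h2 := hC₂ G hG hGb hGA R δ hR0 hδ0 hδR.ge
    refine (mul_le_mul' (ENNReal.rpow_le_rpow h1 ha0) (ENNReal.rpow_le_rpow h2 hb0)).trans
      (le_of_eq ?_)
    rw [pow_comb C₁ C₂ R _ a b hR0.le (by positivity) ha0 hb0]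
    congr 2
    rw [Real.mul_rpow hR0.le (by positivity), ← mul_assoc, ← Real.rpow_add hR0, hab, hδ,
      ← Real.rpow_mul hR0.le, ← Real.rpow_mul hR0.le, ← Real.rpow_add hR0]
    congr 1
    rw [hb]
    field_simp
    ring
  have hB : ∫⁻ x in Sh R, ∫⁻ t, ‖BB δ G x t‖ₑ ^ q ≤ ((C₃ ^ a' * C₄ ^ b' : ℝ≥0) : ℝ≥0∞) *
      ENNReal.ofReal (R ^ (a' - κ * q / 2)) := by
    refine (interp2 (Sh R) (fun x t => ‖BB δ G x t‖ₑ) mB q P' hq hqP').trans ?_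
    have h1 : ∫⁻ x in Sh R, ∫⁻ t, ‖BB δ G x t‖ₑ ^ (2 : ℝ) ≤ C₃ * ENNReal.ofReal (R * δ ^ (2 * κ)) :=
      (lintegral_mono_set (Sh_sub R)).trans (hC₃ G hG hGb R δ hR0 hδ0 hD)
    have h2 := hC₄ G hG hGb δ hδ0 hD (Sh R)
    refine (mul_le_mul' (ENNReal.rpow_le_rpow h1 ha0') (ENNReal.rpow_le_rpow h2 hb0')).trans
      (le_of_eq ?_)
    rw [pow_comb C₃ C₄ _ _ a' b' (by positivity) (by positivity) ha0' hb0']
    congr 2
    rw [Real.mul_rpow hR0.le (by positivity), hδ, ← Real.rpow_mul hR0.le, ← Real.rpow_mul hR0.le,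
      ← Real.rpow_mul hR0.le, ← Real.rpow_mul hR0.le, ← Real.rpow_add hR0, ← Real.rpow_add hR0]
    congr 1
    rw [← hab']
    ring
  have hsum : ∀ (x : E 2) (t : E m), ‖T G (J x t)‖ₑ ^ q ≤
      2 ^ q * (‖AA δ G x t‖ₑ ^ q + ‖BB δ G x t‖ₑ ^ q) := by
    intro x t
    have e : T G (J x t) = AA δ G x t + BB δ G x t := by
      unfold BB
      ring
    rw [e]
    exact (ENNReal.rpow_le_rpow (enorm_add_le _ _) hq0.le).trans (two_rpow _ _ q hq0.le)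
  have h2q : (2 : ℝ≥0∞) ^ q ≠ ⊤ := ENNReal.rpow_ne_top_of_nonneg hq0.le (by norm_num)
  have mAq : Measurable fun p : E 2 × E m => ‖AA δ G p.1 p.2‖ₑ ^ q := mA.pow_const q
  have mAt : ∀ x : E 2, Measurable fun t : E m => ‖AA δ G x t‖ₑ ^ q := by
    intro x
    have k : Measurable fun t : E m => (x, t) := measurable_const.prodMk measurable_id
    have h := mAq.comp k
    exact h
  have mAx : Measurable fun x : E 2 => ∫⁻ t : E m, ‖AA δ G x t‖ₑ ^ q := mAq.lintegral_prod_right'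
  calc ∫⁻ x in Sh R, ∫⁻ t, ‖T G (J x t)‖ₑ ^ q
      ≤ ∫⁻ x in Sh R, ∫⁻ t, 2 ^ q * (‖AA δ G x t‖ₑ ^ q + ‖BB δ G x t‖ₑ ^ q) :=
        lintegral_mono fun x => lintegral_mono fun t => hsum x t
    _ = 2 ^ q * ((∫⁻ x in Sh R, ∫⁻ t, ‖AA δ G x t‖ₑ ^ q) +
        ∫⁻ x in Sh R, ∫⁻ t, ‖BB δ G x t‖ₑ ^ q) := by
        rw [← lintegral_add_left mAx, ← lintegral_const_mul' _ _ h2q]
        refine lintegral_congr fun x => ?_
        rw [lintegral_const_mul' _ _ h2q, lintegral_add_left (mAt x)]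
    _ ≤ 2 ^ q * (((C₁ ^ a * C₂ ^ b : ℝ≥0) : ℝ≥0∞) *
        ENNReal.ofReal (R ^ (1 - (1 - ε) * P * (q - 2) / (2 * (P - 2)))) +
        ((C₃ ^ a' * C₄ ^ b' : ℝ≥0) : ℝ≥0∞) * ENNReal.ofReal (R ^ (a' - κ * q / 2))) := by
        gcongr
    _ ≤ 2 ^ q * (((C₁ ^ a * C₂ ^ b + C₃ ^ a' * C₄ ^ b' : ℝ≥0) : ℝ≥0∞) *
        ENNReal.ofReal (R ^ (1 - (1 - ε) * P * (q - 2) / (2 * (P - 2)))) +
        ((C₁ ^ a * C₂ ^ b + C₃ ^ a' * C₄ ^ b' : ℝ≥0) : ℝ≥0∞) *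
          ENNReal.ofReal (R ^ (a' - κ * q / 2))) := by
        gcongr
        · exact le_self_add
        · exact le_add_self
    _ = _ := by
        have e : (((2 : ℝ≥0) ^ q : ℝ≥0) : ℝ≥0∞) = (2 : ℝ≥0∞) ^ q := by
          rw [ENNReal.coe_rpow_of_nonneg _ hq0.le]
          norm_num
        rw [ENNReal.coe_mul, e]
        ring

theorem pow_sum (σ : ℝ) (hσ : σ < 0) : ∑' j : ℕ, ENNReal.ofReal (((2 : ℝ) ^ j) ^ σ) < ⊤ := by
  have h1 : ∀ j : ℕ, ENNReal.ofReal (((2 : ℝ) ^ j) ^ σ) = ENNReal.ofReal (1 * ((2 : ℝ) ^ σ) ^ j) := by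
    intro j
    rw [one_mul]
    congr 1
    rw [← Real.rpow_natCast, ← Real.rpow_natCast, ← Real.rpow_mul (by norm_num),
      ← Real.rpow_mul (by norm_num), mul_comm]
  simp only [h1]
  rw [geo 1 ((2 : ℝ) ^ σ) (by norm_num) (by positivity)
    (Real.rpow_lt_one_of_one_lt_of_neg (by norm_num) hσ)]
  exact ENNReal.ofReal_lt_top

theorem cover (F : E 2 → ℝ≥0∞) (hF : Measurable F) :
    ∫⁻ x, F x ≤ (∫⁻ x in Cy 1, F x) + ∑' j : ℕ, ∫⁻ x in Sh ((2 : ℝ) ^ j), F x := by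
  have hp : ∀ x, F x ≤ (Cy 1).indicator F x + ∑' j : ℕ, (Sh ((2 : ℝ) ^ j)).indicator F x := by
    intro x
    by_cases hx : x ∈ Cy 1
    · rw [indicator_of_mem hx]
      exact le_self_add
    · have hx1 : 1 ≤ ‖x‖ := by
        unfold Cy at hx
        simp only [mem_ofPred_eq, not_le] at hx
        linarith
      obtain ⟨n, hn1, hn2⟩ := exists_nat_pow_near hx1 (by norm_num : (1 : ℝ) < 2)
      have hs : x ∈ Sh ((2 : ℝ) ^ n) := by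
        refine ⟨hn1, ?_⟩
        rw [pow_succ] at hn2
        linarith
      calc F x = (Sh ((2 : ℝ) ^ n)).indicator F x := (indicator_of_mem hs F).symm
        _ ≤ ∑' j : ℕ, (Sh ((2 : ℝ) ^ j)).indicator F x :=
            ENNReal.le_tsum (f := fun j : ℕ => (Sh ((2 : ℝ) ^ j)).indicator F x) n
        _ ≤ _ := le_add_self
  calc ∫⁻ x, F x ≤ ∫⁻ x, ((Cy 1).indicator F x + ∑' j : ℕ, (Sh ((2 : ℝ) ^ j)).indicator F x) :=
        lintegral_mono hp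
    _ = _ := by
        rw [lintegral_add_left (hF.indicator (Cy_meas 1)), lintegral_indicator (Cy_meas 1),
          lintegral_tsum fun j => (hF.indicator (Sh_meas _)).aemeasurable]
        congr 2
        funext j
        rw [lintegral_indicator (Sh_meas _)]

theorem LQ (hm : 1 ≤ m) (P q κ P' ε : ℝ) (hq : 2 < q) (hqP : q < P) (hε : 0 < ε) (hε1 : ε < 1)
    (hκ : 0 < κ) (K : ℝ) (hK : 0 < K) (A : ℝ≥0)
    (hTS : 2 * ((2 + m : ℕ) + 1 : ℝ) / (((2 + m : ℕ) : ℝ) - 1) < P') (hqP' : q < P')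
    (h1 : 1 - (1 - ε) * P * (q - 2) / (2 * (P - 2)) < 0)
    (h2 : (P' - q) / (P' - 2) - κ * q / 2 < 0) :
    ∃ C : ℝ≥0, ∀ G : E (2 + m) → ℂ, Measurable G → (∀ z, ‖G z‖ ≤ 1) → Reg κ K G →
      (∀ u : E 2, ‖u‖ = 1 → ∫⁻ s, ∫⁻ t, hG G u s t ^ P ≤ A) → ∫⁻ ξ, ‖T G ξ‖ₑ ^ q ≤ C := by
  obtain ⟨C, hC⟩ := shell hm P q κ P' ε hq hqP hε hε1 hκ K hK A hTS hqP'
  obtain ⟨C₀, hC₀⟩ := cyl hm
  obtain ⟨N, hN⟩ := N2_le hm
  have hq2 : 0 < q - 2 := by linarith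
  set K' : ℝ≥0∞ := ENNReal.ofReal (1 * (sg (2 + m)).real univ) ^ (q - 2) with hK'
  have hKt : K' ≠ ⊤ := ENNReal.rpow_ne_top_of_nonneg hq2.le ENNReal.ofReal_ne_top
  set S₁ : ℝ≥0∞ := ∑' j : ℕ, ENNReal.ofReal (((2 : ℝ) ^ j) ^
    (1 - (1 - ε) * P * (q - 2) / (2 * (P - 2)))) with hS₁
  set S₂ : ℝ≥0∞ := ∑' j : ℕ, ENNReal.ofReal (((2 : ℝ) ^ j) ^
    ((P' - q) / (P' - 2) - κ * q / 2)) with hS₂
  have hS₁t : S₁ ≠ ⊤ := (pow_sum _ h1).ne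
  have hS₂t : S₂ ≠ ⊤ := (pow_sum _ h2).ne
  have hne : K' * (C₀ * N) + C * (S₁ + S₂) ≠ ⊤ := by
    refine ENNReal.add_ne_top.2 ⟨?_, ?_⟩
    · exact ENNReal.mul_ne_top hKt (ENNReal.mul_ne_top ENNReal.coe_ne_top ENNReal.coe_ne_top)
    · exact ENNReal.mul_ne_top ENNReal.coe_ne_top (ENNReal.add_ne_top.2 ⟨hS₁t, hS₂t⟩)
  refine ⟨(K' * (C₀ * N) + C * (S₁ + S₂)).toNNReal, fun G hG hGb hreg hGA => ?_⟩
  rw [ENNReal.coe_toNNReal hne]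
  have hTq : Measurable fun ξ => ‖T G ξ‖ₑ ^ q := (T_meas' G hG).enorm.pow_const q
  rw [space_J _ hTq]
  have hJq : Measurable fun p : E 2 × E m => ‖T G (J p.1 p.2)‖ₑ ^ q :=
    (TJ_meas G hG).enorm.pow_const q
  have hx : Measurable fun x : E 2 => ∫⁻ t : E m, ‖T G (J x t)‖ₑ ^ q := hJq.lintegral_prod_right'
  refine (cover _ hx).trans (add_le_add ?_ ?_)
  · calc ∫⁻ x in Cy 1, ∫⁻ t, ‖T G (J x t)‖ₑ ^ q
        ≤ ∫⁻ x in Cy 1, ∫⁻ t, K' * ‖T G (J x t)‖ₑ ^ (2 : ℝ) := by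
          refine lintegral_mono fun x => lintegral_mono fun t => ?_
          have e : ‖T G (J x t)‖ₑ ^ q = ‖T G (J x t)‖ₑ ^ (q - 2) * ‖T G (J x t)‖ₑ ^ (2 : ℝ) := by
            rw [← ENNReal.rpow_add_of_nonneg _ _ hq2.le (by norm_num)]
            congr 1
            ring
          rw [e]
          refine mul_le_mul' (ENNReal.rpow_le_rpow ?_ hq2.le) le_rfl
          rw [← ofReal_norm]
          exact ENNReal.ofReal_le_ofReal (T_le G 1 hGb _)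
      _ = K' * ∫⁻ x in Cy 1, ∫⁻ t, ‖T G (J x t)‖ₑ ^ (2 : ℝ) := by
          rw [← lintegral_const_mul' _ _ hKt]
          refine lintegral_congr fun x => ?_
          rw [lintegral_const_mul' _ _ hKt]
      _ ≤ K' * (C₀ * N) := by
          gcongr
          refine (hC₀ G hG ⟨1, hGb⟩ 1 one_pos).trans ?_
          rw [ENNReal.ofReal_one, mul_one]
          gcongr
          exact hN G hGb
  · calc ∑' j : ℕ, ∫⁻ x in Sh ((2 : ℝ) ^ j), ∫⁻ t, ‖T G (J x t)‖ₑ ^ q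
        ≤ ∑' j : ℕ, C * (ENNReal.ofReal (((2 : ℝ) ^ j) ^
          (1 - (1 - ε) * P * (q - 2) / (2 * (P - 2)))) + ENNReal.ofReal (((2 : ℝ) ^ j) ^
          ((P' - q) / (P' - 2) - κ * q / 2))) := by
          refine ENNReal.tsum_le_tsum fun j => ?_
          exact hC G hG hGb hreg hGA _ (one_le_pow₀ (by norm_num))
      _ = C * (S₁ + S₂) := by
          rw [ENNReal.tsum_mul_left, ENNReal.tsum_add]

end Pool.Agent.Run7.h58.LR
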