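import Mathlib
import Pool.Agent.Run7.h58.LR.Sum
set_option autoImplicit false

/-! Arcs on the sphere and the class of densities. -/

namespace Pool.Agent.Run7.h58.LR

open MeasureTheory Set Complex Filter
open scoped ENNReal NNReal RealInnerProductSpace FourierTransform
open Pool.Agent.H789R2.FR (E sg T sg_finite sg_ae sg_inv L2_bound)
open Pool.Agent.H438R2.BR (Q J J_mp J_inner)
open Pool.Agent.H438R2.BR.T10 (e0 e0_norm)
open Pool.Agent.H438R2.PD (T_meas' T_le P1 P2 P1_J P2_J)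
open Pool.Agent.Run7.h58.MV (cs cs_zero cs_one cs_meas cs_per sg_two_angle split shift flip norm_two)

variable {m : ℕ}

/-- the arc through `v` in the plane of the coordinate `j` and of the direction of the first
coordinates -/
noncomputable def arc {n : ℕ} (j : Fin n) (v : E n) (s : ℝ) : E n :=
  WithLp.toLp 2 fun i => if i < j then Real.cos s * v i else if i = j then
    Real.sin s * Real.sqrt (∑ k, if k < j then v k ^ 2 else 0) else v i

theorem arc_lt {n : ℕ} (j : Fin n) (v : E n) (s : ℝ) (i : Fin n) (h : i < j) :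
    arc j v s i = Real.cos s * v i := by
  change (if i < j then Real.cos s * v i else _) = _
  rw [if_pos h]

theorem arc_eq {n : ℕ} (j : Fin n) (v : E n) (s : ℝ) :
    arc j v s j = Real.sin s * Real.sqrt (∑ k, if k < j then v k ^ 2 else 0) := by
  change (if j < j then _ else if j = j then _ else _) = _
  rw [if_neg (lt_irrefl j), if_pos rfl]

theorem arc_gt {n : ℕ} (j : Fin n) (v : E n) (s : ℝ) (i : Fin n) (h : j < i) :
    arc j v s i = v i := by
  change (if i < j then _ else if i = j then _ else _) = _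
  rw [if_neg (not_lt.2 h.le), if_neg (ne_of_gt h)]

theorem arc_meas {n : ℕ} (j : Fin n) (v : E n) : Measurable (arc j v) := by
  unfold arc
  refine (WithLp.measurable_toLp 2 _).comp ?_
  rw [measurable_pi_iff]
  intro i
  by_cases h1 : i < j
  · simp only [h1, if_true]
    fun_prop
  · by_cases h2 : i = j
    · simp only [h2, if_false, if_true, lt_irrefl]
      exact Real.measurable_sin.mul_const _
    · simp only [h1, h2, if_false]
      exact measurable_const

theorem arc_norm {n : ℕ} (j : Fin n) (v : E n) (s : ℝ) (hv : v j = 0) : ‖arc j v s‖ = ‖v‖ := by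
  have hcs := Real.cos_sq_add_sin_sq s
  set S : ℝ := ∑ k, if k < j then v k ^ 2 else 0 with hS
  have hS0 : 0 ≤ S := Finset.sum_nonneg fun k _ => by split_ifs <;> positivity
  have h1 : ‖arc j v s‖ ^ 2 = ‖v‖ ^ 2 := by
    rw [EuclideanSpace.norm_sq_eq, EuclideanSpace.norm_sq_eq]
    simp only [Real.norm_eq_abs, sq_abs]
    have e1 : ∀ i, arc j v s i ^ 2 = v i ^ 2 - (Real.sin s) ^ 2 * (if i < j then v i ^ 2 else 0) +
        (Real.sin s) ^ 2 * (if i = j then S else 0) := by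
      intro i
      rcases lt_trichotomy i j with h | h | h
      · rw [arc_lt j v s i h, if_pos h, if_neg (ne_of_lt h)]
        linear_combination (v i ^ 2) * hcs
      · subst h
        rw [arc_eq, if_neg (lt_irrefl i), if_pos rfl, mul_pow, ← hS, Real.sq_sqrt hS0, hv]
        ring
      · rw [arc_gt j v s i h, if_neg (not_lt.2 h.le), if_neg (ne_of_gt h)]
        ring
    simp only [e1]
    rw [Finset.sum_add_distrib, Finset.sum_sub_distrib, ← Finset.mul_sum, ← Finset.mul_sum, ← hS]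
    simp
  exact (pow_left_inj₀ (norm_nonneg _) (norm_nonneg _) (by norm_num)).1 h1

theorem J_cast {k d : ℕ} (x : E k) (y : E d) (i : Fin k) : J x y (Fin.castAdd d i) = x i := by
  unfold J
  simp [Fin.append_left]

theorem J_nat {k d : ℕ} (x : E k) (y : E d) (i : Fin d) : J x y (Fin.natAdd k i) = y i := by
  unfold J
  simp [Fin.append_right]

theorem hh_eq (η : E (1 + m)) : hh η = η (Fin.castAdd m 0) := by
  have h : η = J (hh η • e0) (yy η) := (J_hh η).symm
  have h2 : η (Fin.castAdd m 0) = J (hh η • e0) (yy η) (Fin.castAdd m 0) := by rw [← h]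
  rw [h2, J_cast]
  simp [e0]

theorem yy_eq (η : E (1 + m)) (i : Fin m) : yy η i = η (Fin.natAdd 1 i) := by
  have h : η = J (hh η • e0) (yy η) := (J_hh η).symm
  have h2 : η (Fin.natAdd 1 i) = J (hh η • e0) (yy η) (Fin.natAdd 1 i) := by rw [← h]
  rw [h2, J_nat]

theorem cast_lt_nat (a : ℕ) (i : Fin a) (j : Fin m) : Fin.castAdd m i < Fin.natAdd a j := by
  rw [Fin.lt_def]
  simp only [Fin.val_castAdd, Fin.val_natAdd]
  omega

theorem nat_lt_nat (a : ℕ) (i j : Fin m) : Fin.natAdd a i < Fin.natAdd a j ↔ i < j := by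
  rw [Fin.lt_def, Fin.lt_def]
  simp only [Fin.val_natAdd]
  omega

theorem hh_arc (i₀ : Fin m) (v : E (1 + m)) (s : ℝ) :
    hh (arc (Fin.natAdd 1 i₀) v s) = Real.cos s * hh v := by
  rw [hh_eq, hh_eq, arc_lt _ _ _ _ (cast_lt_nat 1 0 i₀)]

theorem arc_lift (u : E 2) (hu : ‖u‖ = 1) (i₀ : Fin m) (v : E (1 + m)) (s : ℝ) :
    arc (Fin.natAdd 2 i₀) (J (hh v • u) (yy v)) s =
      J (hh (arc (Fin.natAdd 1 i₀) v s) • u) (yy (arc (Fin.natAdd 1 i₀) v s)) := by
  have hu2 := norm_two u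
  rw [hu] at hu2
  have hsum : (∑ k, if k < Fin.natAdd 2 i₀ then (J (hh v • u) (yy v) : E (2 + m)) k ^ 2 else 0) =
      ∑ k, if k < Fin.natAdd 1 i₀ then v k ^ 2 else 0 := by
    rw [Fin.sum_univ_add, Fin.sum_univ_add]
    congr 1
    · simp only [cast_lt_nat, if_true, J_cast]
      rw [Fin.sum_univ_two, Fin.sum_univ_one]
      simp only [PiLp.smul_apply, smul_eq_mul]
      rw [← hh_eq]
      linear_combination (-(hh v ^ 2)) * hu2
    · refine Finset.sum_congr rfl fun i _ => ?_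
      simp only [nat_lt_nat, J_nat, yy_eq]
  ext i
  refine Fin.addCases (fun i' => ?_) (fun i' => ?_) i
  · rw [arc_lt _ _ _ _ (cast_lt_nat 2 i' i₀), J_cast, J_cast, hh_arc]
    simp only [PiLp.smul_apply, smul_eq_mul]
    ring
  · rw [J_nat, yy_eq]
    rcases lt_trichotomy i' i₀ with h | h | h
    · rw [arc_lt _ _ _ _ ((nat_lt_nat 2 i' i₀).2 h), arc_lt _ _ _ _ ((nat_lt_nat 1 i' i₀).2 h),
        J_nat, yy_eq]
    · subst h
      rw [arc_eq, arc_eq, hsum]
    · rw [arc_gt _ _ _ _ ((nat_lt_nat 2 i₀ i').2 h), arc_gt _ _ _ _ ((nat_lt_nat 1 i₀ i').2 h),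
        J_nat, yy_eq]

theorem lift_norm (u : E 2) (hu : ‖u‖ = 1) (v : E (1 + m)) : ‖J (hh v • u) (yy v)‖ = ‖v‖ := by
  have h1 : ‖J (hh v • u) (yy v)‖ ^ 2 = ‖v‖ ^ 2 := by
    have h2 : ‖v‖ ^ 2 = ‖J (hh v • e0) (yy v)‖ ^ 2 := by rw [J_hh]
    rw [h2, ← real_inner_self_eq_norm_sq, ← real_inner_self_eq_norm_sq, J_inner, J_inner]
    simp only [real_inner_self_eq_norm_sq, norm_smul, hu, e0_norm]
  exact (pow_left_inj₀ (norm_nonneg _) (norm_nonneg _) (by norm_num)).1 h1

/-- the class of densities: bounded by one on the sphere, regular in the first `k` angles -/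
def Cl {n : ℕ} (κ K : ℝ) (k : ℕ) (G : E n → ℂ) : Prop :=
  Measurable G ∧ (∀ x, ‖x‖ = 1 → ‖G x‖ ≤ 1) ∧
    ∀ j : Fin n, 1 ≤ j.val → j.val ≤ k → ∀ v : E n, ‖v‖ = 1 → v j = 0 → ∀ θ ∈ Ioc (0 : ℝ) 1,
      ∫⁻ s in Ioo (-(Real.pi / 2)) (Real.pi / 2 - θ), ‖G (arc j v (s + θ)) - G (arc j v s)‖ₑ ^ (2 : ℝ) ≤
        ENNReal.ofReal (K ^ 2 * θ ^ (2 * κ))

/-! ### the slices -/

theorem max_cos (a s θ : ℝ) (ha : |a| ≤ 1) (hθ : 0 ≤ θ) :
    |max (Real.cos (s + θ) * a) 0 - max (Real.cos s * a) 0| ≤ θ := by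
  have h1 : |max (Real.cos (s + θ) * a) 0 - max (Real.cos s * a) 0| ≤
      |Real.cos (s + θ) * a - Real.cos s * a| := by
    have := abs_max_sub_max_le_abs (Real.cos (s + θ) * a) (Real.cos s * a) 0
    exact this
  refine h1.trans ?_
  rw [← sub_mul, abs_mul]
  have h2 : |Real.cos (s + θ) - Real.cos s| ≤ θ := by
    have h3 := Real.cos_sub_cos (s + θ) s
    rw [h3]
    have e1 : (s + θ - s) / 2 = θ / 2 := by ring
    rw [e1, abs_mul, abs_mul, abs_neg, abs_two]
    have h4 : |Real.sin ((s + θ + s) / 2)| ≤ 1 := Real.abs_sin_le_one _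
    have h5 : |Real.sin (θ / 2)| ≤ θ / 2 := by
      have := Real.abs_sin_le_abs (x := θ / 2)
      rwa [abs_of_nonneg (by linarith : 0 ≤ θ / 2)] at this
    calc 2 * |Real.sin ((s + θ + s) / 2)| * |Real.sin (θ / 2)| ≤ 2 * 1 * (θ / 2) := by gcongr
      _ = θ := by ring
  calc |Real.cos (s + θ) - Real.cos s| * |a| ≤ θ * 1 := by gcongr
    _ = θ := mul_one θ

theorem slice_q {κ K : ℝ} {k : ℕ} (hκ : κ ≤ 1 / 2) (hK : 0 < K) (G : E (2 + m) → ℂ)
    (h : Cl κ K (k + 1) G) (hb : ∀ x, ‖G x‖ ≤ 1) (u : E 2) (hu : ‖u‖ = 1) :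
    Cl κ (2 * K + 4) k (kq G u) ∧ Cl κ (2 * K + 4) k (kk G u) := by
  obtain ⟨hG, _, harc⟩ := h
  have ku : Measurable fun η : E (1 + m) => (u, η) := measurable_const.prodMk measurable_id
  have m1 : Measurable (kk G u) := by
    have h := (kk_meas' G hG).comp ku
    exact h
  have m2 : Measurable (kq G u) := by
    have h := (kq_meas G hG).comp ku
    exact h
  have hpi := Real.pi_gt_three
  have hpi4 := Real.pi_lt_four
  -- the estimate for the function without the factor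
  have base : ∀ (i₀ : Fin m), i₀.val + 1 ≤ k → ∀ v : E (1 + m), ‖v‖ = 1 → v (Fin.natAdd 1 i₀) = 0 →
      ∀ θ ∈ Ioc (0 : ℝ) 1, ∫⁻ s in Ioo (-(Real.pi / 2)) (Real.pi / 2 - θ),
        ‖G (arc (Fin.natAdd 2 i₀) (J (hh v • u) (yy v)) (s + θ)) -
          G (arc (Fin.natAdd 2 i₀) (J (hh v • u) (yy v)) s)‖ₑ ^ (2 : ℝ) ≤
        ENNReal.ofReal (K ^ 2 * θ ^ (2 * κ)) := by
    intro i₀ hi v hv hv0 θ hθ
    refine harc (Fin.natAdd 2 i₀) ?_ ?_ _ ?_ ?_ θ hθ
    · simp only [Fin.val_natAdd]; omega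
    · simp only [Fin.val_natAdd]; omega
    · rw [lift_norm u hu, hv]
    · rw [J_nat, yy_eq, hv0]
  refine ⟨⟨m2, fun η _ => kq_le G hb u η, ?_⟩, ⟨m1, fun η hη => kk_le G hb u η hη.le, ?_⟩⟩
  · intro j hj1 hjk v hv hv0 θ hθ
    have hθ0 : 0 < θ := hθ.1
    obtain ⟨i₀, rfl⟩ : ∃ i₀ : Fin m, j = Fin.natAdd 1 i₀ :=
      ⟨⟨j.val - 1, by omega⟩, by ext; simp only [Fin.val_natAdd]; omega⟩
    simp only [Fin.val_natAdd] at hjk
    refine le_trans ?_ (ENNReal.ofReal_le_ofReal (show K ^ 2 * θ ^ (2 * κ) ≤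
      (2 * K + 4) ^ 2 * θ ^ (2 * κ) by gcongr; linarith))
    refine le_trans (setLIntegral_mono' measurableSet_Ioo fun s hs => ?_)
      (base i₀ (by omega) v hv hv0 θ hθ)
    unfold kq
    have hc1 : 0 < Real.cos s := Real.cos_pos_of_mem_Ioo ⟨by linarith [hs.1], by linarith [hs.2, hθ.1]⟩
    have hc2 : 0 < Real.cos (s + θ) :=
      Real.cos_pos_of_mem_Ioo ⟨by linarith [hs.1, hθ.1], by linarith [hs.2]⟩
    rw [← arc_lift u hu i₀ v s, ← arc_lift u hu i₀ v (s + θ), hh_arc, hh_arc]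
    by_cases ha : 0 < hh v
    · rw [if_pos (mul_pos hc1 ha), if_pos (mul_pos hc2 ha), ofReal_one, one_mul, one_mul]
    · rw [if_neg (not_lt.2 (mul_nonpos_of_nonneg_of_nonpos hc1.le (not_lt.1 ha))),
        if_neg (not_lt.2 (mul_nonpos_of_nonneg_of_nonpos hc2.le (not_lt.1 ha))), ofReal_zero,
        zero_mul, zero_mul, sub_zero, enorm_zero, ENNReal.zero_rpow_of_pos (by norm_num)]
      exact zero_le
  · intro j hj1 hjk v hv hv0 θ hθ
    have hθ0 : 0 < θ := hθ.1
    obtain ⟨i₀, rfl⟩ : ∃ i₀ : Fin m, j = Fin.natAdd 1 i₀ :=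
      ⟨⟨j.val - 1, by omega⟩, by ext; simp only [Fin.val_natAdd]; omega⟩
    simp only [Fin.val_natAdd] at hjk
    have ha : |hh v| ≤ 1 := (hh_le v).trans hv.le
    have hb2 := base i₀ (by omega) v hv hv0 θ hθ
    set F : ℝ → ℂ := fun s => G (arc (Fin.natAdd 2 i₀) (J (hh v • u) (yy v)) s) with hF
    calc ∫⁻ s in Ioo (-(Real.pi / 2)) (Real.pi / 2 - θ),
          ‖kk G u (arc (Fin.natAdd 1 i₀) v (s + θ)) - kk G u (arc (Fin.natAdd 1 i₀) v s)‖ₑ ^ (2 : ℝ)
        ≤ ∫⁻ s in Ioo (-(Real.pi / 2)) (Real.pi / 2 - θ),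
          (4 * ‖F (s + θ) - F s‖ₑ ^ (2 : ℝ) + ENNReal.ofReal (4 * θ ^ 2)) := by
          refine lintegral_mono fun s => ?_
          unfold kk
          rw [← arc_lift u hu i₀ v s, ← arc_lift u hu i₀ v (s + θ), hh_arc, hh_arc]
          change ‖((max (Real.cos (s + θ) * hh v) 0 : ℝ) : ℂ) * F (s + θ) -
            ((max (Real.cos s * hh v) 0 : ℝ) : ℂ) * F s‖ₑ ^ (2 : ℝ) ≤ _
          set c1 : ℝ := max (Real.cos (s + θ) * hh v) 0 with hc1
          set c0 : ℝ := max (Real.cos s * hh v) 0 with hc0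
          have hc10 : 0 ≤ c1 := le_max_right _ _
          have hc11 : c1 ≤ 1 := by
            refine max_le ?_ zero_le_one
            calc Real.cos (s + θ) * hh v ≤ |Real.cos (s + θ) * hh v| := le_abs_self _
              _ = |Real.cos (s + θ)| * |hh v| := abs_mul _ _
              _ ≤ 1 * 1 := by
                  gcongr
                  exact Real.abs_cos_le_one _
              _ = 1 := one_mul _
          have hd : |c1 - c0| ≤ θ := max_cos (hh v) s θ ha hθ.1.le
          have e1 : (c1 : ℂ) * F (s + θ) - (c0 : ℂ) * F s =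
              (c1 : ℂ) * (F (s + θ) - F s) + ((c1 - c0 : ℝ) : ℂ) * F s := by
            push_cast
            ring
          have h1 : ‖(c1 : ℂ) * F (s + θ) - (c0 : ℂ) * F s‖ₑ ≤
              ‖F (s + θ) - F s‖ₑ + ENNReal.ofReal θ := by
            rw [e1]
            refine (enorm_add_le _ _).trans (add_le_add ?_ ?_)
            · rw [enorm_mul]
              calc ‖(c1 : ℂ)‖ₑ * ‖F (s + θ) - F s‖ₑ ≤ 1 * ‖F (s + θ) - F s‖ₑ := by
                    gcongr
                    rw [← ofReal_norm, Complex.norm_real, Real.norm_of_nonneg hc10,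
                      ENNReal.ofReal_le_one]
                    exact hc11
                _ = _ := one_mul _
            · rw [← ofReal_norm, norm_mul, Complex.norm_real, Real.norm_eq_abs]
              apply ENNReal.ofReal_le_ofReal
              calc |c1 - c0| * ‖F s‖ ≤ θ * 1 := by
                    gcongr
                    exact hb _
                _ = θ := mul_one θ
          calc ‖(c1 : ℂ) * F (s + θ) - (c0 : ℂ) * F s‖ₑ ^ (2 : ℝ)
              ≤ (‖F (s + θ) - F s‖ₑ + ENNReal.ofReal θ) ^ (2 : ℝ) := by gcongr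
            _ ≤ 2 ^ (2 : ℝ) * (‖F (s + θ) - F s‖ₑ ^ (2 : ℝ) + ENNReal.ofReal θ ^ (2 : ℝ)) :=
                two_rpow _ _ 2 (by norm_num)
            _ = _ := by
                rw [mul_add, ENNReal.ofReal_rpow_of_pos hθ0, Real.rpow_two,
                  ENNReal.ofReal_mul (by norm_num)]
                norm_num
      _ = 4 * (∫⁻ s in Ioo (-(Real.pi / 2)) (Real.pi / 2 - θ), ‖F (s + θ) - F s‖ₑ ^ (2 : ℝ)) +
          ENNReal.ofReal (4 * θ ^ 2) * ENNReal.ofReal (Real.pi - θ) := by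
          rw [lintegral_add_right _ measurable_const, lintegral_const_mul' _ _ (by norm_num),
            setLIntegral_const, Real.volume_Ioo]
          congr 3
          ring
      _ ≤ 4 * ENNReal.ofReal (K ^ 2 * θ ^ (2 * κ)) +
          ENNReal.ofReal (4 * θ ^ 2) * ENNReal.ofReal 4 := by
          gcongr
          linarith
      _ = ENNReal.ofReal (4 * (K ^ 2 * θ ^ (2 * κ)) + 4 * θ ^ 2 * 4) := by
          rw [ENNReal.ofReal_add (by positivity) (by positivity), ENNReal.ofReal_mul (p := 4)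
            (by norm_num), ENNReal.ofReal_mul (p := 4 * θ ^ 2) (by positivity)]
          norm_num
      _ ≤ _ := by
          apply ENNReal.ofReal_le_ofReal
          have h2 : θ ^ 2 ≤ θ ^ (2 * κ) := by
            rw [← Real.rpow_two]
            exact Real.rpow_le_rpow_of_exponent_ge hθ0 hθ.2 (by linarith)
          have h3 : 0 ≤ θ ^ (2 * κ) := by positivity
          nlinarith [mul_nonneg hK.le h3]

end Pool.Agent.Run7.h58.LR
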