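import Mathlib
import Pool.Agent.Run7.h58.LR.Arc
set_option autoImplicit false

/-! From the class of densities to regularity in the longitude. -/

namespace Pool.Agent.Run7.h58.LR

open MeasureTheory Set Complex Filter
open scoped ENNReal NNReal RealInnerProductSpace FourierTransform
open Pool.Agent.H789R2.FR (E sg T sg_finite sg_ae sg_inv L2_bound)
open Pool.Agent.H438R2.BR (Q J J_mp J_inner)
open Pool.Agent.H438R2.PD (T_meas' T_le P1 P2 P1_J P2_J)
open Pool.Agent.TH335.RF (RT)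
open Pool.Agent.Run7.h58.MV (cs cs_zero cs_one cs_meas cs_per sg_two_angle split shift flip norm_two)

variable {m : ℕ}

theorem rot_cs (θ τ : ℝ) : rot θ (cs τ) = cs (τ + θ) := by
  ext i
  fin_cases i
  · change rot θ (cs τ) 0 = cs (τ + θ) 0
    rw [rot_zero, cs_zero, cs_one, cs_zero, Real.cos_add]
    ring
  · change rot θ (cs τ) 1 = cs (τ + θ) 1
    rw [rot_one, cs_zero, cs_one, cs_one, Real.sin_add]
    ring

theorem cs_norm (τ : ℝ) : ‖cs τ‖ = 1 := by
  have h := norm_two (cs τ)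
  rw [cs_zero, cs_one, Real.cos_sq_add_sin_sq] at h
  exact (pow_left_inj₀ (norm_nonneg _) zero_le_one (by norm_num : (2 : ℕ) ≠ 0)).1 (by
    rw [h, one_pow])

/-- the modulus of continuity of a periodic function, from the two half circles -/
theorem circ_mod (f : ℝ → ℂ) (hb : ∀ τ, ‖f τ‖ ≤ 1) (hper : ∀ τ, f (τ + 2 * Real.pi) = f τ)
    (θ : ℝ) (hθ : 0 < θ) (hθ1 : θ ≤ 1) (B : ℝ≥0∞)
    (h1 : ∫⁻ s in Ioo (-(Real.pi / 2)) (Real.pi / 2 - θ), ‖f (s + θ) - f s‖ₑ ^ (2 : ℝ) ≤ B)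
    (h2 : ∫⁻ s in Ioo (-(Real.pi / 2)) (Real.pi / 2 - θ),
      ‖f (Real.pi - (s + θ)) - f (Real.pi - s)‖ₑ ^ (2 : ℝ) ≤ B) :
    ∫⁻ τ in Ioo (-Real.pi) Real.pi, ‖f (τ + θ) - f τ‖ₑ ^ (2 : ℝ) ≤
      2 * B + ENNReal.ofReal (8 * θ) := by
  have hpi := Real.pi_gt_three
  set g : ℝ → ℝ≥0∞ := fun τ => ‖f (τ + θ) - f τ‖ₑ ^ (2 : ℝ) with hg
  have hg4 : ∀ τ, g τ ≤ 4 := by
    intro τ
    have hfe : ∀ τ, ‖f τ‖ₑ ≤ 1 := by
      intro τ
      rw [← ofReal_norm, ENNReal.ofReal_le_one]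
      exact hb τ
    have h3 : ‖f (τ + θ) - f τ‖ₑ ≤ 2 := by
      calc _ ≤ ‖f (τ + θ)‖ₑ + ‖f τ‖ₑ := enorm_sub_le
        _ ≤ 1 + 1 := add_le_add (hfe _) (hfe _)
        _ = 2 := by norm_num
    calc g τ ≤ 2 ^ (2 : ℝ) := ENNReal.rpow_le_rpow h3 (by norm_num)
      _ = 4 := by norm_num
  have hgp : ∀ τ, g (τ + 2 * Real.pi) = g τ := by
    intro τ
    simp only [hg]
    rw [hper τ, show τ + 2 * Real.pi + θ = τ + θ + 2 * Real.pi by ring, hper]
  have s1 : ∀ a, ∫⁻ τ in Ioo (a - θ) a, g τ ≤ ENNReal.ofReal (4 * θ) := by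
    intro a
    calc ∫⁻ τ in Ioo (a - θ) a, g τ ≤ ∫⁻ _τ in Ioo (a - θ) a, 4 := lintegral_mono fun τ => hg4 τ
      _ = _ := by
          rw [setLIntegral_const, Real.volume_Ioo, ENNReal.ofReal_mul (by norm_num)]
          congr 1
          · norm_num
          · congr 1
            ring
  have e1 : ∫⁻ τ in Ioo (-Real.pi) Real.pi, g τ =
      ∫⁻ τ in Ioo (-(Real.pi / 2)) (3 * Real.pi / 2), g τ := by
    rw [split g (-Real.pi) (-(Real.pi / 2)) Real.pi (by linarith) (by linarith),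
      split g (-(Real.pi / 2)) Real.pi (3 * Real.pi / 2) (by linarith) (by linarith), add_comm]
    congr 1
    have h3 := shift g (-Real.pi) (-(Real.pi / 2)) (2 * Real.pi)
    rw [show -Real.pi + 2 * Real.pi = Real.pi by ring,
      show -(Real.pi / 2) + 2 * Real.pi = 3 * Real.pi / 2 by ring] at h3
    rw [← h3]
    exact lintegral_congr fun τ => (hgp τ).symm
  have e2 : ∫⁻ τ in Ioo (Real.pi / 2) (3 * Real.pi / 2 - θ), g τ ≤ B := by
    have h3 := flip g (-(Real.pi / 2)) (Real.pi / 2 - θ) (Real.pi - θ)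
    rw [show Real.pi - θ - (Real.pi / 2 - θ) = Real.pi / 2 by ring,
      show Real.pi - θ - -(Real.pi / 2) = 3 * Real.pi / 2 - θ by ring] at h3
    rw [← h3]
    refine le_trans (le_of_eq (lintegral_congr fun s => ?_)) h2
    simp only [hg]
    rw [← enorm_neg]
    congr 2
    rw [show Real.pi - θ - s + θ = Real.pi - s by ring,
      show Real.pi - θ - s = Real.pi - (s + θ) by ring]
    ring
  rw [e1, split g (-(Real.pi / 2)) (Real.pi / 2) (3 * Real.pi / 2) (by linarith) (by linarith),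
    split g (-(Real.pi / 2)) (Real.pi / 2 - θ) (Real.pi / 2) (by linarith) (by linarith),
    split g (Real.pi / 2) (3 * Real.pi / 2 - θ) (3 * Real.pi / 2) (by linarith) (by linarith)]
  calc _ ≤ (B + ENNReal.ofReal (4 * θ)) + (B + ENNReal.ofReal (4 * θ)) :=
        add_le_add (add_le_add h1 (s1 _)) (add_le_add e2 (s1 _))
    _ = 2 * B + (ENNReal.ofReal (4 * θ) + ENNReal.ofReal (4 * θ)) := by ring
    _ = _ := by
        rw [← ENNReal.ofReal_add (by positivity) (by positivity)]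
        congr 2
        ring

/-- the index of the second coordinate -/
def j1 (m : ℕ) : Fin (2 + m) := Fin.castAdd m 1

theorem j1_sum (v : E (2 + m)) :
    (∑ k, if k < j1 m then v k ^ 2 else 0) = v (Fin.castAdd m 0) ^ 2 := by
  unfold j1
  rw [Fin.sum_univ_add, Fin.sum_univ_two]
  have h1 : Fin.castAdd m (0 : Fin 2) < Fin.castAdd m 1 := by
    rw [Fin.lt_def]; simp
  have h3 : ∀ i : Fin m, ¬ Fin.natAdd 2 i < Fin.castAdd m (1 : Fin 2) := by
    intro i
    rw [Fin.lt_def]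
    simp only [Fin.val_natAdd, Fin.val_castAdd]
    omega
  rw [if_pos h1, if_neg (lt_irrefl _), add_zero]
  simp only [h3, if_false, Finset.sum_const_zero, add_zero]

theorem arc_j1 (c d : ℝ) (hd : 0 ≤ d) (hcd : c ^ 2 = d ^ 2) (x : E 2) (hx0 : x 0 = c) (y : E m)
    (s : ℝ) : arc (j1 m) (J x y) s = J (!₂[Real.cos s * c, Real.sin s * d] : E 2) y := by
  ext i
  refine Fin.addCases (fun i' => ?_) (fun i' => ?_) i
  · rw [J_cast]
    fin_cases i'
    · have h1 : Fin.castAdd m (0 : Fin 2) < j1 m := by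
        unfold j1
        rw [Fin.lt_def]; simp
      change arc (j1 m) (J x y) s (Fin.castAdd m 0) = Real.cos s * c
      rw [arc_lt _ _ _ _ h1, J_cast, hx0]
    · change arc (j1 m) (J x y) s (j1 m) = Real.sin s * d
      rw [arc_eq, j1_sum, J_cast, hx0, hcd, Real.sqrt_sq hd]
  · have h1 : j1 m < Fin.natAdd 2 i' := cast_lt_nat 2 1 i'
    rw [arc_gt _ _ _ _ h1, J_nat, J_nat]

theorem ballW (hm : 1 ≤ m) : ∃ w : ℝ, 1 ≤ w ∧
    ∫⁻ y in Metric.ball (0 : E m) 1, (ENNReal.ofReal (rr y))⁻¹ ≤ ENNReal.ofReal w := by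
  have hfin := sg_finite 2
  obtain ⟨N, hN⟩ := N2_le hm
  have hW : ∫⁻ y in Metric.ball (0 : E m) 1, (ENNReal.ofReal (rr y))⁻¹ * sg 2 univ ≤ N := by
    have h1 := hN (fun _ => (1 : ℂ)) (fun z => by simp)
    rw [N2_eq hm _ measurable_const] at h1
    refine le_trans (le_of_eq ?_) h1
    refine lintegral_congr fun y => ?_
    congr 1
    unfold gy
    simp
  have hsg0 : sg 2 univ ≠ 0 := by
    have h := Pool.Agent.H438R2.BR.T7.sg_pos (n := 2) (by norm_num)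
    intro h0
    rw [Measure.real, h0] at h
    simp at h
  have hsgt : sg 2 univ ≠ ⊤ := (measure_lt_top _ _).ne
  have hne : N * (sg 2 univ)⁻¹ ≠ ⊤ :=
    ENNReal.mul_ne_top ENNReal.coe_ne_top (ENNReal.inv_ne_top.2 hsg0)
  have mw : Measurable fun y : E m => (ENNReal.ofReal (rr y))⁻¹ := rr_meas.ennreal_ofReal.inv
  have hW2 : ∫⁻ y in Metric.ball (0 : E m) 1, (ENNReal.ofReal (rr y))⁻¹ ≤ N * (sg 2 univ)⁻¹ := by
    rw [lintegral_mul_const _ mw] at hW
    calc ∫⁻ y in Metric.ball (0 : E m) 1, (ENNReal.ofReal (rr y))⁻¹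
        = (∫⁻ y in Metric.ball (0 : E m) 1, (ENNReal.ofReal (rr y))⁻¹) * sg 2 univ *
          (sg 2 univ)⁻¹ := by rw [mul_assoc, ENNReal.mul_inv_cancel hsg0 hsgt, mul_one]
      _ ≤ _ := by gcongr
  have hnn : 0 ≤ (N * (sg 2 univ)⁻¹).toReal := ENNReal.toReal_nonneg
  refine ⟨(N * (sg 2 univ)⁻¹).toReal + 1, by linarith, hW2.trans ?_⟩
  calc N * (sg 2 univ)⁻¹ = ENNReal.ofReal (N * (sg 2 univ)⁻¹).toReal :=
        (ENNReal.ofReal_toReal hne).symm
    _ ≤ _ := ENNReal.ofReal_le_ofReal (by linarith)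

theorem Reg_of_Cl (hm : 1 ≤ m) : ∃ w : ℝ, 0 < w ∧ ∀ (κ K : ℝ) (k : ℕ) (G : E (2 + m) → ℂ),
    κ ≤ 1 / 2 → 0 < K → 1 ≤ k → Cl κ K k G → (∀ x, ‖G x‖ ≤ 1) → Reg κ (w * (2 * K + 4)) G := by
  obtain ⟨w, hw1, hw⟩ := ballW hm
  have hw0 : 0 < w := by linarith
  refine ⟨w, hw0, fun κ K k G hκ hK hk hCl hb θ hθ => ?_⟩
  obtain ⟨hG, _, harc⟩ := hCl
  have hθ0 : 0 < θ := hθ.1
  rw [N2_eq hm _ (Dd_meas θ G hG)]
  have hy : ∀ y ∈ Metric.ball (0 : E m) 1, ∫⁻ u, ‖gy (Dd θ G) y u‖ₑ ^ (2 : ℝ) ∂(sg 2) ≤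
      ENNReal.ofReal ((2 * K ^ 2 + 8) * θ ^ (2 * κ)) := by
    intro y hy
    have hy1 : ‖y‖ < 1 := by simpa using hy
    have hr0 : 0 ≤ rr y := Real.sqrt_nonneg _
    have hr2 : rr y ^ 2 = 1 - ‖y‖ ^ 2 := Real.sq_sqrt (by nlinarith [norm_nonneg y])
    have mg : Measurable fun u : E 2 => ‖gy (Dd θ G) y u‖ₑ ^ (2 : ℝ) := by
      have k : Measurable fun u : E 2 => (y, u) := measurable_const.prodMk measurable_id
      have h := ((gy_meas _ (Dd_meas θ G hG)).comp k).enorm.pow_const (2 : ℝ)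
      exact h
    rw [sg_two_angle _ mg]
    set f : ℝ → ℂ := fun τ => G (J (rr y • cs τ) y) with hf
    have e1 : ∀ τ, gy (Dd θ G) y (cs τ) = -(f (τ + θ) - f τ) := by
      intro τ
      simp only [hf]
      unfold gy Dd
      rw [RR_J, map_smul, rot_cs]
      ring
    simp only [e1, enorm_neg]
    have hfper : ∀ τ, f (τ + 2 * Real.pi) = f τ := by
      intro τ
      simp only [hf, cs_per]
    -- the two arcs
    have hj1 : (j1 m).val = 1 := rfl
    have hvn : ∀ τ : ℝ, ‖J (rr y • cs τ) y‖ = 1 := by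
      intro τ
      have h1 : ‖J (rr y • cs τ) y‖ ^ 2 = 1 := by
        rw [← real_inner_self_eq_norm_sq, J_inner, real_inner_self_eq_norm_sq,
          real_inner_self_eq_norm_sq, norm_smul, cs_norm, mul_one, Real.norm_of_nonneg hr0, hr2]
        ring
      exact (pow_left_inj₀ (norm_nonneg _) zero_le_one (by norm_num : (2 : ℕ) ≠ 0)).1 (by
        rw [h1, one_pow])
    have a1 : ∀ s, arc (j1 m) (J (rr y • cs 0) y) s = J (rr y • cs s) y := by
      intro s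
      rw [arc_j1 (rr y) (rr y) hr0 rfl (rr y • cs 0) (by simp [cs_zero]) y s]
      congr 1
      ext i
      fin_cases i
      · simp [cs_zero, mul_comm]
      · simp [cs_one, mul_comm]
    have a2 : ∀ s, arc (j1 m) (J (rr y • cs Real.pi) y) s = J (rr y • cs (Real.pi - s)) y := by
      intro s
      rw [arc_j1 (-rr y) (rr y) hr0 (by ring) (rr y • cs Real.pi) (by simp [cs_zero]) y s]
      congr 1
      ext i
      fin_cases i
      · simp [cs_zero, Real.cos_pi_sub, mul_comm]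
      · simp [cs_one, Real.sin_pi_sub, mul_comm]
    have z1 : (J (rr y • cs 0) y : E (2 + m)) (j1 m) = 0 := by
      unfold j1
      rw [J_cast]
      simp [cs_one]
    have z2 : (J (rr y • cs Real.pi) y : E (2 + m)) (j1 m) = 0 := by
      unfold j1
      rw [J_cast]
      simp [cs_one]
    have h1 := harc (j1 m) hj1.ge (hj1.le.trans hk) _ (hvn 0) z1 θ hθ
    have h2 := harc (j1 m) hj1.ge (hj1.le.trans hk) _ (hvn Real.pi) z2 θ hθ
    simp only [a1] at h1
    simp only [a2] at h2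
    refine (circ_mod f (fun τ => hb _) hfper θ hθ.1 hθ.2 _ h1 h2).trans ?_
    have h3 : θ ≤ θ ^ (2 * κ) := by
      calc θ = θ ^ (1 : ℝ) := (Real.rpow_one θ).symm
        _ ≤ θ ^ (2 * κ) := Real.rpow_le_rpow_of_exponent_ge hθ.1 hθ.2 (by linarith)
    calc 2 * ENNReal.ofReal (K ^ 2 * θ ^ (2 * κ)) + ENNReal.ofReal (8 * θ)
        = ENNReal.ofReal (2 * (K ^ 2 * θ ^ (2 * κ)) + 8 * θ) := by
          rw [ENNReal.ofReal_add (by positivity) (by positivity), ENNReal.ofReal_mul (p := 2)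
            (by norm_num)]
          norm_num
      _ ≤ _ := by
          apply ENNReal.ofReal_le_ofReal
          nlinarith
  calc ∫⁻ y in Metric.ball (0 : E m) 1, (ENNReal.ofReal (rr y))⁻¹ *
        ∫⁻ u, ‖gy (Dd θ G) y u‖ₑ ^ (2 : ℝ) ∂(sg 2)
      ≤ ∫⁻ y in Metric.ball (0 : E m) 1, (ENNReal.ofReal (rr y))⁻¹ *
        ENNReal.ofReal ((2 * K ^ 2 + 8) * θ ^ (2 * κ)) := by
        refine setLIntegral_mono' measurableSet_ball fun y hyb => ?_
        exact mul_le_mul' le_rfl (hy y hyb)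
    _ = (∫⁻ y in Metric.ball (0 : E m) 1, (ENNReal.ofReal (rr y))⁻¹) *
        ENNReal.ofReal ((2 * K ^ 2 + 8) * θ ^ (2 * κ)) :=
        lintegral_mul_const' _ _ ENNReal.ofReal_ne_top
    _ ≤ ENNReal.ofReal w * ENNReal.ofReal ((2 * K ^ 2 + 8) * θ ^ (2 * κ)) := by gcongr
    _ = ENNReal.ofReal (w * ((2 * K ^ 2 + 8) * θ ^ (2 * κ))) :=
        (ENNReal.ofReal_mul hw0.le).symm
    _ ≤ _ := by
        apply ENNReal.ofReal_le_ofReal
        rw [← mul_assoc]
        refine mul_le_mul_of_nonneg_right ?_ (by positivity)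
        have h5 : w * (2 * K ^ 2 + 8) ≤ w ^ 2 * (2 * K ^ 2 + 8) := by
          refine mul_le_mul_of_nonneg_right ?_ (by positivity)
          nlinarith
        have h6 : w ^ 2 * (2 * K ^ 2 + 8) ≤ w ^ 2 * (2 * K + 4) ^ 2 := by
          refine mul_le_mul_of_nonneg_left ?_ (by positivity)
          nlinarith
        calc w * (2 * K ^ 2 + 8) ≤ w ^ 2 * (2 * K + 4) ^ 2 := h5.trans h6
          _ = (w * (2 * K + 4)) ^ 2 := by ring

end Pool.Agent.Run7.h58.LR
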