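import Mathlib
import Pool.Agent.Run7.h58.LR.Nest
import Pool.Agent.TH554.J1595
set_option autoImplicit false

/-! The descent in the dimension. -/

namespace Pool.Agent.Run7.h58.LR

open MeasureTheory Set Complex Filter
open scoped ENNReal NNReal RealInnerProductSpace FourierTransform
open Pool.Agent.H789R2.FR (E sg T sg_finite sg_ae sg_inv L2_bound)
open Pool.Agent.H438R2.BR (Q J J_mp J_inner)
open Pool.Agent.H438R2.BR.T10 (e0 e0_norm)
open Pool.Agent.H438R2.PD (T_meas' T_le P1 P2 P1_J P2_J)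
open Pool.Agent.TH335.RF (RT)

variable {m : ℕ}

/-- the estimate for the class of densities regular in the first `k` angles -/
def IND (κ : ℝ) (k n : ℕ) : Prop := ∀ K : ℝ, 0 < K → ∀ P : ℝ, 2 * (n : ℝ) / ((n : ℝ) - 1) < P →
  ∃ A : ℝ≥0, ∀ G : E n → ℂ, Cl κ K k G → ∫⁻ ξ, ‖T G ξ‖ₑ ^ P ≤ A

/-- restriction of the density to the sphere -/
noncomputable def onS {n : ℕ} (G : E n → ℂ) : E n → ℂ := {x : E n | ‖x‖ = 1}.indicator G

theorem onS_eq {n : ℕ} (G : E n → ℂ) (x : E n) (hx : ‖x‖ = 1) : onS G x = G x :=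
  indicator_of_mem (s := {x : E n | ‖x‖ = 1}) hx G

theorem onS_meas {n : ℕ} (G : E n → ℂ) (hG : Measurable G) : Measurable (onS G) :=
  hG.indicator (measurableSet_eq_fun measurable_norm measurable_const)

theorem onS_le {n : ℕ} (G : E n → ℂ) (hb : ∀ x, ‖x‖ = 1 → ‖G x‖ ≤ 1) (x : E n) :
    ‖onS G x‖ ≤ 1 := by
  by_cases hx : ‖x‖ = 1
  · rw [onS_eq G x hx]
    exact hb x hx
  · have : onS G x = 0 := indicator_of_notMem (s := {x : E n | ‖x‖ = 1}) hx G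
    rw [this, norm_zero]
    exact zero_le_one

theorem T_onS {n : ℕ} (G : E n → ℂ) (ξ : E n) : T (onS G) ξ = T G ξ := by
  refine T_congr _ _ ?_ ξ
  filter_upwards [sg_ae n] with x hx
  exact onS_eq G x hx

theorem onS_Cl {n : ℕ} (κ K : ℝ) (k : ℕ) (G : E n → ℂ) (h : Cl κ K k G) :
    Cl κ K k (onS G) := by
  obtain ⟨hG, hb, harc⟩ := h
  refine ⟨onS_meas G hG, fun x _ => onS_le G hb x, fun j hj1 hjk v hv hv0 θ hθ => ?_⟩
  have h1 : ∀ s, onS G (arc j v s) = G (arc j v s) := fun s =>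
    onS_eq G _ (by rw [arc_norm j v s hv0, hv])
  simp only [h1]
  exact harc j hj1 hjk v hv hv0 θ hθ

theorem hG_two (P : ℝ) (hP : 0 < P) (G : E (2 + m) → ℂ) (hGm : Measurable G) (u : E 2) (B : ℝ≥0∞)
    (c1 : ∫⁻ z, ‖T (kk G u) z‖ₑ ^ P ≤ B) (c2 : ∫⁻ z, ‖T (kq G u) z‖ₑ ^ P ≤ B) :
    ∫⁻ s, ∫⁻ t, hG G u s t ^ P ≤ 2 ^ P * (B + B) := by
  have ku : Measurable fun η : E (1 + m) => (u, η) := measurable_const.prodMk measurable_id
  have m1 : Measurable (kk G u) := by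
    have h := (kk_meas' G hGm).comp ku
    exact h
  have m2 : Measurable (kq G u) := by
    have h := (kq_meas G hGm).comp ku
    exact h
  rw [← slice (kk G u) m1 P] at c1
  rw [← slice (kq G u) m2 P] at c2
  have mm : ∀ k : E (1 + m) → ℂ, Measurable k →
      Measurable fun p : ℝ × E m => ‖T k (J (p.1 • e0) p.2)‖ₑ ^ P := by
    intro k hk
    have h := ((T_meas' k hk).comp (Jse_meas (m := m))).enorm.pow_const P
    exact h
  have hst : ∀ s : ℝ, Measurable fun t : E m => ‖T (kk G u) (J (s • e0) t)‖ₑ ^ P := by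
    intro s
    have k : Measurable fun t : E m => (s, t) := measurable_const.prodMk measurable_id
    have h := (mm (kk G u) m1).comp k
    exact h
  have hs : Measurable fun s : ℝ => ∫⁻ t : E m, ‖T (kk G u) (J (s • e0) t)‖ₑ ^ P :=
    (mm (kk G u) m1).lintegral_prod_right'
  have h2P : (2 : ℝ≥0∞) ^ P ≠ ⊤ := ENNReal.rpow_ne_top_of_nonneg hP.le (by norm_num)
  calc ∫⁻ s, ∫⁻ t, hG G u s t ^ P
      ≤ ∫⁻ s, ∫⁻ t, 2 ^ P * (‖T (kk G u) (J (s • e0) t)‖ₑ ^ P +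
        ‖T (kq G u) (J (s • e0) t)‖ₑ ^ P) := by
        refine lintegral_mono fun s => lintegral_mono fun t => ?_
        exact two_rpow _ _ P hP.le
    _ = 2 ^ P * ∫⁻ s, ∫⁻ t, (‖T (kk G u) (J (s • e0) t)‖ₑ ^ P +
        ‖T (kq G u) (J (s • e0) t)‖ₑ ^ P) := by
        rw [← lintegral_const_mul' _ _ h2P]
        refine lintegral_congr fun s => ?_
        rw [lintegral_const_mul' _ _ h2P]
    _ = 2 ^ P * ((∫⁻ s, ∫⁻ t, ‖T (kk G u) (J (s • e0) t)‖ₑ ^ P) +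
        ∫⁻ s, ∫⁻ t, ‖T (kq G u) (J (s • e0) t)‖ₑ ^ P) := by
        congr 1
        rw [← lintegral_add_left hs]
        refine lintegral_congr fun s => ?_
        rw [lintegral_add_left (hst s)]
    _ ≤ _ := by gcongr

theorem expoP (A q : ℝ) (hA : 2 < A) (hq : 4 - 4 / A < q) :
    ∃ P ε : ℝ, A < P ∧ q < P ∧ 0 < ε ∧ ε < 1 ∧
      1 - (1 - ε) * P * (q - 2) / (2 * (P - 2)) < 0 := by
  have hA0 : 0 < A := by linarith
  have hq2 : 2 < q := by
    have : 4 / A < 2 := by rw [div_lt_iff₀ hA0]; linarith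
    linarith
  -- a number above `A`
  obtain ⟨P₀, hAP, hP₀⟩ : ∃ P₀ : ℝ, A < P₀ ∧ 2 * (P₀ - 2) < P₀ * (q - 2) := by
    have h1 : 4 / A * A = 4 := div_mul_cancel₀ _ hA0.ne'
    have h2 : 0 < A * (q - 2) - 2 * (A - 2) := by
      nlinarith [mul_lt_mul_of_pos_right hq hA0]
    refine ⟨A + (A * (q - 2) - 2 * (A - 2)) / 8, by linarith, ?_⟩
    rcases le_or_gt 4 q with h | h
    · nlinarith
    · nlinarith
  obtain ⟨P, hAP', hqP, hPc⟩ : ∃ P : ℝ, A < P ∧ q < P ∧ 2 * (P - 2) < P * (q - 2) := by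
    by_cases hc : q < P₀
    · exact ⟨P₀, hAP, hc, hP₀⟩
    · have hc' : P₀ ≤ q := not_lt.1 hc
      have hη : 0 < (q - 2) ^ 2 / 4 := by
        have : 0 < q - 2 := by linarith
        positivity
      refine ⟨q + (q - 2) ^ 2 / 4, by linarith, by linarith, ?_⟩
      nlinarith [sq_nonneg (q - 2), mul_pos hη (by linarith : 0 < q - 2),
        mul_pos (by linarith : (0 : ℝ) < q - 2) (by linarith : (0 : ℝ) < q - 2)]
  have hP2 : 0 < P - 2 := by linarith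
  have hX : 0 < P * (q - 2) := mul_pos (by linarith) (by linarith)
  refine ⟨P, (P * (q - 2) - 2 * (P - 2)) / (2 * (P * (q - 2))), hAP', hqP, ?_, ?_, ?_⟩
  · apply div_pos (by linarith) (by linarith)
  · rw [div_lt_one (by linarith)]
    linarith
  · have e : (1 - (P * (q - 2) - 2 * (P - 2)) / (2 * (P * (q - 2)))) * P * (q - 2) =
        (P * (q - 2) + 2 * (P - 2)) / 2 := by
      rw [mul_assoc, sub_mul, div_mul_eq_mul_div, one_mul]
      rw [mul_div_assoc]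
      rw [show P * (q - 2) / (2 * (P * (q - 2))) = 1 / 2 by
        rw [div_eq_div_iff (by positivity) (by norm_num)]; ring]
      ring
    rw [e, sub_neg, lt_div_iff₀ (by linarith)]
    linarith

theorem expo2 (q κ : ℝ) (hq2 : 2 < q) (hκ : 0 < κ)
    (hq : 2 * ((m : ℝ) + 3) / ((m : ℝ) + 1 + 2 * κ) < q) :
    ∃ P' : ℝ, 2 * ((2 + m : ℕ) + 1 : ℝ) / (((2 + m : ℕ) : ℝ) - 1) < P' ∧ q < P' ∧
      (P' - q) / (P' - 2) - κ * q / 2 < 0 := by
  have hm0 : (0 : ℝ) ≤ m := Nat.cast_nonneg m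
  have e1 : 2 * ((2 + m : ℕ) + 1 : ℝ) / (((2 + m : ℕ) : ℝ) - 1) =
      2 * ((m : ℝ) + 3) / ((m : ℝ) + 1) := by
    push_cast
    congr 1 <;> ring
  rw [e1]
  set A : ℝ := 2 * ((m : ℝ) + 3) / ((m : ℝ) + 1) with hA
  have hA1 : A * ((m : ℝ) + 1) = 2 * ((m : ℝ) + 3) := div_mul_cancel₀ _ (by positivity)
  have hA2 : 2 < A := by
    rw [hA, lt_div_iff₀ (by positivity)]
    linarith
  rw [div_lt_iff₀ (by positivity)] at hq
  have hf : 0 < κ * q * (max q A - 2) - 2 * (max q A - q) := by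
    rcases le_total A q with h | h
    · rw [max_eq_left h, sub_self, mul_zero, sub_zero]
      have : 0 < q - 2 := by linarith
      positivity
    · rw [max_eq_right h]
      have h2 : (A - 2) * ((m : ℝ) + 1) = 4 := by linarith
      have h3 : 0 < (κ * q * (A - 2) - 2 * (A - q)) * ((m : ℝ) + 1) := by
        have : (κ * q * (A - 2) - 2 * (A - q)) * ((m : ℝ) + 1) =
            κ * q * ((A - 2) * ((m : ℝ) + 1)) - 2 * (A * ((m : ℝ) + 1)) +
              2 * q * ((m : ℝ) + 1) := by ring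
        rw [this, h2, hA1]
        nlinarith
      exact (mul_pos_iff_of_pos_right (by positivity)).1 h3
  set M : ℝ := max q A with hM
  set f : ℝ := κ * q * (M - 2) - 2 * (M - q) with hfd
  have hMq : q ≤ M := le_max_left _ _
  have hMA : A ≤ M := le_max_right _ _
  refine ⟨M + f / 4, by linarith, by linarith, ?_⟩
  have hpos : 0 < M + f / 4 - 2 := by linarith
  rw [sub_neg, div_lt_iff₀ hpos]
  have hκq : 0 < κ * q := by positivity
  nlinarith [mul_pos hκq hf]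

theorem step (k : ℕ) (hm : 1 ≤ m) (κ : ℝ) (hκ0 : 0 < κ) (hκ1 : κ ≤ 1 / 2)
    (hκm : ((m : ℝ) + 1) / ((m : ℝ) + 2) ≤ 2 * κ) (h : IND κ k (1 + m)) : IND κ (k + 1) (2 + m) := by
  intro K hK q hq
  have hm0 : (1 : ℝ) ≤ m := by exact_mod_cast hm
  have hq' : 2 * ((m : ℝ) + 2) / ((m : ℝ) + 1) < q := by
    refine lt_of_le_of_lt (le_of_eq ?_) hq
    push_cast
    congr 1 <;> ring
  set A : ℝ := 2 * ((m : ℝ) + 1) / m with hA
  have hA2 : 2 < A := by
    rw [hA, lt_div_iff₀ (by linarith)]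
    linarith
  have hAq : 4 - 4 / A < q := by
    refine lt_of_le_of_lt (le_of_eq ?_) hq'
    rw [hA]
    field_simp
    ring
  have hq2 : 2 < q := by
    refine lt_trans ?_ hq'
    rw [lt_div_iff₀ (by linarith)]
    linarith
  obtain ⟨P, ε, hAP, hqP, hε, hε1, h1⟩ := expoP A q hA2 hAq
  have hκq : 2 * ((m : ℝ) + 3) / ((m : ℝ) + 1 + 2 * κ) < q := by
    refine lt_of_le_of_lt ?_ hq'
    rw [div_le_div_iff₀ (by positivity) (by positivity)]
    rw [div_le_iff₀ (by positivity)] at hκm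
    nlinarith
  obtain ⟨P', hTS, hqP', h2⟩ := expo2 (m := m) q κ hq2 hκ0 hκq
  obtain ⟨A₁, hA₁⟩ := h (2 * K + 4) (by linarith) P (by
    refine lt_of_le_of_lt (le_of_eq ?_) hAP
    rw [hA]
    push_cast
    congr 1 <;> ring)
  obtain ⟨w, hw, hreg⟩ := Reg_of_Cl (m := m) hm
  have hP0 : 0 < P := by linarith
  have hne : (2 : ℝ≥0∞) ^ P * (A₁ + A₁) ≠ ⊤ :=
    ENNReal.mul_ne_top (ENNReal.rpow_ne_top_of_nonneg hP0.le (by norm_num)) (by simp)
  obtain ⟨C, hC⟩ := LQ hm P q κ P' ε hq2 hqP hε hε1 hκ0 (w * (2 * K + 4)) (by positivity)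
    ((2 : ℝ≥0∞) ^ P * (A₁ + A₁)).toNNReal hTS hqP' h1 h2
  refine ⟨C, fun G hG => ?_⟩
  have hG1 := onS_Cl κ K (k + 1) G hG
  have hb : ∀ x, ‖onS G x‖ ≤ 1 := onS_le G hG.2.1
  have h3 := hC (onS G) hG1.1 hb (hreg κ K (k + 1) (onS G) hκ1 hK (by omega) hG1 hb) (by
    intro u hu
    rw [ENNReal.coe_toNNReal hne]
    obtain ⟨s1, s2⟩ := slice_q hκ1 hK (onS G) hG1 hb u hu
    exact hG_two P hP0 (onS G) hG1.1 u A₁ (hA₁ _ s2) (hA₁ _ s1))
  simp only [T_onS] at h3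
  exact h3

theorem base (κ : ℝ) (d : ℕ) (hS : ∀ P : ℝ, 2 * (d : ℝ) / ((d : ℝ) - 1) < P → RT d P) :
    IND κ 0 d := by
  intro K _ P hP
  obtain ⟨C, _, hT⟩ := hS P hP
  refine ⟨C.toNNReal, fun G hG => ?_⟩
  have h := hT (onS G) (onS_meas G hG.1) (onS_le G hG.2.1)
  simp only [T_onS] at h
  exact h

/-- the descent -/
theorem desc (d : ℕ) (hd : 2 ≤ d) (hS : ∀ P : ℝ, 2 * (d : ℝ) / ((d : ℝ) - 1) < P → RT d P)
    (κ : ℝ) (hκ0 : 0 < κ) (hκ1 : κ ≤ 1 / 2) : ∀ k : ℕ,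
      (((d + k : ℕ) : ℝ) - 1) / ((d + k : ℕ) : ℝ) ≤ 2 * κ → IND κ k (d + k) := by
  intro k
  induction k with
  | zero => exact fun _ => base κ d hS
  | succ k ih =>
    intro hk
    obtain ⟨m, hm⟩ : ∃ m, d + k = 1 + m := ⟨d + k - 1, by omega⟩
    have hm1 : 1 ≤ m := by omega
    have e : d + (k + 1) = 2 + m := by omega
    have hmr : (1 : ℝ) ≤ m := by exact_mod_cast hm1
    rw [e] at hk ⊢
    rw [hm] at ih
    have hk' : ((m : ℝ) + 1) / ((m : ℝ) + 2) ≤ 2 * κ := by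
      refine le_trans (le_of_eq ?_) hk
      push_cast
      congr 1 <;> ring
    refine step k hm1 κ hκ0 hκ1 hk' (ih ?_)
    refine le_trans ?_ hk'
    push_cast
    rw [div_le_div_iff₀ (by positivity) (by positivity)]
    nlinarith

/-- the circle -/
theorem RT_two (P : ℝ) (hP : 4 < P) : RT 2 P := by
  obtain ⟨C, hC⟩ := Pool.Agent.TH554.J1595.circle P hP
  have hfin := sg_finite 2
  have hne : C * (sg 2 univ) ^ (P / 4) ≠ ⊤ := ENNReal.mul_ne_top ENNReal.coe_ne_top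
    (ENNReal.rpow_ne_top_of_nonneg (by linarith) (measure_lt_top _ _).ne)
  refine ⟨(C * (sg 2 univ) ^ (P / 4)).toReal + 1, by positivity, fun g hg hb => ?_⟩
  refine (hC g hg ⟨1, hb⟩).trans ?_
  have h1 : ∫⁻ z, ‖g z‖ₑ ^ 4 ∂(sg 2) ≤ sg 2 univ := by
    calc ∫⁻ z, ‖g z‖ₑ ^ 4 ∂(sg 2) ≤ ∫⁻ _z, 1 ∂(sg 2) := by
          refine lintegral_mono fun z => ?_
          have : ‖g z‖ₑ ≤ 1 := by
            rw [← ofReal_norm, ENNReal.ofReal_le_one]
            exact hb z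
          exact pow_le_one₀ zero_le this
      _ = _ := by rw [lintegral_const, one_mul]
  calc C * (∫⁻ z, ‖g z‖ₑ ^ 4 ∂(sg 2)) ^ (P / 4) ≤ C * (sg 2 univ) ^ (P / 4) := by gcongr
    _ = ENNReal.ofReal ((C * (sg 2 univ) ^ (P / 4)).toReal) := (ENNReal.ofReal_toReal hne).symm
    _ ≤ _ := ENNReal.ofReal_le_ofReal (by linarith)

end Pool.Agent.Run7.h58.LR
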