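import Mathlib
import Pool.Agent.Run7.h58.LR.Arc
import Pool.Agent.Run7.h58.MV.BV
set_option autoImplicit false

/-! Bounded variation: products, moduli of continuity on an interval. -/

namespace Pool.Agent.Run7.h58.LR

open MeasureTheory Set Complex Filter
open scoped ENNReal NNReal
open Pool.Agent.Run7.h58.MV (modVar)

/-- variation of the product with a monotone function with values in `[0, 1]` -/
theorem var_mul (s : Set ℝ) (f : ℝ → ℂ) (c : ℝ → ℝ) (hc : MonotoneOn c s)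
    (h0 : ∀ z ∈ s, 0 ≤ c z) (h1 : ∀ z ∈ s, c z ≤ 1) (hf : ∀ z ∈ s, ‖f z‖ ≤ 1) :
    eVariationOn (fun z => (c z : ℂ) * f z) s ≤ eVariationOn f s + 1 := by
  unfold eVariationOn
  refine iSup_le ?_
  rintro ⟨n, u, hu, hus⟩
  simp only
  have hterm : ∀ i ∈ Finset.range n, edist ((c (u (i + 1)) : ℂ) * f (u (i + 1)))
      ((c (u i) : ℂ) * f (u i)) ≤ edist (f (u (i + 1))) (f (u i)) +
        ENNReal.ofReal (c (u (i + 1)) - c (u i)) := by
    intro i _
    rw [edist_eq_enorm_sub, edist_eq_enorm_sub]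
    have e1 : (c (u (i + 1)) : ℂ) * f (u (i + 1)) - (c (u i) : ℂ) * f (u i) =
        (c (u (i + 1)) : ℂ) * (f (u (i + 1)) - f (u i)) +
          ((c (u (i + 1)) - c (u i) : ℝ) : ℂ) * f (u i) := by
      push_cast
      ring
    rw [e1]
    refine (enorm_add_le _ _).trans (add_le_add ?_ ?_)
    · rw [enorm_mul]
      calc ‖(c (u (i + 1)) : ℂ)‖ₑ * ‖f (u (i + 1)) - f (u i)‖ₑ
          ≤ 1 * ‖f (u (i + 1)) - f (u i)‖ₑ := by
            gcongr
            rw [← ofReal_norm, Complex.norm_real, Real.norm_of_nonneg (h0 _ (hus _)),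
              ENNReal.ofReal_le_one]
            exact h1 _ (hus _)
        _ = _ := one_mul _
    · have hmono : c (u i) ≤ c (u (i + 1)) := hc (hus _) (hus _) (hu (Nat.le_succ i))
      rw [← ofReal_norm, norm_mul, Complex.norm_real, Real.norm_of_nonneg (by linarith)]
      apply ENNReal.ofReal_le_ofReal
      calc (c (u (i + 1)) - c (u i)) * ‖f (u i)‖ ≤ (c (u (i + 1)) - c (u i)) * 1 := by
            refine mul_le_mul_of_nonneg_left (hf _ (hus _)) (by linarith)
        _ = _ := mul_one _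
  calc ∑ i ∈ Finset.range n, edist ((c (u (i + 1)) : ℂ) * f (u (i + 1))) ((c (u i) : ℂ) * f (u i))
      ≤ ∑ i ∈ Finset.range n, (edist (f (u (i + 1))) (f (u i)) +
        ENNReal.ofReal (c (u (i + 1)) - c (u i))) := Finset.sum_le_sum hterm
    _ = (∑ i ∈ Finset.range n, edist (f (u (i + 1))) (f (u i))) +
        ENNReal.ofReal (∑ i ∈ Finset.range n, (c (u (i + 1)) - c (u i))) := by
        rw [Finset.sum_add_distrib, ENNReal.ofReal_sum_of_nonneg]
        intro i _
        have : c (u i) ≤ c (u (i + 1)) := hc (hus _) (hus _) (hu (Nat.le_succ i))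
        linarith
    _ ≤ _ := by
        refine add_le_add ?_ ?_
        · exact le_iSup (fun p : ℕ × {u : ℕ → ℝ // Monotone u ∧ ∀ i, u i ∈ s} =>
            ∑ i ∈ Finset.range p.1, edist (f ((p.2 : ℕ → ℝ) (i + 1))) (f ((p.2 : ℕ → ℝ) i)))
            ⟨n, ⟨u, hu, hus⟩⟩
        · rw [Finset.sum_range_sub (fun i => c (u i)) n, ENNReal.ofReal_le_one]
          have h2 := h1 _ (hus n)
          have h3 := h0 _ (hus 0)
          linarith

/-- the function supported in `(a, b)` -/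
noncomputable def cutf (a b : ℝ) (f : ℝ → ℂ) : ℝ → ℂ := (Ioo a b).indicator f

/-- modulus of continuity of a function of bounded variation on an interval -/
theorem modI (a b : ℝ) (hab : a < b) (f : ℝ → ℂ) (hf : Measurable f) (V : ℝ≥0∞)
    (hb : ∀ τ ∈ Ioo a b, ‖f τ‖ ≤ 1) (hv : eVariationOn f (Ioo a b) ≤ V) (h : ℝ) :
    ∫⁻ z, ‖cutf a b f (z + h) - cutf a b f z‖ₑ ≤ ENNReal.ofReal |h| * (3 * (V + 1)) := by
  set ℓ : ℝ := (b - a) / 2 with hℓ
  set c : ℝ := (a + b) / 2 with hc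
  have hℓ0 : 0 < ℓ := by rw [hℓ]; linarith
  have hmap : ∀ w : ℝ, w ∈ Ioo (-1 : ℝ) 1 ↔ ℓ * w + c ∈ Ioo a b := by
    intro w
    rw [mem_Ioo, mem_Ioo, hℓ, hc]
    constructor
    · rintro ⟨h1, h2⟩
      constructor <;> nlinarith
    · rintro ⟨h1, h2⟩
      constructor
      · by_contra hh
        nlinarith [not_lt.1 hh]
      · by_contra hh
        nlinarith [not_lt.1 hh]
  set F : ℝ → ℂ := fun w => cutf a b f (ℓ * w + c) with hF
  have hcm : Measurable (cutf a b f) := hf.indicator measurableSet_Ioo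
  have hFm : Measurable F := hcm.comp ((measurable_id.const_mul ℓ).add_const c)
  have hF0 : ∀ w, w ∉ Ioo (-1 : ℝ) 1 → F w = 0 := fun w hw =>
    indicator_of_notMem (fun h => hw ((hmap w).2 h)) _
  have hFb : ∀ w, ‖F w‖ₑ ≤ V + 1 := by
    intro w
    by_cases hw : w ∈ Ioo (-1 : ℝ) 1
    · have h1 := (hmap w).1 hw
      have e : F w = f (ℓ * w + c) := indicator_of_mem h1 _
      rw [e, ← ofReal_norm]
      refine le_trans ?_ le_add_self
      rw [ENNReal.ofReal_le_one]
      exact hb _ h1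
    · rw [hF0 w hw, enorm_zero]
      exact zero_le
  have hFv : eVariationOn F (Ioo (-1 : ℝ) 1) ≤ V + 1 := by
    have e1 : eVariationOn F (Ioo (-1 : ℝ) 1) =
        eVariationOn (f ∘ fun w => ℓ * w + c) (Ioo (-1 : ℝ) 1) := by
      refine eVariationOn.congr fun w hw => ?_
      exact indicator_of_mem ((hmap w).1 hw) _
    rw [e1]
    have hmono : MonotoneOn (fun w : ℝ => ℓ * w + c) (Ioo (-1 : ℝ) 1) := by
      intro x _ y _ hxy
      have := mul_le_mul_of_nonneg_left hxy hℓ0.le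
      simp only
      linarith
    have hmaps : MapsTo (fun w : ℝ => ℓ * w + c) (Ioo (-1 : ℝ) 1) (Ioo a b) :=
      fun w hw => (hmap w).1 hw
    exact (eVariationOn.comp_le_of_monotoneOn f _ hmono hmaps).trans (hv.trans le_self_add)
  have h3 := modVar F hFm (V + 1) hF0 hFb hFv (h / ℓ)
  -- change of variables
  set g : ℝ → ℝ≥0∞ := fun z => ‖cutf a b f (z + h) - cutf a b f z‖ₑ with hg
  have hgm : Measurable g := ((hcm.comp (measurable_id.add_const h)).sub hcm).enorm
  have e2 : ∀ w, ‖F (w + h / ℓ) - F w‖ₑ = g (ℓ * w + c) := by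
    intro w
    simp only [hF, hg]
    congr 3
    field_simp
    ring
  simp only [e2] at h3
  have e3 : ∫⁻ z, g z = ENNReal.ofReal ℓ * ∫⁻ w, g (ℓ * w + c) := by
    have h4 : ∫⁻ z, g z = ∫⁻ z, g (z + c) := (lintegral_add_right_eq_self g c).symm
    have h5 := Real.map_volume_mul_left (a := ℓ) hℓ0.ne'
    have hgc : Measurable fun z : ℝ => g (z + c) := hgm.comp (measurable_id.add_const c)
    have h6 : ∫⁻ z, g (z + c) ∂(Measure.map (fun x : ℝ => ℓ * x) volume) =
        ∫⁻ w : ℝ, g (ℓ * w + c) := lintegral_map hgc (measurable_const_mul _)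
    rw [h5, lintegral_smul_measure, smul_eq_mul, abs_of_pos (inv_pos.2 hℓ0)] at h6
    rw [h4, ← h6, ← mul_assoc, ← ENNReal.ofReal_mul hℓ0.le, mul_inv_cancel₀ hℓ0.ne',
      ENNReal.ofReal_one, one_mul]
  rw [e3]
  calc ENNReal.ofReal ℓ * ∫⁻ w, g (ℓ * w + c)
      ≤ ENNReal.ofReal ℓ * (ENNReal.ofReal |h / ℓ| * (3 * (V + 1))) := by gcongr
    _ = _ := by
        rw [← mul_assoc, ← ENNReal.ofReal_mul hℓ0.le, abs_div, abs_of_pos hℓ0]
        congr 2
        field_simp

/-- the `L²` modulus inside an interval -/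
theorem modI2 (a b : ℝ) (hab : a < b) (f : ℝ → ℂ) (hf : Measurable f) (K : ℝ) (hK : 0 < K)
    (hb : ∀ τ ∈ Ioo a b, ‖f τ‖ ≤ 1) (hv : eVariationOn f (Ioo a b) ≤ ENNReal.ofReal K) (h : ℝ)
    (hh : 0 < h) :
    ∫⁻ z in Ioo a (b - h), ‖f (z + h) - f z‖ₑ ^ (2 : ℝ) ≤ ENNReal.ofReal (6 * (K + 1) * h) := by
  have h1 := modI a b hab f hf (ENNReal.ofReal K) hb hv h
  calc ∫⁻ z in Ioo a (b - h), ‖f (z + h) - f z‖ₑ ^ (2 : ℝ)
      ≤ ∫⁻ z in Ioo a (b - h), 2 * ‖cutf a b f (z + h) - cutf a b f z‖ₑ := by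
        refine setLIntegral_mono' measurableSet_Ioo fun z hz => ?_
        have m1 : z ∈ Ioo a b := ⟨hz.1, by linarith [hz.2]⟩
        have m2 : z + h ∈ Ioo a b := ⟨by linarith [hz.1], by linarith [hz.2]⟩
        have e1 : cutf a b f z = f z := indicator_of_mem m1 _
        have e2 : cutf a b f (z + h) = f (z + h) := indicator_of_mem m2 _
        rw [e1, e2]
        have h2 : ‖f (z + h) - f z‖ₑ ≤ 2 := by
          rw [← ofReal_norm, show (2 : ℝ≥0∞) = ENNReal.ofReal 2 by norm_num]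
          apply ENNReal.ofReal_le_ofReal
          calc ‖f (z + h) - f z‖ ≤ ‖f (z + h)‖ + ‖f z‖ := norm_sub_le _ _
            _ ≤ 1 + 1 := add_le_add (hb _ m2) (hb _ m1)
            _ = 2 := by norm_num
        rw [show (2 : ℝ) = 1 + 1 by norm_num, ENNReal.rpow_add_of_nonneg _ _ zero_le_one
          zero_le_one, ENNReal.rpow_one]
        gcongr
    _ = 2 * ∫⁻ z in Ioo a (b - h), ‖cutf a b f (z + h) - cutf a b f z‖ₑ :=
        lintegral_const_mul' _ _ (by norm_num)
    _ ≤ 2 * (ENNReal.ofReal |h| * (3 * (ENNReal.ofReal K + 1))) :=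
        mul_le_mul' le_rfl ((setLIntegral_le_lintegral _ _).trans h1)
    _ = _ := by
        rw [abs_of_pos hh, ← ENNReal.ofReal_one, ← ENNReal.ofReal_add hK.le zero_le_one,
          show (3 : ℝ≥0∞) = ENNReal.ofReal 3 by norm_num,
          show (2 : ℝ≥0∞) = ENNReal.ofReal 2 by norm_num,
          ← ENNReal.ofReal_mul (by norm_num), ← ENNReal.ofReal_mul hh.le,
          ← ENNReal.ofReal_mul (by norm_num)]
        congr 1
        ring

end Pool.Agent.Run7.h58.LR
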