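import Mathlib
import Pool.Agent.Run7.h58.LR.Var
import Pool.Agent.Run7.h58.MV.Full3
set_option autoImplicit false

/-! The base of the descent: the sphere of `ℝ³`, arbitrary longitude. -/

namespace Pool.Agent.Run7.h58.LR

open MeasureTheory Set Complex Filter
open scoped ENNReal NNReal RealInnerProductSpace
open Pool.Agent.H789R2.FR (E sg T sg_finite sg_ae sg_inv)
open Pool.Agent.H438R2.PD (T_meas' T_comp)
open Pool.Agent.Run7.h58.MV (modVar Ps pf_meas pf_in pf_out pf_ae den den_meas thmC T_smul Rs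
  Rs_apply Rs_zero Rs_two Rs_Rs jj_zero jj_two)

/-- variation at most `K` along the arcs that join a point of the first `n - 2` coordinates to a
point of the last two -/
def MerZ {n : ℕ} (K : ℝ) (G : E n → ℂ) : Prop := ∀ a b : E n, ‖a‖ = 1 → ‖b‖ = 1 →
  (∀ i : Fin n, n ≤ i.val + 2 → a i = 0) → (∀ i : Fin n, i.val + 2 < n → b i = 0) →
  eVariationOn (fun z : ℝ => G (z • a + Real.sqrt (1 - z ^ 2) • b)) (Ioo 0 1) ≤ ENNReal.ofReal K

theorem Ps_one (z : ℝ) (u : E 2) : Ps z u 1 = Real.sqrt (1 - z ^ 2) * u 1 := by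
  unfold Ps Pool.Agent.Run7.h58.MV.jj Pool.Agent.H438R2.BR.J
  have h : (Fin.append (fun i => (Real.sqrt (1 - z ^ 2) • u) i)
      (fun i => (z • Pool.Agent.H438R2.BR.T10.e0) i) : Fin (2 + 1) → ℝ) (Fin.castAdd 1 1) =
      (Real.sqrt (1 - z ^ 2) • u) 1 := Fin.append_left _ _ _
  exact h

theorem Ps_zero (z : ℝ) (u : E 2) : Ps z u 0 = Real.sqrt (1 - z ^ 2) * u 0 := jj_zero _ _

theorem Ps_two (z : ℝ) (u : E 2) : Ps z u 2 = z := jj_two _ _

/-- the axis -/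
noncomputable def ax (s : ℝ) : E 3 := !₂[s, 0, 0]

/-- the point of the equator -/
noncomputable def eq3 (u : E 2) : E 3 := !₂[0, u 1, u 0]

theorem Rs_Ps (z : ℝ) (u : E 2) (s : ℝ) (hs : s * s = 1) :
    Rs (Ps z u) = (s * z) • ax s + Real.sqrt (1 - (s * z) ^ 2) • eq3 u := by
  have e : (s * z) ^ 2 = z ^ 2 := by rw [mul_pow, sq s, hs, one_mul]
  rw [e]
  ext i
  fin_cases i
  · change Rs (Ps z u) 0 = (s * z) * s + Real.sqrt (1 - z ^ 2) * 0
    rw [Rs_zero, Ps_two]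
    linear_combination (-z) * hs
  · change Rs (Ps z u) 1 = (s * z) * 0 + Real.sqrt (1 - z ^ 2) * u 1
    rw [Rs_apply, Equiv.swap_apply_of_ne_of_ne (by decide) (by decide), Ps_one]
    ring
  · change Rs (Ps z u) 2 = (s * z) * 0 + Real.sqrt (1 - z ^ 2) * u 0
    rw [Rs_two, Ps_zero]
    ring

theorem ax_norm (s : ℝ) (hs : s * s = 1) : ‖ax s‖ = 1 := by
  have h1 : ‖ax s‖ ^ 2 = 1 := by
    rw [EuclideanSpace.norm_sq_eq, Fin.sum_univ_three]
    simp [ax, sq, hs]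
  exact (pow_left_inj₀ (norm_nonneg _) zero_le_one (by norm_num : (2 : ℕ) ≠ 0)).1 (by
    rw [h1, one_pow])

theorem eq3_norm (u : E 2) (hu : ‖u‖ = 1) : ‖eq3 u‖ = 1 := by
  have h2 := Pool.Agent.Run7.h58.MV.norm_two u
  rw [hu] at h2
  have h1 : ‖eq3 u‖ ^ 2 = 1 := by
    rw [EuclideanSpace.norm_sq_eq, Fin.sum_univ_three]
    simp only [eq3, Real.norm_eq_abs, sq_abs]
    change (0 : ℝ) ^ 2 + u 1 ^ 2 + u 0 ^ 2 = 1
    linarith
  exact (pow_left_inj₀ (norm_nonneg _) zero_le_one (by norm_num : (2 : ℕ) ≠ 0)).1 (by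
    rw [h1, one_pow])

/-- the function on the half meridian -/
noncomputable def hm (G : E 3 → ℂ) (s : ℝ) (u : E 2) (z : ℝ) : ℂ :=
  G (z • ax s + Real.sqrt (1 - z ^ 2) • eq3 u)

theorem hm_meas (G : E 3 → ℂ) (hG : Measurable G) (s : ℝ) (u : E 2) : Measurable (hm G s u) := by
  unfold hm
  refine hG.comp ?_
  have h1 : Measurable fun z : ℝ => Real.sqrt (1 - z ^ 2) := Measurable.sqrt (by fun_prop)
  exact (measurable_id.smul_const _).add (h1.smul_const _)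

theorem mod_pf (G : E 3 → ℂ) (hG : Measurable G) (hb : ∀ x, ‖G x‖ ≤ 1) (K : ℝ) (hK : 0 < K)
    (hM : MerZ K G) (u : E 2) (hu : ‖u‖ = 1) (h : ℝ) :
    ∫⁻ z, ‖MV.pf (fun x => G (Rs x)) (z + h) u - MV.pf (fun x => G (Rs x)) z u‖ₑ ≤
      ENNReal.ofReal |h| * ENNReal.ofReal (6 * (K + 1)) := by
  have hv : ∀ s : ℝ, s * s = 1 → eVariationOn (hm G s u) (Ioo 0 1) ≤ ENNReal.ofReal K := by
    intro s hs
    refine hM (ax s) (eq3 u) (ax_norm s hs) (eq3_norm u hu) ?_ ?_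
    · intro i hi
      have : i = 1 ∨ i = 2 := by
        have := i.isLt
        have h3 : i.val = 1 ∨ i.val = 2 := by omega
        rcases h3 with h3 | h3
        · left; exact Fin.ext h3
        · right; exact Fin.ext h3
      rcases this with rfl | rfl <;> rfl
    · intro i hi
      have : i = 0 := by
        apply Fin.ext
        simp only [Fin.val_zero]
        omega
      rw [this]
      rfl
  -- the decomposition
  have hdec : ∀ z : ℝ, z ≠ 0 → MV.pf (fun x => G (Rs x)) z u =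
      cutf 0 1 (hm G 1 u) z + cutf 0 1 (hm G (-1) u) (-z) := by
    intro z hz
    by_cases h1 : z ∈ Ioo (-1 : ℝ) 1
    · rw [pf_in _ z h1 u hu]
      rcases lt_or_gt_of_ne hz with h2 | h2
      · have m1 : z ∉ Ioo (0 : ℝ) 1 := fun h => absurd h.1 (not_lt.2 h2.le)
        have m2 : -z ∈ Ioo (0 : ℝ) 1 := ⟨by linarith, by linarith [h1.1]⟩
        have e1 : cutf 0 1 (hm G 1 u) z = 0 := indicator_of_notMem m1 _
        have e2 : cutf 0 1 (hm G (-1) u) (-z) = hm G (-1) u (-z) := indicator_of_mem m2 _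
        rw [e1, e2, zero_add]
        unfold hm
        rw [Rs_Ps z u (-1) (by norm_num)]
        congr 2
        · congr 1; ring
        · congr 2; ring
      · have m1 : z ∈ Ioo (0 : ℝ) 1 := ⟨h2, h1.2⟩
        have m2 : -z ∉ Ioo (0 : ℝ) 1 := fun h => absurd h.1 (not_lt.2 (by linarith))
        have e1 : cutf 0 1 (hm G 1 u) z = hm G 1 u z := indicator_of_mem m1 _
        have e2 : cutf 0 1 (hm G (-1) u) (-z) = 0 := indicator_of_notMem m2 _
        rw [e1, e2, add_zero]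
        unfold hm
        rw [Rs_Ps z u 1 (by norm_num)]
        congr 2
        · congr 1; ring
        · congr 2; ring
    · rw [pf_out _ z u (fun h => h1 h.1)]
      have m1 : z ∉ Ioo (0 : ℝ) 1 := fun h => h1 ⟨by linarith [h.1], h.2⟩
      have m2 : -z ∉ Ioo (0 : ℝ) 1 := fun h => h1 ⟨by linarith [h.2], by linarith [h.1]⟩
      have e1 : cutf 0 1 (hm G 1 u) z = 0 := indicator_of_notMem m1 _
      have e2 : cutf 0 1 (hm G (-1) u) (-z) = 0 := indicator_of_notMem m2 _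
      rw [e1, e2, add_zero]
  have hae : ∀ᵐ z : ℝ, MV.pf (fun x => G (Rs x)) z u =
      cutf 0 1 (hm G 1 u) z + cutf 0 1 (hm G (-1) u) (-z) := by
    have h0 : ∀ᵐ z : ℝ, z ≠ 0 := by
      rw [ae_iff]
      simp only [not_not]
      exact measure_singleton (0 : ℝ)
    filter_upwards [h0] with z hz
    exact hdec z hz
  have hae2 : ∀ᵐ z : ℝ, MV.pf (fun x => G (Rs x)) (z + h) u =
      cutf 0 1 (hm G 1 u) (z + h) + cutf 0 1 (hm G (-1) u) (-(z + h)) := by
    exact (quasiMeasurePreserving_add_right (volume : Measure ℝ) h).ae hae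
  have c1 := modI 0 1 one_pos (hm G 1 u) (hm_meas G hG 1 u) (ENNReal.ofReal K)
    (fun τ _ => hb _) (hv 1 (by norm_num)) h
  have c2 := modI 0 1 one_pos (hm G (-1) u) (hm_meas G hG (-1) u) (ENNReal.ofReal K)
    (fun τ _ => hb _) (hv (-1) (by norm_num)) (-h)
  rw [abs_neg] at c2
  have m1 : Measurable fun z => ‖cutf 0 1 (hm G 1 u) (z + h) - cutf 0 1 (hm G 1 u) z‖ₑ := by
    have hc : Measurable (cutf 0 1 (hm G 1 u)) := (hm_meas G hG 1 u).indicator measurableSet_Ioo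
    exact ((hc.comp (measurable_id.add_const h)).sub hc).enorm
  have c3 : ∫⁻ z, ‖cutf 0 1 (hm G (-1) u) (-(z + h)) - cutf 0 1 (hm G (-1) u) (-z)‖ₑ ≤
      ENNReal.ofReal |h| * (3 * (ENNReal.ofReal K + 1)) := by
    refine le_trans (le_of_eq ?_) c2
    have h4 := (Measure.measurePreserving_neg (volume : Measure ℝ)).lintegral_comp_emb
      (MeasurableEquiv.neg ℝ).measurableEmbedding
      (fun z => ‖cutf 0 1 (hm G (-1) u) (z + -h) - cutf 0 1 (hm G (-1) u) z‖ₑ)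
    rw [← h4]
    refine lintegral_congr fun z => ?_
    rw [neg_add]
  calc ∫⁻ z, ‖MV.pf (fun x => G (Rs x)) (z + h) u - MV.pf (fun x => G (Rs x)) z u‖ₑ
      ≤ ∫⁻ z, (‖cutf 0 1 (hm G 1 u) (z + h) - cutf 0 1 (hm G 1 u) z‖ₑ +
        ‖cutf 0 1 (hm G (-1) u) (-(z + h)) - cutf 0 1 (hm G (-1) u) (-z)‖ₑ) := by
        refine lintegral_mono_ae ?_
        filter_upwards [hae, hae2] with z h5 h6
        rw [h5, h6, add_sub_add_comm]
        exact enorm_add_le _ _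
    _ = (∫⁻ z, ‖cutf 0 1 (hm G 1 u) (z + h) - cutf 0 1 (hm G 1 u) z‖ₑ) +
        ∫⁻ z, ‖cutf 0 1 (hm G (-1) u) (-(z + h)) - cutf 0 1 (hm G (-1) u) (-z)‖ₑ :=
        lintegral_add_left m1 _
    _ ≤ ENNReal.ofReal |h| * (3 * (ENNReal.ofReal K + 1)) +
        ENNReal.ofReal |h| * (3 * (ENNReal.ofReal K + 1)) := add_le_add c1 c3
    _ = _ := by
        rw [← mul_add]
        congr 1
        rw [← ENNReal.ofReal_one, ← ENNReal.ofReal_add hK.le zero_le_one,
          show (3 : ℝ≥0∞) = ENNReal.ofReal 3 by norm_num, ← ENNReal.ofReal_mul (by norm_num),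
          ← ENNReal.ofReal_add (by positivity) (by positivity)]
        congr 1
        ring

theorem baseM (q : ℝ) (hq : 3 < q) (K : ℝ) (hK : 0 < K) : ∃ A : ℝ≥0, ∀ G : E 3 → ℂ,
    Measurable G → (∀ x, ‖G x‖ ≤ 1) → MerZ K G → ∫⁻ ξ, ‖T G ξ‖ₑ ^ q ≤ A := by
  have hfin := sg_finite 2
  have hq0 : 0 < q := by linarith
  obtain ⟨C, hC⟩ := thmC 3 q (by norm_num) hq (by
    rw [div_lt_iff₀ hq0]
    linarith)
  set S : ℝ := (sg 2 univ).toReal + 1 with hS
  have hS0 : 0 ≤ (sg 2 univ).toReal := ENNReal.toReal_nonneg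
  have hS1 : 1 ≤ S := by rw [hS]; linarith
  set ν : ℝ := S⁻¹ with hν
  have hν0 : 0 < ν := by positivity
  have hν1 : ν ≤ 1 := inv_le_one_of_one_le₀ hS1
  set l : ℝ := ν / (6 * (K + 2)) with hl
  have hl0 : 0 < l := by positivity
  have hlν : l ≤ ν := by
    rw [hl]
    exact div_le_self hν0.le (by linarith)
  have hlK : l * (6 * (K + 1)) ≤ ν := by
    rw [hl, div_mul_eq_mul_div, div_le_iff₀ (by positivity)]
    nlinarith
  have hlc : ((l : ℝ) : ℂ) ≠ 0 := by exact_mod_cast hl0.ne'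
  have hen : ‖((l : ℝ) : ℂ)‖ₑ = ENNReal.ofReal l := by
    rw [← ofReal_norm, Complex.norm_real, Real.norm_of_nonneg hl0.le]
  refine ⟨(Real.toNNReal (l⁻¹ ^ q)) * C ^ q, fun G hG hb hM => ?_⟩
  set G' : E 3 → ℂ := fun x => G (Rs x) with hG'
  have hG'm : Measurable G' := hG.comp Rs.continuous.measurable
  set F : ℝ → E 2 → ℂ := fun z u => ((l : ℝ) : ℂ) * MV.pf G' z u with hF
  have hFm : Measurable (Function.uncurry F) := (pf_meas G' hG'm).const_mul _
  have hpf : ∀ z u, ‖MV.pf G' z u‖ ≤ 1 := by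
    intro z u
    by_cases h : z ∈ Ioo (-1 : ℝ) 1 ∧ ‖u‖ = 1
    · rw [pf_in G' z h.1 u h.2]
      exact hb _
    · rw [pf_out G' z u h, norm_zero]
      exact zero_le_one
  have h1 : ∀ z u, ‖F z u‖ₑ ≤ (fun _ : E 2 => ENNReal.ofReal ν) u := by
    intro z u
    simp only [hF]
    rw [enorm_mul, hen]
    calc ENNReal.ofReal l * ‖MV.pf G' z u‖ₑ ≤ ENNReal.ofReal ν * 1 := by
          refine mul_le_mul' (ENNReal.ofReal_le_ofReal hlν) ?_
          rw [← ofReal_norm, ENNReal.ofReal_le_one]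
          exact hpf z u
      _ = _ := mul_one _
  have h2 : ∀ z u, z ∉ Ioo (-1 : ℝ) 1 → F z u = 0 := by
    intro z u hz
    simp only [hF]
    rw [pf_out G' z u (fun h => hz h.1), mul_zero]
  have h3 : ∀ (h : ℝ) (u : E 2), ∫⁻ z, ‖F (z + h) u - F z u‖ₑ ≤
      ENNReal.ofReal |h| * (fun _ : E 2 => ENNReal.ofReal ν) u := by
    intro h u
    simp only [hF]
    by_cases hu : ‖u‖ = 1
    · have h4 := mod_pf G hG hb K hK hM u hu h
      calc ∫⁻ z, ‖((l : ℝ) : ℂ) * MV.pf G' (z + h) u - ((l : ℝ) : ℂ) * MV.pf G' z u‖ₑ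
          = ENNReal.ofReal l * ∫⁻ z, ‖MV.pf G' (z + h) u - MV.pf G' z u‖ₑ := by
            rw [← lintegral_const_mul' _ _ ENNReal.ofReal_ne_top]
            refine lintegral_congr fun z => ?_
            rw [← mul_sub, enorm_mul, hen]
        _ ≤ ENNReal.ofReal l * (ENNReal.ofReal |h| * ENNReal.ofReal (6 * (K + 1))) :=
            mul_le_mul' le_rfl h4
        _ = ENNReal.ofReal |h| * ENNReal.ofReal (l * (6 * (K + 1))) := by
            rw [ENNReal.ofReal_mul hl0.le]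
            ring
        _ ≤ _ := mul_le_mul' le_rfl (ENNReal.ofReal_le_ofReal hlK)
    · have h6 : ∀ z, MV.pf G' z u = 0 := fun z => pf_out G' z u (fun h => hu h.2)
      simp only [h6, mul_zero, sub_zero, enorm_zero, lintegral_zero]
      exact zero_le
  have h4 : ∫⁻ u : E 2, (fun _ : E 2 => ENNReal.ofReal ν) u ^ (3 : ℝ) ∂(sg 2) ≤ 1 := by
    simp only
    rw [lintegral_const, ENNReal.ofReal_rpow_of_pos hν0]
    have hun : (sg 2) univ = ENNReal.ofReal ((sg 2 univ).toReal) :=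
      (ENNReal.ofReal_toReal (measure_lt_top _ _).ne).symm
    rw [hun, ← ENNReal.ofReal_mul (by positivity), ENNReal.ofReal_le_one]
    have h5 : ν ^ (3 : ℝ) ≤ ν := by
      calc ν ^ (3 : ℝ) ≤ ν ^ (1 : ℝ) := Real.rpow_le_rpow_of_exponent_ge hν0 hν1 (by norm_num)
        _ = ν := Real.rpow_one ν
    calc ν ^ (3 : ℝ) * (sg 2 univ).toReal ≤ ν * S := by
          refine mul_le_mul h5 ?_ hS0 hν0.le
          rw [hS]; linarith
      _ = 1 := by rw [hν, inv_mul_cancel₀ (by positivity)]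
  have hmain := hC F (fun _ => ENNReal.ofReal ν) hFm measurable_const h1 h2 h3 h4
  have hTm : Measurable (T (den F)) := T_meas' _ (den_meas F hFm)
  have hmain2 : ∫⁻ ξ : E 3, ‖T (den F) ξ‖ₑ ^ q ≤ (C : ℝ≥0∞) ^ q := by
    have h5 := ENNReal.rpow_le_rpow hmain hq0.le
    rwa [← ENNReal.rpow_mul, one_div_mul_cancel hq0.ne', ENNReal.rpow_one] at h5
  have hT : ∀ ξ, T G' ξ = ((l : ℝ) : ℂ)⁻¹ * T (den F) ξ := by
    intro ξ
    rw [← T_smul, ← Pool.Agent.Run7.h58.MV.T_congr _ _ (pf_ae G' hG'm) ξ]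
    congr 1
    funext x
    unfold den
    simp only [hF]
    rw [← mul_assoc, inv_mul_cancel₀ hlc, one_mul]
  have hcomp : ∫⁻ ξ, ‖T G ξ‖ₑ ^ q = ∫⁻ ξ, ‖T G' ξ‖ₑ ^ q := by
    have hm1 : Measurable fun ξ => ‖T G ξ‖ₑ ^ q := (T_meas' G hG).enorm.pow_const q
    rw [← Rs.measurePreserving.lintegral_comp hm1]
    refine lintegral_congr fun ξ => ?_
    rw [← T_comp]
  have hen2 : ‖(((l : ℝ) : ℂ)⁻¹)‖ₑ = ENNReal.ofReal l⁻¹ := by
    rw [← ofReal_norm, norm_inv, Complex.norm_real, Real.norm_of_nonneg hl0.le]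
  calc ∫⁻ ξ, ‖T G ξ‖ₑ ^ q = ∫⁻ ξ, ENNReal.ofReal (l⁻¹ ^ q) * ‖T (den F) ξ‖ₑ ^ q := by
        rw [hcomp]
        refine lintegral_congr fun ξ => ?_
        rw [hT, enorm_mul, ENNReal.mul_rpow_of_nonneg _ _ hq0.le, hen2,
          ENNReal.ofReal_rpow_of_pos (by positivity)]
    _ = ENNReal.ofReal (l⁻¹ ^ q) * ∫⁻ ξ, ‖T (den F) ξ‖ₑ ^ q :=
        lintegral_const_mul' _ _ ENNReal.ofReal_ne_top
    _ ≤ ENNReal.ofReal (l⁻¹ ^ q) * (C : ℝ≥0∞) ^ q := by gcongr
    _ = _ := by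
        rw [ENNReal.coe_mul, ENNReal.coe_rpow_of_nonneg _ hq0.le]
        rfl

end Pool.Agent.Run7.h58.LR
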