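import Mathlib
import Pool.Agent.Run7.h58.LR.Ind
import Pool.Agent.Run7.h58.LR.Mer3
set_option autoImplicit false

/-! The descent for densities arbitrary in one longitude. -/

namespace Pool.Agent.Run7.h58.LR

open MeasureTheory Set Complex Filter
open scoped ENNReal NNReal RealInnerProductSpace FourierTransform
open Pool.Agent.H789R2.FR (E sg T sg_finite sg_ae sg_inv L2_bound)
open Pool.Agent.H438R2.BR (Q J J_mp J_inner)
open Pool.Agent.H438R2.BR.T10 (e0 e0_norm)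
open Pool.Agent.H438R2.PD (T_meas' T_le P1 P2 P1_J P2_J)

variable {m : ℕ}

theorem MerZ_mono {n : ℕ} {K K' : ℝ} (h : K ≤ K') (G : E n → ℂ) (hG : MerZ K G) : MerZ K' G :=
  fun a b ha hb h1 h2 => (hG a b ha hb h1 h2).trans (ENNReal.ofReal_le_ofReal h)

theorem comb_norm {n : ℕ} (a b : E n) (ha : ‖a‖ = 1) (hb : ‖b‖ = 1)
    (h1 : ∀ i : Fin n, n ≤ i.val + 2 → a i = 0) (h2 : ∀ i : Fin n, i.val + 2 < n → b i = 0)
    (z : ℝ) (hz : z ∈ Ioo (0 : ℝ) 1) : ‖z • a + Real.sqrt (1 - z ^ 2) • b‖ = 1 := by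
  have h0 : (⟪a, b⟫ : ℝ) = 0 := by
    rw [PiLp.inner_apply]
    refine Finset.sum_eq_zero fun i _ => ?_
    by_cases hi : n ≤ i.val + 2
    · rw [h1 i hi]
      simp
    · rw [h2 i (not_le.1 hi)]
      simp
  have hs : Real.sqrt (1 - z ^ 2) ^ 2 = 1 - z ^ 2 := Real.sq_sqrt (by nlinarith [hz.1, hz.2])
  have h3 : ‖z • a + Real.sqrt (1 - z ^ 2) • b‖ ^ 2 = 1 := by
    rw [norm_add_sq_real, real_inner_smul_left, real_inner_smul_right, h0, norm_smul, norm_smul,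
      ha, hb, mul_one, mul_one, Real.norm_eq_abs, Real.norm_eq_abs, sq_abs, sq_abs, hs]
    ring
  exact (pow_left_inj₀ (norm_nonneg _) zero_le_one (by norm_num : (2 : ℕ) ≠ 0)).1 (by
    rw [h3, one_pow])

theorem onS_MerZ {n : ℕ} (K : ℝ) (G : E n → ℂ) (h : MerZ K G) : MerZ K (onS G) := by
  intro a b ha hb h1 h2
  refine le_trans (le_of_eq ?_) (h a b ha hb h1 h2)
  refine eVariationOn.congr fun z hz => ?_
  exact onS_eq G _ (comb_norm a b ha hb h1 h2 z hz)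

theorem lift_comb (u : E 2) (a b : E (1 + m)) (z w : ℝ) :
    J (hh (z • a + w • b) • u) (yy (z • a + w • b)) =
      z • J (hh a • u) (yy a) + w • J (hh b • u) (yy b) := by
  ext i
  refine Fin.addCases (fun i' => ?_) (fun i' => ?_) i
  · simp only [PiLp.add_apply, PiLp.smul_apply, smul_eq_mul, J_cast, hh_eq]
    ring
  · simp only [PiLp.add_apply, PiLp.smul_apply, smul_eq_mul, J_nat, yy_eq]

theorem slice_M (hm : 2 ≤ m) (K : ℝ) (hK : 0 < K) (G : E (2 + m) → ℂ) (h : MerZ K G)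
    (hb : ∀ x, ‖G x‖ ≤ 1) (u : E 2) (hu : ‖u‖ = 1) :
    MerZ (K + 1) (kq G u) ∧ MerZ (K + 1) (kk G u) := by
  have main : ∀ a b : E (1 + m), ‖a‖ = 1 → ‖b‖ = 1 →
      (∀ i : Fin (1 + m), 1 + m ≤ i.val + 2 → a i = 0) →
      (∀ i : Fin (1 + m), i.val + 2 < 1 + m → b i = 0) →
      hh b = 0 ∧ eVariationOn (fun z : ℝ => G (z • J (hh a • u) (yy a) +
        Real.sqrt (1 - z ^ 2) • J (hh b • u) (yy b))) (Ioo 0 1) ≤ ENNReal.ofReal K := by
    intro a b ha hb' h1 h2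
    have hb0 : hh b = 0 := by
      rw [hh_eq]
      apply h2
      simp only [Fin.val_castAdd, Fin.val_zero]
      omega
    refine ⟨hb0, h _ _ ?_ ?_ ?_ ?_⟩
    · rw [lift_norm u hu, ha]
    · rw [lift_norm u hu, hb']
    · intro i
      refine Fin.addCases (fun i' => ?_) (fun i' => ?_) i
      · intro hi
        simp only [Fin.val_castAdd] at hi
        have := i'.isLt
        omega
      · intro hi
        rw [J_nat, yy_eq]
        apply h1
        simp only [Fin.val_natAdd] at hi ⊢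
        omega
    · intro i
      refine Fin.addCases (fun i' => ?_) (fun i' => ?_) i
      · intro _
        rw [J_cast, hb0]
        simp
      · intro hi
        rw [J_nat, yy_eq]
        apply h2
        simp only [Fin.val_natAdd] at hi ⊢
        omega
  have hhc : ∀ (a b : E (1 + m)) (z w : ℝ), hh b = 0 → hh (z • a + w • b) = z * hh a := by
    intro a b z w hb0
    rw [hh_eq] at hb0 ⊢
    rw [hh_eq]
    simp only [PiLp.add_apply, PiLp.smul_apply, smul_eq_mul, hb0]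
    ring
  constructor
  · intro a b ha hb' h1 h2
    obtain ⟨hb0, hv⟩ := main a b ha hb' h1 h2
    by_cases h0 : 0 < hh a
    · refine le_trans (le_of_eq ?_) (hv.trans (ENNReal.ofReal_le_ofReal (by linarith)))
      refine eVariationOn.congr fun z hz => ?_
      have hz0 : 0 < z := hz.1
      unfold kq
      rw [lift_comb, hhc a b z _ hb0, if_pos (mul_pos hz0 h0), ofReal_one, one_mul]
    · have e : eVariationOn (fun z : ℝ => kq G u (z • a + Real.sqrt (1 - z ^ 2) • b)) (Ioo 0 1) =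
          eVariationOn (fun _ : ℝ => (0 : ℂ)) (Ioo 0 1) := by
        refine eVariationOn.congr fun z hz => ?_
        have hz0 : 0 < z := hz.1
        unfold kq
        rw [hhc a b z _ hb0, if_neg (not_lt.2 (mul_nonpos_of_nonneg_of_nonpos hz0.le
          (not_lt.1 h0))), ofReal_zero, zero_mul]
      rw [e, eVariationOn.constant_on]
      · exact zero_le
      · intro x hx y hy
        obtain ⟨_, _, rfl⟩ := hx
        obtain ⟨_, _, rfl⟩ := hy
        rfl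
  · intro a b ha hb' h1 h2
    obtain ⟨hb0, hv⟩ := main a b ha hb' h1 h2
    have ha1 : hh a ≤ 1 := by
      have := (hh_le a)
      rw [ha] at this
      exact (le_abs_self _).trans this
    have hmx : 0 ≤ max (hh a) 0 := le_max_right _ _
    have hmx1 : max (hh a) 0 ≤ 1 := max_le ha1 zero_le_one
    have e : eVariationOn (fun z : ℝ => kk G u (z • a + Real.sqrt (1 - z ^ 2) • b)) (Ioo 0 1) =
        eVariationOn (fun z : ℝ => ((z * max (hh a) 0 : ℝ) : ℂ) * G (z • J (hh a • u) (yy a) +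
        Real.sqrt (1 - z ^ 2) • J (hh b • u) (yy b))) (Ioo 0 1) := by
      refine eVariationOn.congr fun z hz => ?_
      have hz0 : 0 < z := hz.1
      unfold kk
      rw [lift_comb, hhc a b z _ hb0]
      congr 2
      rcases le_total (hh a) 0 with h3 | h3
      · rw [max_eq_right h3, mul_zero, max_eq_right (mul_nonpos_of_nonneg_of_nonpos hz0.le h3)]
      · rw [max_eq_left h3, max_eq_left (mul_nonneg hz0.le h3)]
    rw [e]
    refine (var_mul (Ioo 0 1) _ (fun z => z * max (hh a) 0) ?_ ?_ ?_ (fun z _ => hb _)).trans ?_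
    · intro x _ y _ hxy
      exact mul_le_mul_of_nonneg_right hxy hmx
    · intro z hz
      exact mul_nonneg hz.1.le hmx
    · intro z hz
      calc z * max (hh a) 0 ≤ 1 * 1 := by
            refine mul_le_mul hz.2.le hmx1 hmx zero_le_one
        _ = 1 := one_mul _
    · rw [ENNReal.ofReal_add hK.le zero_le_one, ENNReal.ofReal_one]
      gcongr

/-- the estimate for the class -/
def INDY (κ : ℝ) (k n : ℕ) : Prop := ∀ K : ℝ, 0 < K → ∀ P : ℝ, 2 * (n : ℝ) / ((n : ℝ) - 1) < P →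
  ∃ A : ℝ≥0, ∀ G : E n → ℂ, Cl κ K k G → MerZ K G → ∫⁻ ξ, ‖T G ξ‖ₑ ^ P ≤ A

theorem stepY (k : ℕ) (hm : 2 ≤ m) (κ : ℝ) (hκ0 : 0 < κ) (hκ1 : κ ≤ 1 / 2)
    (hκm : ((m : ℝ) + 1) / ((m : ℝ) + 2) ≤ 2 * κ) (h : INDY κ k (1 + m)) :
    INDY κ (k + 1) (2 + m) := by
  intro K hK q hq
  have hm1 : 1 ≤ m := by omega
  have hm0 : (1 : ℝ) ≤ m := by exact_mod_cast hm1
  have hq' : 2 * ((m : ℝ) + 2) / ((m : ℝ) + 1) < q := by
    refine lt_of_le_of_lt (le_of_eq ?_) hq
    push_cast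
    congr 1 <;> ring
  set A : ℝ := 2 * ((m : ℝ) + 1) / m with hA
  have hA2 : 2 < A := by
    rw [hA, lt_div_iff₀ (by linarith)]
    linarith
  have hAq : 4 - 4 / A < q := by
    refine lt_of_le_of_lt (le_of_eq ?_) hq'
    rw [hA]
    field_simp
    ring
  have hq2 : 2 < q := by
    refine lt_trans ?_ hq'
    rw [lt_div_iff₀ (by linarith)]
    linarith
  obtain ⟨P, ε, hAP, hqP, hε, hε1, h1⟩ := expoP A q hA2 hAq
  have hκq : 2 * ((m : ℝ) + 3) / ((m : ℝ) + 1 + 2 * κ) < q := by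
    refine lt_of_le_of_lt ?_ hq'
    rw [div_le_div_iff₀ (by positivity) (by positivity)]
    rw [div_le_iff₀ (by positivity)] at hκm
    nlinarith
  obtain ⟨P', hTS, hqP', h2⟩ := expo2 (m := m) q κ hq2 hκ0 hκq
  obtain ⟨A₁, hA₁⟩ := h (2 * K + 4) (by linarith) P (by
    refine lt_of_le_of_lt (le_of_eq ?_) hAP
    rw [hA]
    push_cast
    congr 1 <;> ring)
  obtain ⟨w, hw, hreg⟩ := Reg_of_Cl (m := m) hm1
  have hP0 : 0 < P := by linarith
  have hne : (2 : ℝ≥0∞) ^ P * (A₁ + A₁) ≠ ⊤ :=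
    ENNReal.mul_ne_top (ENNReal.rpow_ne_top_of_nonneg hP0.le (by norm_num)) (by simp)
  obtain ⟨C, hC⟩ := LQ hm1 P q κ P' ε hq2 hqP hε hε1 hκ0 (w * (2 * K + 4)) (by positivity)
    ((2 : ℝ≥0∞) ^ P * (A₁ + A₁)).toNNReal hTS hqP' h1 h2
  refine ⟨C, fun G hG hGM => ?_⟩
  have hG1 := onS_Cl κ K (k + 1) G hG
  have hGM1 := onS_MerZ K G hGM
  have hb : ∀ x, ‖onS G x‖ ≤ 1 := onS_le G hG.2.1
  have h3 := hC (onS G) hG1.1 hb (hreg κ K (k + 1) (onS G) hκ1 hK (by omega) hG1 hb) (by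
    intro u hu
    rw [ENNReal.coe_toNNReal hne]
    obtain ⟨s1, s2⟩ := slice_q hκ1 hK (onS G) hG1 hb u hu
    obtain ⟨t1, t2⟩ := slice_M hm K hK (onS G) hGM1 hb u hu
    exact hG_two P hP0 (onS G) hG1.1 u A₁
      (hA₁ _ s2 (MerZ_mono (by linarith) _ t2)) (hA₁ _ s1 (MerZ_mono (by linarith) _ t1)))
  simp only [T_onS] at h3
  exact h3

theorem baseY (κ : ℝ) : INDY κ 0 3 := by
  intro K hK P hP
  obtain ⟨A, hA⟩ := baseM P (by
    refine lt_of_le_of_lt (le_of_eq ?_) hP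
    norm_num) K hK
  refine ⟨A, fun G hG hGM => ?_⟩
  have h := hA (onS G) (onS_meas G hG.1) (onS_le G hG.2.1) (onS_MerZ K G hGM)
  simp only [T_onS] at h
  exact h

theorem descY (κ : ℝ) (hκ0 : 0 < κ) (hκ1 : κ ≤ 1 / 2) : ∀ k : ℕ,
    (((3 + k : ℕ) : ℝ) - 1) / ((3 + k : ℕ) : ℝ) ≤ 2 * κ → INDY κ k (3 + k) := by
  intro k
  induction k with
  | zero => exact fun _ => baseY κ
  | succ k ih =>
    intro hk
    obtain ⟨m, hm⟩ : ∃ m, 3 + k = 1 + m := ⟨2 + k, by omega⟩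
    have hm1 : 2 ≤ m := by omega
    have e : 3 + (k + 1) = 2 + m := by omega
    have hmr : (2 : ℝ) ≤ m := by exact_mod_cast hm1
    rw [e] at hk ⊢
    rw [hm] at ih
    have hk' : ((m : ℝ) + 1) / ((m : ℝ) + 2) ≤ 2 * κ := by
      refine le_trans (le_of_eq ?_) hk
      push_cast
      congr 1 <;> ring
    refine stepY k hm1 κ hκ0 hκ1 hk' (ih ?_)
    refine le_trans ?_ hk'
    push_cast
    rw [div_le_div_iff₀ (by positivity) (by positivity)]
    nlinarith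

/-- functions of bounded variation along the arcs -/
theorem Cl_of_var {n : ℕ} (k : ℕ) (K : ℝ) (hK : 0 < K) (G : E n → ℂ) (hG : Measurable G)
    (hb : ∀ x, ‖x‖ = 1 → ‖G x‖ ≤ 1)
    (hv : ∀ j : Fin n, 1 ≤ j.val → j.val ≤ k → ∀ v : E n, ‖v‖ = 1 → v j = 0 →
      eVariationOn (fun s => G (arc j v s)) (Ioo (-(Real.pi / 2)) (Real.pi / 2)) ≤
        ENNReal.ofReal K) : Cl (1 / 2) (K + 6) k G := by
  refine ⟨hG, hb, fun j hj1 hjk v hv1 hv0 θ hθ => ?_⟩
  have hpi := Real.pi_pos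
  have h1 := modI2 (-(Real.pi / 2)) (Real.pi / 2) (by linarith) (fun s => G (arc j v s))
    (hG.comp (arc_meas j v)) K hK (fun s _ => hb _ (by rw [arc_norm j v s hv0, hv1]))
    (hv j hj1 hjk v hv1 hv0) θ hθ.1
  refine h1.trans (ENNReal.ofReal_le_ofReal ?_)
  rw [show 2 * (1 / 2 : ℝ) = 1 by norm_num, Real.rpow_one]
  have hθ0 : 0 < θ := hθ.1
  nlinarith [mul_pos hK hθ0, mul_pos (mul_pos hK hK) hθ0]

/-- **the theorem** in normalised form -/
theorem mainY (n : ℕ) (hn : 3 ≤ n) (q : ℝ) (hq : 2 * (n : ℝ) / ((n : ℝ) - 1) < q) (K : ℝ)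
    (hK : 0 < K) : ∃ A : ℝ≥0, ∀ G : E n → ℂ, Measurable G → (∀ x, ‖x‖ = 1 → ‖G x‖ ≤ 1) →
    (∀ j : Fin n, 1 ≤ j.val → j.val + 3 ≤ n → ∀ v : E n, ‖v‖ = 1 → v j = 0 →
      eVariationOn (fun s => G (arc j v s)) (Ioo (-(Real.pi / 2)) (Real.pi / 2)) ≤
        ENNReal.ofReal K) → MerZ K G → ∫⁻ ξ, ‖T G ξ‖ₑ ^ q ≤ A := by
  obtain ⟨k, rfl⟩ : ∃ k, n = 3 + k := ⟨n - 3, by omega⟩
  have h := descY (1 / 2) (by norm_num) le_rfl k (by
    push_cast
    have : (0 : ℝ) ≤ k := Nat.cast_nonneg k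
    rw [div_le_iff₀ (by positivity)]
    linarith)
  obtain ⟨A, hA⟩ := h (K + 6) (by linarith) q hq
  refine ⟨A, fun G hG hb hv hM => ?_⟩
  exact hA G (Cl_of_var k K hK G hG hb fun j hj1 hjk => hv j hj1 (by omega))
    (MerZ_mono (by linarith) G hM)

end Pool.Agent.Run7.h58.LR
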